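import Mathlib

set_option autoImplicit false
set_option linter.unusedSectionVars false

namespace Pool.Agent.LibLPres

/-- The structure of an ascending HNN extension. -/
structure Asc {G H : Type} [Group G] [Group H] (ι : H →* G) (t : G) (Ψ : H →* H)
    (χ : G →* Multiplicative ℤ) : Prop where
  inj : Function.Injective ι
  conj : ∀ h, t * ι h * t⁻¹ = ι (Ψ h)
  nf : ∀ g, ∃ (a b : ℕ) (h : H), g = (t ^ a)⁻¹ * ι h * t ^ b
  chi_of : ∀ h, χ (ι h) = 1
  chi_t : χ t = Multiplicative.ofAdd 1

namespace Asc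

variable {G H : Type} [Group G] [Group H] {ι : H →* G} {t : G} {Ψ : H →* H}
  {χ : G →* Multiplicative ℤ}

theorem conj_pow (A : Asc ι t Ψ χ) (n : ℕ) (h : H) :
    t ^ n * ι h * (t ^ n)⁻¹ = ι (Ψ^[n] h) := by
  induction n generalizing h with
  | zero => simp
  | succ n ih =>
    rw [Function.iterate_succ_apply, ← ih, ← A.conj, pow_succ]
    group

theorem pow_mul (A : Asc ι t Ψ χ) (n : ℕ) (h : H) :
    t ^ n * ι h = ι (Ψ^[n] h) * t ^ n := by
  rw [← A.conj_pow]; group

theorem mul_inv_pow (A : Asc ι t Ψ χ) (n : ℕ) (h : H) :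
    ι h * (t ^ n)⁻¹ = (t ^ n)⁻¹ * ι (Ψ^[n] h) := by
  rw [← A.conj_pow]; group

theorem psi_injective (A : Asc ι t Ψ χ) : Function.Injective Ψ := by
  intro x y h
  apply A.inj
  have h1 := A.conj x
  have h2 := A.conj y
  rw [h, ← h2] at h1
  simpa using h1

theorem chi_nf (A : Asc ι t Ψ χ) (a b : ℕ) (h : H) :
    χ ((t ^ a)⁻¹ * ι h * t ^ b) = Multiplicative.ofAdd ((b : ℤ) - a) := by
  rw [map_mul, map_mul, map_inv, map_pow, map_pow, A.chi_of, A.chi_t, mul_one]
  rw [← ofAdd_nsmul, ← ofAdd_nsmul, ← ofAdd_neg, ← ofAdd_add]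
  congr 1
  simp
  ring

end Asc

section hnn

variable {H : Type} [Group H] {B : Subgroup H} (φ : (⊤ : Subgroup H) ≃* B)

/-- the endomorphism given by the isomorphism with a subgroup -/
def endo : H →* H := (B.subtype).comp (φ.toMonoidHom.comp (Subgroup.topEquiv (G := H)).symm.toMonoidHom)

theorem endo_apply (h : H) : endo φ h = (φ ⟨h, Subgroup.mem_top h⟩ : H) := rfl

/-- the height homomorphism -/
def hgt : HNNExtension H ⊤ B φ →* Multiplicative ℤ :=
  HNNExtension.lift 1 (Multiplicative.ofAdd 1) (by intro a; simp)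

theorem hnn_conj (h : H) : (HNNExtension.t : HNNExtension H ⊤ B φ) * HNNExtension.of h
    * (HNNExtension.t)⁻¹ = HNNExtension.of (endo φ h) := by
  rw [endo_apply]
  exact (HNNExtension.equiv_eq_conj (φ := φ) ⟨h, Subgroup.mem_top h⟩).symm

theorem asc_hnn : Asc (HNNExtension.of : H →* HNNExtension H ⊤ B φ) HNNExtension.t (endo φ)
    (hgt φ) := by
  have hconj : ∀ n : ℕ, ∀ h : H, (HNNExtension.t : HNNExtension H ⊤ B φ) ^ n * HNNExtension.of h
      * ((HNNExtension.t) ^ n)⁻¹ = HNNExtension.of ((endo φ)^[n] h) := by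
    intro n
    induction n with
    | zero => intro h; simp
    | succ n ih =>
      intro h
      rw [Function.iterate_succ_apply, ← ih, ← hnn_conj, pow_succ]
      group
  have hl : ∀ n : ℕ, ∀ h : H, (HNNExtension.t : HNNExtension H ⊤ B φ) ^ n * HNNExtension.of h
      = HNNExtension.of ((endo φ)^[n] h) * (HNNExtension.t) ^ n := by
    intro n h; rw [← hconj]; group
  have hr : ∀ n : ℕ, ∀ h : H, HNNExtension.of h * ((HNNExtension.t : HNNExtension H ⊤ B φ) ^ n)⁻¹
      = ((HNNExtension.t) ^ n)⁻¹ * HNNExtension.of ((endo φ)^[n] h) := by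
    intro n h; rw [← hconj]; group
  refine ⟨HNNExtension.of_injective φ, hnn_conj φ, ?_, ?_, ?_⟩
  · intro g
    induction g using HNNExtension.induction_on with
    | of g => exact ⟨0, 0, g, by simp⟩
    | t => exact ⟨0, 1, 1, by simp⟩
    | mul x y hx hy =>
      obtain ⟨a, b, h, rfl⟩ := hx
      obtain ⟨c, d, k, rfl⟩ := hy
      rcases le_total b c with hbc | hbc
      · obtain ⟨e, rfl⟩ := Nat.exists_eq_add_of_le hbc
        refine ⟨a + e, d, (endo φ)^[e] h * k, ?_⟩
        have h1 := hr e h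
        have h2 : ((HNNExtension.t : HNNExtension H ⊤ B φ) ^ (a + e))⁻¹
            = (HNNExtension.t ^ a)⁻¹ * (HNNExtension.t ^ e)⁻¹ := by
          rw [add_comm a e, pow_add, mul_inv_rev]
        have h3 : ((HNNExtension.t : HNNExtension H ⊤ B φ) ^ b) * (HNNExtension.t ^ (b + e))⁻¹
            = (HNNExtension.t ^ e)⁻¹ := by
          rw [add_comm b e, pow_add, mul_inv_rev, mul_inv_cancel_left]
        calc (HNNExtension.t ^ a)⁻¹ * HNNExtension.of h * HNNExtension.t ^ b *
              ((HNNExtension.t ^ (b + e))⁻¹ * HNNExtension.of k * HNNExtension.t ^ d)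
            = (HNNExtension.t ^ a)⁻¹ * HNNExtension.of h * (HNNExtension.t ^ b *
              (HNNExtension.t ^ (b + e))⁻¹) * HNNExtension.of k * HNNExtension.t ^ d := by group
          _ = (HNNExtension.t ^ a)⁻¹ * (HNNExtension.of h * (HNNExtension.t ^ e)⁻¹) *
              HNNExtension.of k * HNNExtension.t ^ d := by rw [h3]; group
          _ = _ := by rw [h1, h2, map_mul]; group
      · obtain ⟨e, rfl⟩ := Nat.exists_eq_add_of_le hbc
        refine ⟨a, e + d, h * (endo φ)^[e] k, ?_⟩
        have h1 := hl e k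
        have h3 : ((HNNExtension.t : HNNExtension H ⊤ B φ) ^ (c + e)) * (HNNExtension.t ^ c)⁻¹
            = HNNExtension.t ^ e := by
          rw [add_comm c e, pow_add, mul_inv_cancel_right]
        calc (HNNExtension.t ^ a)⁻¹ * HNNExtension.of h * HNNExtension.t ^ (c + e) *
              ((HNNExtension.t ^ c)⁻¹ * HNNExtension.of k * HNNExtension.t ^ d)
            = (HNNExtension.t ^ a)⁻¹ * HNNExtension.of h * (HNNExtension.t ^ (c + e) *
              (HNNExtension.t ^ c)⁻¹) * HNNExtension.of k * HNNExtension.t ^ d := by group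
          _ = (HNNExtension.t ^ a)⁻¹ * HNNExtension.of h * (HNNExtension.t ^ e *
              HNNExtension.of k) * HNNExtension.t ^ d := by rw [h3]; group
          _ = _ := by rw [h1, map_mul, pow_add]; group
    | inv x hx =>
      obtain ⟨a, b, h, rfl⟩ := hx
      exact ⟨b, a, h⁻¹, by rw [map_inv]; group⟩
  · intro h
    rw [hgt, HNNExtension.lift_of]; rfl
  · rw [hgt, HNNExtension.lift_t]

end hnn

/-- The isomorphism from the whole group onto the range of an injective endomorphism. -/
noncomputable def ascEquiv {H : Type} [Group H] (Ψ : H →* H) (hΨ : Function.Injective Ψ) :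
    (⊤ : Subgroup H) ≃* Ψ.range :=
  (Subgroup.topEquiv (G := H)).trans (MonoidHom.ofInjective hΨ)

theorem endo_ascEquiv {H : Type} [Group H] (Ψ : H →* H) (hΨ : Function.Injective Ψ) :
    endo (ascEquiv Ψ hΨ) = Ψ := by
  ext h; rfl

end Pool.Agent.LibLPres
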