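import Pool.Agent.LibLPres.Solv

set_option autoImplicit false
set_option linter.unusedSectionVars false

namespace Pool.Agent.LibLPres

namespace Asc

variable {G H : Type} [Group G] [Group H] {ι : H →* G} {t : G} {Ψ : H →* H}
  {χ : G →* Multiplicative ℤ}

/-- Transport along an isomorphism. -/
theorem transport {G' : Type} [Group G'] (A : Asc ι t Ψ χ) (e : G ≃* G') :
    Asc (e.toMonoidHom.comp ι) (e t) Ψ (χ.comp e.symm.toMonoidHom) where
  inj := e.injective.comp A.inj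
  conj h := by
    have := congrArg e (A.conj h)
    rw [map_mul, map_mul, map_inv] at this
    exact this
  nf g := by
    obtain ⟨a, b, h, hg⟩ := A.nf (e.symm g)
    refine ⟨a, b, h, ?_⟩
    have := congrArg e hg
    rw [MulEquiv.apply_symm_apply, map_mul, map_mul, map_inv, map_pow, map_pow] at this
    exact this
  chi_of h := by
    change χ (e.symm (e (ι h))) = 1
    rw [MulEquiv.symm_apply_apply]; exact A.chi_of h
  chi_t := by
    change χ (e.symm (e t)) = _
    rw [MulEquiv.symm_apply_apply]; exact A.chi_t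

/-- Conjugate an ascending structure. -/
theorem conjugate (A : Asc ι t Ψ χ) (g : G) :
    Asc ((MulAut.conj g).toMonoidHom.comp ι) (g * t * g⁻¹) Ψ χ where
  inj := (MulAut.conj g).injective.comp A.inj
  conj h := by
    change g * t * g⁻¹ * (g * ι h * g⁻¹) * (g * t * g⁻¹)⁻¹ = g * ι (Ψ h) * g⁻¹
    rw [← A.conj]; group
  nf x := by
    obtain ⟨a, b, h, hg⟩ := A.nf (g⁻¹ * x * g)
    refine ⟨a, b, h, ?_⟩
    change x = ((g * t * g⁻¹) ^ a)⁻¹ * (g * ι h * g⁻¹) * (g * t * g⁻¹) ^ b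
    rw [_root_.conj_pow, _root_.conj_pow]
    calc x = g * (g⁻¹ * x * g) * g⁻¹ := by group
      _ = _ := by rw [hg]; group
  chi_of h := by
    change χ (g * ι h * g⁻¹) = 1
    rw [map_mul, map_mul, A.chi_of, map_inv]; simp
  chi_t := by
    rw [map_mul, map_mul, map_inv, mul_comm (χ g), mul_inv_cancel_right]; exact A.chi_t

theorem nf_chi (A : Asc ι t Ψ χ) (g : G) : ∃ (a b : ℕ) (h : H),
    g = (t ^ a)⁻¹ * ι h * t ^ b ∧ Multiplicative.toAdd (χ g) = (b : ℤ) - a := by
  obtain ⟨a, b, h, hg⟩ := A.nf g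
  refine ⟨a, b, h, hg, ?_⟩
  rw [hg, A.chi_nf]; rfl

/-- The computation rule for conjugation. -/
theorem conj_form (A : Asc ι t Ψ χ) {a b : ℕ} {h x y : H}
    (hg : ((t ^ a)⁻¹ * ι h * t ^ b) * ι x * ((t ^ a)⁻¹ * ι h * t ^ b)⁻¹ = ι y) :
    Ψ^[a] y = h * Ψ^[b] x * h⁻¹ := by
  apply A.inj
  rw [← A.conj_pow, ← hg, map_mul, map_mul, map_inv, ← A.conj_pow]
  group

theorem conj_eq (A : Asc ι t Ψ χ) (a b : ℕ) (h x : H) :
    ((t ^ a)⁻¹ * ι h * t ^ b) * ι x * ((t ^ a)⁻¹ * ι h * t ^ b)⁻¹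
      = (t ^ a)⁻¹ * ι (h * Ψ^[b] x * h⁻¹) * t ^ a := by
  rw [map_mul, map_mul, map_inv, ← A.conj_pow]
  group

theorem unconj (A : Asc ι t Ψ χ) (a : ℕ) (x : H) : (t ^ a)⁻¹ * ι (Ψ^[a] x) * t ^ a = ι x := by
  rw [← A.conj_pow]; group

end Asc

section iter

variable {D : ℕ}

theorem sigP_iter_inj (a : ℕ) : Function.Injective (sigP D)^[a] :=
  (sigP_injective D).iterate a

theorem sigP_iter_surj (a : ℕ) : Function.Surjective (sigP D)^[a] :=
  (sigP_surjective D).iterate a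

theorem sigR_iter_inj (a : ℕ) : Function.Injective (sigR D)^[a] :=
  (sigR_injective D).iterate a

theorem sig3_iter_surj (a : ℕ) : Function.Surjective (sig3 D)^[a] :=
  (sig3_surjective D).iterate a

theorem Psi_iter (a : ℕ) (h : Hc D) : (Psi D)^[a] h = ⟨(sig3 D)^[a] h.r1, (sig3 D)^[a] h.r2,
    3 ^ a * (sigR D)^[a] h.c1, 3 ^ a * (sigR D)^[a] h.c2, (sigR D)^[a] h.e,
    (sigP D)^[a] h.u, (sigP D)^[a] h.w⟩ := by
  induction a with
  | zero => 
    apply KG.ext <;> simp
  | succ a ih =>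
    rw [Function.iterate_succ_apply', ih, Psi_apply]
    have h3 : sigR D 3 = 3 := map_ofNat _ 3
    apply KG.ext
    · simp only [Function.iterate_succ_apply']
    · simp only [Function.iterate_succ_apply']
    · simp only [Function.iterate_succ_apply', map_mul, map_pow, h3]; ring
    · simp only [Function.iterate_succ_apply', map_mul, map_pow, h3]; ring
    · simp only [Function.iterate_succ_apply']
    · simp only [Function.iterate_succ_apply']
    · simp only [Function.iterate_succ_apply']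

theorem conj_row_form (h : Hc D) (x y : R3 D) : ∃ x' y', h * rowE x y * h⁻¹ = rowE x' y' := by
  refine ⟨cf (upsR D) h.u⁻¹ • x, cf (upsR D) h.w⁻¹ • y + (h.e * cf (upsR D) h.u⁻¹) • x, ?_⟩
  rw [mul_inv_eq_iff_eq_mul]
  apply KG.ext
  · simp [rowE, add_comm]
  · simp [rowE]; abel
  · simp [rowE]
  · simp [rowE]
  · simp [rowE]
  · simp [rowE]
  · simp [rowE]

theorem conj_col_form (h : Hc D) (x y : RR D) : h * colE x y * h⁻¹
    = colE (cf (upsR D) h.w * x) (cf (upsR D) h.u * y + h.e * cf (upsR D) h.w * x) := by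
  rw [mul_inv_eq_iff_eq_mul]
  apply KG.ext
  · simp [colE]
  · simp [colE]
  · simp [colE, add_comm]
  · simp [colE]; ring
  · simp [colE]
  · simp [colE]
  · simp [colE]

theorem conj_tor_form (h : Hc D) (u : PP D) : (h * tE u u * h⁻¹).e = 0 ∧
    (h * tE u u * h⁻¹).u = u ∧ (h * tE u u * h⁻¹).w = u := by
  have h1 := cf_mul_inv (upsR D) h.u
  have h2 := cf_inv_mul (upsR D) h.w
  have h3 := cf_mul_inv (upsR D) u
  refine ⟨?_, ?_, ?_⟩
  · simp only [tE, KG.mul_e, KG.inv_e, KG.mul_u, KG.mul_w, mul_zero, add_zero, cf_mul, mul_inv_rev]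
    linear_combination (-(h.e) * cf (upsR D) h.w⁻¹ * cf (upsR D) h.w * cf (upsR D) u
      * cf (upsR D) u⁻¹) * h1 - (h.e * cf (upsR D) u * cf (upsR D) u⁻¹) * h2 - h.e * h3
  · simp [tE]
  · simp [tE]

end iter

end Pool.Agent.LibLPres
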