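import Pool.Agent.LibLPres.Ring

set_option autoImplicit false
set_option linter.unusedSectionVars false

namespace Pool.Agent.LibLPres

section four

variable {G : Type} [Group G]

theorem comm_ps {p q r s : G} (h : Commute (p * q) (r * s)) (pr : Commute p r) (qr : Commute q r)
    (qs : Commute q s) : Commute p s := by
  have h1 : p * q * (r * s) = r * s * (p * q) := h
  have h2 : p * q * (r * s) = r * (p * s * q) := by
    calc p * q * (r * s) = p * (q * r) * s := by group
      _ = p * (r * q) * s := by rw [qr.eq]
      _ = (p * r) * (q * s) := by group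
      _ = (r * p) * (s * q) := by rw [pr.eq, qs.eq]
      _ = r * (p * s * q) := by group
  rw [h2] at h1
  have h3 : r * (p * s * q) = r * (s * p * q) := by rw [h1]; group
  exact mul_right_cancel (mul_left_cancel h3)

theorem comm_qr {p q r s : G} (h : Commute (p * q) (r * s)) (pr : Commute p r) (ps : Commute p s)
    (qs : Commute q s) : Commute q r := by
  have h1 : p * q * (r * s) = r * s * (p * q) := h
  have h2 : r * s * (p * q) = p * (r * q) * s := by
    calc r * s * (p * q) = r * (s * p) * q := by group
      _ = r * (p * s) * q := by rw [ps.eq]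
      _ = (r * p) * (s * q) := by group
      _ = (p * r) * (q * s) := by rw [pr.eq, qs.eq]
      _ = p * (r * q) * s := by group
  rw [h2] at h1
  have h3 : p * (q * r) * s = p * (r * q) * s := by rw [← h1]; group
  exact mul_left_cancel (mul_right_cancel h3)

end four

section box

variable {D : ℕ} {G : Type} [Group G] (T : PP D →* G) (a : G)

/-- conjugates of `a` by the torus -/
def cj (u : PP D) : G := T u * a * (T u)⁻¹

theorem cj_mul (u v : PP D) : cj T a (u * v) = T u * cj T a v * (T u)⁻¹ := by
  simp only [cj, map_mul]; group

theorem cj_one : cj T a 1 = a := by simp [cj]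

theorem cj_comm_mul {u v : PP D} (w : PP D) (h : Commute (cj T a u) (cj T a v)) :
    Commute (cj T a (w * u)) (cj T a (w * v)) := by
  rw [cj_mul, cj_mul]
  exact (Commute.conj_iff _).mpr h

theorem cj_comm_iff (u v w : PP D) :
    Commute (cj T a (w * u)) (cj T a (w * v)) ↔ Commute (cj T a u) (cj T a v) := by
  rw [cj_mul, cj_mul]
  exact Commute.conj_iff _

theorem comm_iff_one (u v : PP D) :
    Commute (cj T a u) (cj T a v) ↔ Commute a (cj T a (u⁻¹ * v)) := by
  rw [← cj_comm_iff T a u v u⁻¹, inv_mul_cancel, cj_one]

theorem comm_symm (u : PP D) : Commute a (cj T a u) ↔ Commute a (cj T a u⁻¹) := by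
  constructor
  · intro h
    have := (comm_iff_one T a u 1).mp (by rw [cj_one]; exact h.symm)
    rwa [mul_one] at this
  · intro h
    have := (comm_iff_one T a u⁻¹ 1).mp (by rw [cj_one]; exact h.symm)
    rwa [mul_one, inv_inv] at this

variable (hr : ∀ i : Fin D, a * cj T a (gen false i) * cj T a (gen true i) = 1)

include hr in
theorem cj_rel (i : Fin D) (u : PP D) :
    cj T a u * cj T a (gen false i * u) * cj T a (gen true i * u) = 1 := by
  have h := congrArg (fun x => T u * x * (T u)⁻¹) (hr i)
  simp only [mul_one, mul_inv_cancel] at h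
  rw [mul_comm (gen false i), mul_comm (gen true i), cj_mul, cj_mul]
  rw [← h, cj]; group

include hr in
theorem cj_true (i : Fin D) (u : PP D) :
    cj T a (gen true i * u) = (cj T a u * cj T a (gen false i * u))⁻¹ := by
  have := cj_rel T a hr i u
  exact (inv_eq_of_mul_eq_one_right this).symm

/-- the main recurrence -/
theorem comm_pq (hr : ∀ i : Fin D, a * cj T a (gen false i) * cj T a (gen true i) = 1)
    (i : Fin D) (u : PP D) (h : Commute a (cj T a u)) :
    Commute (a * cj T a (gen false i)) (cj T a u * cj T a (gen false i * u)) := by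
  have h1 := cj_comm_mul T a (gen true i) (u := 1) (v := u) (by rw [cj_one]; exact h)
  rw [mul_one] at h1
  have h2 := cj_true T a hr i 1
  rw [mul_one, mul_one, cj_one] at h2
  rw [h2, cj_true T a hr i u] at h1
  exact (Commute.inv_inv_iff).mp h1

include hr in
theorem comm_step_up (i : Fin D) (u : PP D) (h : Commute a (cj T a u))
    (h' : Commute a (cj T a ((gen false i)⁻¹ * u))) : Commute a (cj T a (gen false i * u)) := by
  refine comm_ps (comm_pq T a hr i u h) h ?_ ?_
  · rw [comm_iff_one]; exact h'
  · rw [comm_iff_one, inv_mul_cancel_left]; exact h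

include hr in
theorem comm_step_down (i : Fin D) (u : PP D) (h : Commute a (cj T a u))
    (h' : Commute a (cj T a (gen false i * u))) : Commute a (cj T a ((gen false i)⁻¹ * u)) := by
  rw [← comm_iff_one]
  refine comm_qr (comm_pq T a hr i u h) h h' ?_
  rw [comm_iff_one, inv_mul_cancel_left]; exact h

include hr in
theorem comm_line (i : Fin D) (u : PP D) (h : Commute a (cj T a u))
    (h' : Commute a (cj T a (gen false i * u))) (n : ℤ) :
    Commute a (cj T a ((gen false i) ^ n * u)) := by
  have key : ∀ n : ℕ, (Commute a (cj T a ((gen false i) ^ (n : ℤ) * u)) ∧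
      Commute a (cj T a ((gen false i) ^ ((n : ℤ) + 1) * u))) ∧
      (Commute a (cj T a ((gen false i) ^ (-(n : ℤ)) * u)) ∧
      Commute a (cj T a ((gen false i) ^ (-(n : ℤ) - 1) * u))) := by
    intro n
    induction n with
    | zero =>
      refine ⟨⟨by simpa using h, by simpa using h'⟩, by simpa using h, ?_⟩
      have := comm_step_down T a hr i u h h'
      simpa using this
    | succ n ih =>
      obtain ⟨⟨h1, h2⟩, h3, h4⟩ := ih
      refine ⟨⟨by simpa using h2, ?_⟩, ?_, ?_⟩
      · have := comm_step_up T a hr i _ h2 (by
          rw [← mul_assoc, ← zpow_neg_one, ← zpow_add]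
          have e : -1 + ((n : ℤ) + 1) = n := by ring
          rw [e]; exact h1)
        rw [← mul_assoc, ← zpow_one_add] at this
        have e : (1 : ℤ) + ((n : ℤ) + 1) = ((n + 1 : ℕ) : ℤ) + 1 := by push_cast; ring
        rwa [e] at this
      · have e : -(((n + 1 : ℕ) : ℤ)) = -(n : ℤ) - 1 := by push_cast; ring
        rw [e]; exact h4
      · have := comm_step_down T a hr i _ h4 (by
          rw [← mul_assoc, ← zpow_one_add]
          have e : 1 + (-(n : ℤ) - 1) = -n := by ring
          rw [e]; exact h3)
        rw [← mul_assoc, ← zpow_neg_one, ← zpow_add] at this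
        have e : -1 + (-(n : ℤ) - 1) = -((n + 1 : ℕ) : ℤ) - 1 := by push_cast; ring
        rwa [e] at this
  rcases Int.le_total 0 n with hn | hn
  · obtain ⟨m, rfl⟩ := Int.eq_ofNat_of_zero_le hn
    exact (key m).1.1
  · obtain ⟨m, hm⟩ := Int.eq_ofNat_of_zero_le (Int.neg_nonneg_of_nonpos hn)
    have : n = -(m : ℤ) := by omega
    rw [this]
    exact (key m).2.1

/-- monomials in the first family of generators -/
def mono (v : Fin D → ℤ) : PP D := ∏ i, (gen false i) ^ (v i)

variable (hb : ∀ s : Finset (Fin D), Commute a (cj T a (∏ i ∈ s, gen false i)))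

include hr hb in
theorem comm_mono (v : Fin D → ℤ) : Commute a (cj T a (mono v)) := by
  classical
  -- induction on the set of unrestricted coordinates
  have key : ∀ F : Finset (Fin D), ∀ v : Fin D → ℤ, (∀ i, i ∉ F → v i = 0 ∨ v i = 1) →
      Commute a (cj T a (mono v)) := by
    intro F
    induction F using Finset.induction_on with
    | empty =>
      intro v hv
      have : mono v = ∏ i ∈ Finset.univ.filter (fun i => v i = 1), (gen false i : PP D) := by
        rw [mono, Finset.prod_filter]
        apply Finset.prod_congr rfl
        intro i _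
        rcases hv i (by simp) with h | h <;> simp [h]
      rw [this]
      exact hb _
    | insert j F hj ih =>
      intro v hv
      have h0 := ih (Function.update v j 0) (by
        intro i hi
        by_cases hij : i = j
        · subst hij; left; simp
        · rw [Function.update_of_ne hij]
          exact hv i (by simp [hij, hi]))
      have h1 := ih (Function.update v j 1) (by
        intro i hi
        by_cases hij : i = j
        · subst hij; right; simp
        · rw [Function.update_of_ne hij]
          exact hv i (by simp [hij, hi]))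
      have hm : ∀ n : ℤ, mono (Function.update v j n) =
          (gen false j) ^ n * mono (Function.update v j 0) := by
        intro n
        rw [mono, mono, ← Finset.mul_prod_erase Finset.univ _ (Finset.mem_univ j),
          ← Finset.mul_prod_erase Finset.univ _ (Finset.mem_univ j)]
        simp only [Function.update_self, zpow_zero, one_mul]
        congr 1
        apply Finset.prod_congr rfl
        intro i hi
        rw [Function.update_of_ne (Finset.ne_of_mem_erase hi),
          Function.update_of_ne (Finset.ne_of_mem_erase hi)]
      have h2 := comm_line T a hr j _ h0 (by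
        have := hm 1
        rw [zpow_one] at this
        rw [← this]; exact h1) (v j)
      rw [← hm, Function.update_eq_self] at h2
      exact h2
  exact key Finset.univ v (fun i hi => absurd (Finset.mem_univ i) hi)

/-- the subgroup generated by the conjugates by monomials -/
def monoSub : Subgroup G := Subgroup.closure (Set.range (fun v : Fin D → ℤ => cj T a (mono v)))

theorem mono_mul (v w : Fin D → ℤ) : mono (v + w) = mono v * mono w := by
  simp only [mono, Pi.add_apply, zpow_add, Finset.prod_mul_distrib]

theorem mono_neg (v : Fin D → ℤ) : mono (-v) = (mono v)⁻¹ := by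
  simp only [mono, Pi.neg_apply, zpow_neg, Finset.prod_inv_distrib]

include hr hb in
theorem monoSub_comm {x y : G} (hx : x ∈ monoSub T a) (hy : y ∈ monoSub T a) : Commute x y := by
  have hcomm : ∀ x ∈ Set.range (fun v : Fin D → ℤ => cj T a (mono v)),
      ∀ y ∈ Set.range (fun v : Fin D → ℤ => cj T a (mono v)), x * y = y * x := by
    rintro _ ⟨v, rfl⟩ _ ⟨w, rfl⟩
    have : Commute (cj T a (mono v)) (cj T a (mono w)) := by
      rw [comm_iff_one, ← mono_neg, ← mono_mul]
      exact comm_mono T a hr hb _
    exact this
  have := (Subgroup.isMulCommutative_closure hcomm).is_comm.comm ⟨x, hx⟩ ⟨y, hy⟩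
  exact congrArg Subtype.val this

/-- the exponents for which the conjugate lies in the subgroup -/
theorem gen_mul_mem (hr : ∀ i : Fin D, a * cj T a (gen false i) * cj T a (gen true i) = 1)
    {W : Set (PP D)} (hW : W = {u | ∀ v : Fin D → ℤ, cj T a (mono v * u) ∈ monoSub T a})
    {u : PP D} (hu : u ∈ W) (i : Fin D) : gen true i * u ∈ W := by
  subst hW
  intro v
  have e : mono v * (gen true i * u) = gen true i * (mono v * u) := mul_left_comm _ _ _
  rw [e, cj_true T a hr]
  apply inv_mem
  apply mul_mem
  · exact hu v
  · have h2 := hu (v + Pi.single i 1)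
    have h3 : mono (v + Pi.single i 1) = gen false i * mono v := by
      rw [mono_mul, mul_comm]
      congr 1
      rw [mono, ← Finset.mul_prod_erase Finset.univ _ (Finset.mem_univ i)]
      rw [Finset.prod_eq_one]
      · simp
      · intro j hj
        rw [Pi.single_eq_of_ne (Finset.ne_of_mem_erase hj), zpow_zero]
    rw [h3, mul_assoc] at h2
    exact h2

/-- monomials in the second family -/
def monoT (w : Fin D → ℤ) : PP D := ∏ i, (gen true i) ^ (w i)

theorem monoT_add (v w : Fin D → ℤ) : monoT (v + w) = monoT v * monoT w := by
  simp only [monoT, Pi.add_apply, zpow_add, Finset.prod_mul_distrib]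

theorem monoT_neg (v : Fin D → ℤ) : monoT (-v) = (monoT v)⁻¹ := by
  simp only [monoT, Pi.neg_apply, zpow_neg, Finset.prod_inv_distrib]

theorem exists_mono (u : PP D) : ∃ v w : Fin D → ℤ, u = mono v * monoT w := by
  refine ⟨fun i => Multiplicative.toAdd (u (false, i)), fun i => Multiplicative.toAdd (u (true, i)), ?_⟩
  have h1 : u = ∏ i : Bool × Fin D, (Pi.mulSingle i (u i) : PP D) := by
    rw [Finset.univ_prod_mulSingle]
  rw [Fintype.prod_prod_type, Fintype.prod_bool] at h1
  refine h1.trans ?_
  rw [mono, monoT, mul_comm]
  congr 1 <;>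
  · apply Finset.prod_congr rfl
    intro i _
    rw [mulSingle_eq_zpow]

include hr in
theorem monoT_mem (w : Fin D → ℕ) (v : Fin D → ℤ) :
    cj T a (mono v * monoT (fun i => (w i : ℤ))) ∈ monoSub T a := by
  classical
  set W : Set (PP D) := {u | ∀ v : Fin D → ℤ, cj T a (mono v * u) ∈ monoSub T a} with hWdef
  have h1 : (1 : PP D) ∈ W := by
    intro v; rw [mul_one]; exact Subgroup.subset_closure ⟨v, rfl⟩
  have hpow : ∀ i : Fin D, ∀ n : ℕ, ∀ u ∈ W, (gen true i) ^ n * u ∈ W := by
    intro i n
    induction n with
    | zero => intro u hu; simpa using hu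
    | succ n ih =>
      intro u hu
      rw [pow_succ', mul_assoc]
      exact gen_mul_mem T a hr hWdef (ih u hu) i
  have hprod : ∀ F : Finset (Fin D), (∏ i ∈ F, (gen true i : PP D) ^ (w i)) ∈ W := by
    intro F
    induction F using Finset.induction_on with
    | empty => simpa using h1
    | insert j F hj ih =>
      rw [Finset.prod_insert hj]
      exact hpow j (w j) _ ih
  have := hprod Finset.univ
  have e : monoT (fun i => (w i : ℤ)) = ∏ i, (gen true i : PP D) ^ (w i) := by
    simp [monoT]
  rw [e]
  exact this v

include hr hb in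
/-- The trick of Baumslag: all conjugates commute. -/
theorem box (u v : PP D) : Commute (cj T a u) (cj T a v) := by
  have key : ∀ u : PP D, Commute a (cj T a u) := by
    intro u
    obtain ⟨v, w, rfl⟩ := exists_mono u
    -- shift by the negative part of `w`
    let wn : Fin D → ℕ := fun i => (w i).natAbs
    have hsum : ∀ i, ∃ m : ℕ, w i + (wn i : ℤ) = m := by
      intro i
      refine ⟨(w i + (wn i : ℤ)).toNat, ?_⟩
      rw [Int.toNat_of_nonneg]
      have : -w i ≤ ((w i).natAbs : ℤ) := by
        rw [Int.natCast_natAbs]; exact neg_le_abs _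
      change 0 ≤ w i + ((w i).natAbs : ℤ)
      omega
    choose m hm using hsum
    have h1 : cj T a (monoT (fun i => (wn i : ℤ))) ∈ monoSub T a := by
      have := monoT_mem T a hr wn 0
      have e : mono (0 : Fin D → ℤ) = 1 := by simp [mono]
      rwa [e, one_mul] at this
    have h2 : cj T a (mono v * monoT (fun i => (m i : ℤ))) ∈ monoSub T a := monoT_mem T a hr m v
    have h3 := monoSub_comm T a hr hb h1 h2
    have e : mono v * monoT (fun i => (m i : ℤ))
        = monoT (fun i => (wn i : ℤ)) * (mono v * monoT w) := by
      have : (fun i => (m i : ℤ)) = w + (fun i => (wn i : ℤ)) := by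
        funext i; rw [← hm i]; rfl
      rw [this, monoT_add]
      rw [mul_comm (monoT w), mul_left_comm]
    rw [e, comm_iff_one, inv_mul_cancel_left] at h3
    exact h3
  rw [comm_iff_one]
  exact key _

include hr hb in
/-- The additive homomorphism attached to the conjugates. -/
theorem exists_hom_cj : ∃ E : Multiplicative (RR D) →* G,
    ∀ u, E (Multiplicative.ofAdd (cf (upsR D) u)) = cj T a u :=
  exists_hom (cj T a) (box T a hr hb) (fun i u => cj_rel T a hr i u)

end box

end Pool.Agent.LibLPres
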