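import Pool.Agent.LibLPres.Sigma

set_option autoImplicit false
set_option linter.unusedSectionVars false

namespace Pool.Agent.LibLPres

section

variable (k : Type) [Field k] [CharP k 3] (D e : ℕ)

/-- The finite ring of the counting argument. -/
abbrev AE : Type := AddMonoidAlgebra k (Fin D → ZMod (3 ^ e))

theorem charP_AE : CharP (AE k D e) 3 :=
  charP_of_injective_algebraMap (algebraMap k (AE k D e)).injective 3

/-- the augmentation -/
noncomputable def augm : AE k D e →ₐ[k] k := AddMonoidAlgebra.lift k k (Fin D → ZMod (3 ^ e)) 1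

theorem augm_single (g : Fin D → ZMod (3 ^ e)) (r : k) :
    augm k D e (AddMonoidAlgebra.single g r) = r := by
  rw [augm, AddMonoidAlgebra.lift_single, MonoidHom.one_apply, smul_eq_mul, mul_one]

theorem nsmul_G (g : Fin D → ZMod (3 ^ e)) : (3 ^ e) • g = 0 := by
  funext i
  rw [Pi.smul_apply, nsmul_eq_mul, ZMod.natCast_self, zero_mul]; rfl

theorem pow_AE (a : AE k D e) : a ^ (3 ^ e) = algebraMap k (AE k D e) ((augm k D e a) ^ (3 ^ e)) := by
  have h3 : Fact (Nat.Prime 3) := ⟨Nat.prime_three⟩
  have hc := charP_AE k D e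
  induction a using AddMonoidAlgebra.induction_linear with
  | zero => 
    have : (0 : k) ^ 3 ^ e = 0 := zero_pow (by positivity)
    rw [map_zero, this, map_zero]
    exact zero_pow (by positivity)
  | add x y hx hy => rw [add_pow_char_pow, map_add, add_pow_char_pow, map_add, hx, hy]
  | single g r =>
    rw [AddMonoidAlgebra.single_pow, augm_single, nsmul_G]
    rfl

theorem isUnit_AE {a : AE k D e} (h : augm k D e a ≠ 0) : IsUnit a := by
  have h1 : IsUnit (a ^ (3 ^ e)) := by
    rw [pow_AE]
    exact (isUnit_iff_ne_zero.mpr (pow_ne_zero _ h)).map _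
  exact (isUnit_pow_iff (by positivity)).mp h1

/-- the images of the variables -/
noncomputable def pAE (c : Fin D → k) (i : Fin D) : AE k D e :=
  AddMonoidAlgebra.single (Pi.single i 1) (c i)

variable {c : Fin D → k} (hc : ∀ i, IsUnit (c i)) (hc1 : ∀ i, IsUnit (c i + 1))

/-- the reduction homomorphism -/
noncomputable def thE : RR D →+* AE k D e :=
  evR (pAE k D e c) (fun i => isUnit_AE k D e (by
    rw [pAE, augm_single]; exact (hc i).ne_zero)) (fun i => isUnit_AE k D e (by
    rw [map_add, map_one, pAE, augm_single]; exact (hc1 i).ne_zero))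

theorem thE_xR (i : Fin D) : thE k D e hc hc1 (xR i)
    = AddMonoidAlgebra.single (Pi.single i 1) (c i) := by
  rw [thE, evR_xR]; rfl

theorem augm_thE (r : RR D) : augm k D e (thE k D e hc hc1 r) = evR c hc hc1 r := by
  have h : ((augm k D e : AE k D e →ₐ[k] k) : AE k D e →+* k).comp (thE k D e hc hc1)
      = evR c hc hc1 := by
    apply RR_hom_ext
    intro i
    change augm k D e (thE k D e hc hc1 (xR i)) = _
    rw [thE_xR, augm_single, evR_xR]
  exact DFunLike.congr_fun h r

theorem thE_three : thE k D e hc hc1 3 = 0 := by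
  rw [map_ofNat]
  have := charP_AE k D e
  exact_mod_cast CharP.cast_eq_zero (AE k D e) 3

/-- the monomials -/
noncomputable def mon (g : Fin D → ZMod (3 ^ e)) : RR D := ∏ i, xR i ^ (g i).val

theorem thE_mon (g : Fin D → ZMod (3 ^ e)) : thE k D e hc hc1 (mon D e g)
    = AddMonoidAlgebra.single g (∏ i, c i ^ (g i).val) := by
  rw [mon, map_prod]
  have h1 : ∀ i, thE k D e hc hc1 (xR i ^ (g i).val)
      = AddMonoidAlgebra.single (Pi.single i (g i)) (c i ^ (g i).val) := by
    intro i
    rw [map_pow, thE_xR, AddMonoidAlgebra.single_pow]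
    congr 1
    rw [← Pi.single_smul]
    congr 1
    rw [nsmul_eq_mul, mul_one, ZMod.natCast_zmod_val]
  rw [Finset.prod_congr rfl (fun i _ => h1 i), AddMonoidAlgebra.prod_single]
  congr 1
  exact Finset.univ_sum_single g

/-- Counting elements. -/
theorem count_lower (ρ : RR D) (hρ : evR c hc hc1 ρ ≠ 0) (B : Set (AE k D e)) (hB : B.Finite)
    (h : ∀ v : RR D, thE k D e hc hc1 (v * ρ) ∈ B) : 2 ^ ((3 ^ e) ^ D) ≤ B.ncard := by
  classical
  have hu : IsUnit (thE k D e hc hc1 ρ) := isUnit_AE k D e (by rw [augm_thE]; exact hρ)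
  let F : Finset (Fin D → ZMod (3 ^ e)) → B := fun S =>
    ⟨thE k D e hc hc1 ((∑ g ∈ S, mon D e g) * ρ), h _⟩
  have hF : Function.Injective F := by
    intro S T hST
    have h1 : thE k D e hc hc1 ((∑ g ∈ S, mon D e g) * ρ)
        = thE k D e hc hc1 ((∑ g ∈ T, mon D e g) * ρ) := congrArg Subtype.val hST
    rw [map_mul, map_mul] at h1
    have h2 := hu.mul_left_injective h1
    rw [map_sum, map_sum] at h2
    have key : ∀ (S : Finset (Fin D → ZMod (3 ^ e))) (g : Fin D → ZMod (3 ^ e)),
        (∑ x ∈ S, thE k D e hc hc1 (mon D e x)).coeff g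
          = if g ∈ S then ∏ i, c i ^ (g i).val else 0 := by
      intro S g
      rw [AddMonoidAlgebra.coeff_sum, Finset.sum_apply']
      rw [Finset.sum_congr rfl (fun x _ => by rw [thE_mon, AddMonoidAlgebra.coeff_single,
        Finsupp.single_apply])]
      rw [Finset.sum_ite_eq' S g]
    have hne : ∀ g : Fin D → ZMod (3 ^ e), ∏ i, c i ^ (g i).val ≠ 0 := by
      intro g
      rw [Finset.prod_ne_zero_iff]
      intro i _
      exact pow_ne_zero _ (hc i).ne_zero
    ext g
    have h3 := congrArg (fun a : AE k D e => a.coeff g) h2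
    simp only [key] at h3
    by_cases hS : g ∈ S
    · by_cases hT : g ∈ T
      · exact ⟨fun _ => hT, fun _ => hS⟩
      · rw [if_pos hS, if_neg hT] at h3; exact absurd h3 (hne g)
    · by_cases hT : g ∈ T
      · rw [if_neg hS, if_pos hT] at h3; exact absurd h3.symm (hne g)
      · exact ⟨fun h => absurd h hS, fun h => absurd h hT⟩
  have hfin : Finite B := hB
  have hle := Nat.card_le_card_of_injective F hF
  have hcard : Nat.card (Finset (Fin D → ZMod (3 ^ e))) = 2 ^ ((3 ^ e) ^ D) := by
    rw [Nat.card_eq_fintype_card, Fintype.card_finset, Fintype.card_fun, ZMod.card, Fintype.card_fin]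
  rw [hcard] at hle
  exact hle

end

/-- The size of a finitely generated elementary abelian group. -/
theorem card_closure_le {B : Type} [AddCommGroup B] (h3 : ∀ x : B, 3 • x = 0) (T : Finset B) :
    (AddSubgroup.closure (T : Set B) : Set B).Finite ∧
      (AddSubgroup.closure (T : Set B) : Set B).ncard ≤ 3 ^ T.card := by
  classical
  have h : Fact (Nat.Prime 3) := ⟨Nat.prime_three⟩
  let _ : Module (ZMod 3) B := AddCommGroup.zmodModule h3
  set V := Submodule.span (ZMod 3) (T : Set B) with hV
  have hfd : Module.Finite (ZMod 3) V := FiniteDimensional.span_finset (ZMod 3) T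
  have hfin : Finite V := Module.finite_of_finite (ZMod 3)
  have hle : AddSubgroup.closure (T : Set B) ≤ V.toAddSubgroup := by
    rw [AddSubgroup.closure_le]
    exact Submodule.subset_span
  have hsub : (AddSubgroup.closure (T : Set B) : Set B) ⊆ (V : Set B) := hle
  have hVf : (V : Set B).Finite := hfin
  refine ⟨hVf.subset hsub, ?_⟩
  calc (AddSubgroup.closure (T : Set B) : Set B).ncard ≤ (V : Set B).ncard :=
        Set.ncard_le_ncard hsub hVf
    _ = Nat.card V := rfl
    _ = Nat.card (ZMod 3) ^ Module.finrank (ZMod 3) V := Module.natCard_eq_pow_finrank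
    _ ≤ 3 ^ T.card := by
        rw [Nat.card_zmod]
        exact Nat.pow_le_pow_right (by norm_num) (finrank_span_finset_le_card T)

open MvPolynomial in
/-- A good point over a finite field. -/
theorem exists_point {D : ℕ} (i0 : Fin D) (ρ : RR D) (hρ : ¬ 3 ∣ ρ) :
    ∃ (k : Type) (_ : Field k) (_ : Finite k) (_ : CharP k 3) (c : Fin D → k)
      (hc : ∀ i, IsUnit (c i)) (hc1 : ∀ i, IsUnit (c i + 1)),
      evR c hc hc1 ((xR i0 - 1) * ρ) ≠ 0 := by
  classical
  have h3 : Fact (Nat.Prime 3) := ⟨Nat.prime_three⟩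
  obtain ⟨n, p, hp⟩ := IsLocalization.Away.surj (fpoly D) ρ
  have hnd : ¬ (C (3 : ℤ) : MvPolynomial (Fin D) ℤ) ∣ p := by
    rintro ⟨p', rfl⟩
    apply hρ
    have hC : algebraMap (MvPolynomial (Fin D) ℤ) (RR D) (C 3) = 3 := by
      rw [map_ofNat, map_ofNat]
    obtain ⟨F, hF⟩ := isUnit_fR D
    refine ⟨algebraMap (MvPolynomial (Fin D) ℤ) (RR D) p' * ((F⁻¹ : (RR D)ˣ) : RR D) ^ n, ?_⟩
    rw [← hF, map_mul, hC] at hp
    have hFF : (F : RR D) ^ n * ((F⁻¹ : (RR D)ˣ) : RR D) ^ n = 1 := by
      rw [← mul_pow, Units.mul_inv, one_pow]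
    calc ρ = ρ * ((F : RR D) ^ n * ((F⁻¹ : (RR D)ˣ) : RR D) ^ n) := by rw [hFF, mul_one]
      _ = (ρ * (F : RR D) ^ n) * ((F⁻¹ : (RR D)ˣ) : RR D) ^ n := by ring
      _ = _ := by rw [hp]; ring
  have hmap : MvPolynomial.map (Int.castRingHom (ZMod 3)) p ≠ 0 := by
    intro h
    exact hnd ((C_dvd_iff_map_hom_eq_zero _ _ (CharP.intCast_eq_zero_iff (ZMod 3) 3) _).mpr h)
  set T : MvPolynomial (Fin D) (ZMod 3) := (MvPolynomial.map (Int.castRingHom (ZMod 3)) p)
    * ((∏ i, (X i * (X i + 1))) * (X i0 - 1)) with hT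
  have hXc : ∀ (i : Fin D) (a : ZMod 3), (X i + C a : MvPolynomial (Fin D) (ZMod 3)) ≠ 0 := by
    intro i a h
    have := congrArg (MvPolynomial.eval (fun _ => (1 - a : ZMod 3))) h
    simp at this
  have hT0 : T ≠ 0 := by
    rw [hT]
    refine mul_ne_zero hmap (mul_ne_zero ?_ ?_)
    · rw [Finset.prod_ne_zero_iff]
      intro i _
      refine mul_ne_zero (X_ne_zero i) ?_
      have := hXc i 1
      rwa [C_1] at this
    · have := hXc i0 (-1)
      rw [map_neg, C_1] at this
      rw [sub_eq_add_neg]; exact this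
  set N := T.totalDegree + 1 with hN
  let k := GaloisField 3 N
  have : Fintype k := Fintype.ofFinite k
  have hcard : Fintype.card k = 3 ^ N := by
    rw [← Nat.card_eq_fintype_card]; exact GaloisField.card 3 N (by omega)
  set T' : MvPolynomial (Fin D) k := MvPolynomial.map (algebraMap (ZMod 3) k) T with hT'
  have hT'0 : T' ≠ 0 := by
    intro h
    apply hT0
    apply MvPolynomial.map_injective (algebraMap (ZMod 3) k) (algebraMap (ZMod 3) k).injective
    rw [← hT', h, map_zero]
  have hex : ∃ c : Fin D → k, MvPolynomial.eval c T' ≠ 0 := by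
    by_contra hcon
    push Not at hcon
    apply hT'0
    apply eq_zero_of_eval_zero_at_prod_finset T' (fun _ => Finset.univ)
    · intro i
      rw [Finset.card_univ, hcard]
      calc T'.degreeOf i ≤ T.degreeOf i := by
            rw [degreeOf_def, degreeOf_def]
            exact Multiset.count_le_of_le _ degrees_map_le
        _ ≤ T.totalDegree := degreeOf_le_totalDegree _ _
        _ < 3 ^ N := lt_trans (Nat.lt_succ_self _) (Nat.lt_pow_self (by norm_num))
    · intro x _
      exact hcon x
  obtain ⟨c, hcT⟩ := hex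
  have hev : MvPolynomial.eval c T' = MvPolynomial.eval₂ (Int.castRingHom k) c p
      * ((∏ i, (c i * (c i + 1))) * (c i0 - 1)) := by
    rw [hT', hT, map_mul, map_mul, eval_map, eval₂_map]
    have e1 : (algebraMap (ZMod 3) k).comp (Int.castRingHom (ZMod 3)) = Int.castRingHom k :=
      RingHom.ext_int _ _
    rw [e1]
    simp
  rw [hev] at hcT
  have h1 := left_ne_zero_of_mul hcT
  have h2 := left_ne_zero_of_mul (right_ne_zero_of_mul hcT)
  have h4 := right_ne_zero_of_mul (right_ne_zero_of_mul hcT)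
  rw [Finset.prod_ne_zero_iff] at h2
  have hc : ∀ i, IsUnit (c i) := fun i =>
    isUnit_iff_ne_zero.mpr (left_ne_zero_of_mul (h2 i (Finset.mem_univ i)))
  have hc1 : ∀ i, IsUnit (c i + 1) := fun i =>
    isUnit_iff_ne_zero.mpr (right_ne_zero_of_mul (h2 i (Finset.mem_univ i)))
  refine ⟨k, inferInstance, inferInstance, inferInstance, c, hc, hc1, ?_⟩
  rw [map_mul, map_sub, map_one, evR_xR]
  refine mul_ne_zero h4 ?_
  intro h
  apply h1
  have h5 := congrArg (evR c hc hc1) hp
  rw [map_mul, h, zero_mul, evR_algebraMap] at h5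
  exact h5.symm

end Pool.Agent.LibLPres
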