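import Pool.Agent.LibLPres.KG

set_option autoImplicit false
set_option linter.unusedSectionVars false

namespace Pool.Agent.LibLPres

/-- The triangular group with the extra corner entry `z`. -/
@[ext]
structure HG (A : Type) [CommRing A] where
  r1 : A
  r2 : A
  c1 : A
  c2 : A
  z : A
  e : A
  u : Aˣ
  w : Aˣ

namespace HG

variable {A : Type} [CommRing A]

instance : Mul (HG A) where
  mul g h :=
    { r1 := g.r1 + ↑(g.u⁻¹) * h.r1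
      r2 := g.r2 + ↑(g.w⁻¹) * h.r2 + g.e * ↑(g.u⁻¹) * h.r1
      c1 := g.c1 + ↑g.w * h.c1
      c2 := g.c2 + ↑g.u * h.c2 + g.e * ↑g.w * h.c1
      z := g.z + h.z - ((↑(g.u⁻¹) * h.r1) * g.c2
        - (↑(g.w⁻¹) * h.r2 + g.e * ↑(g.u⁻¹) * h.r1) * g.c1)
      e := g.e + ↑g.u * ↑(g.w⁻¹) * h.e
      u := g.u * h.u
      w := g.w * h.w }

instance : One (HG A) where
  one := { r1 := 0, r2 := 0, c1 := 0, c2 := 0, z := 0, e := 0, u := 1, w := 1 }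

instance : Inv (HG A) where
  inv g :=
    { r1 := -(↑g.u * g.r1)
      r2 := -(↑g.w * g.r2) + (g.e * ↑g.w) * g.r1
      c1 := -(↑(g.w⁻¹) * g.c1)
      c2 := -(↑(g.u⁻¹) * g.c2) + (g.e * ↑(g.u⁻¹)) * g.c1
      z := -g.z - (g.r1 * g.c2 - g.r2 * g.c1)
      e := -(↑(g.u⁻¹) * ↑g.w * g.e)
      u := g.u⁻¹
      w := g.w⁻¹ }

@[simp] theorem mul_r1 (g h : HG A) : (g * h).r1 = g.r1 + ↑(g.u⁻¹) * h.r1 := rfl
@[simp] theorem mul_r2 (g h : HG A) :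
    (g * h).r2 = g.r2 + ↑(g.w⁻¹) * h.r2 + g.e * ↑(g.u⁻¹) * h.r1 := rfl
@[simp] theorem mul_c1 (g h : HG A) : (g * h).c1 = g.c1 + ↑g.w * h.c1 := rfl
@[simp] theorem mul_c2 (g h : HG A) :
    (g * h).c2 = g.c2 + ↑g.u * h.c2 + g.e * ↑g.w * h.c1 := rfl
@[simp] theorem mul_z (g h : HG A) :
    (g * h).z = g.z + h.z - ((↑(g.u⁻¹) * h.r1) * g.c2
        - (↑(g.w⁻¹) * h.r2 + g.e * ↑(g.u⁻¹) * h.r1) * g.c1) := rfl
@[simp] theorem mul_e (g h : HG A) : (g * h).e = g.e + ↑g.u * ↑(g.w⁻¹) * h.e := rfl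
@[simp] theorem mul_u (g h : HG A) : (g * h).u = g.u * h.u := rfl
@[simp] theorem mul_w (g h : HG A) : (g * h).w = g.w * h.w := rfl

@[simp] theorem one_r1 : (1 : HG A).r1 = 0 := rfl
@[simp] theorem one_r2 : (1 : HG A).r2 = 0 := rfl
@[simp] theorem one_c1 : (1 : HG A).c1 = 0 := rfl
@[simp] theorem one_c2 : (1 : HG A).c2 = 0 := rfl
@[simp] theorem one_z : (1 : HG A).z = 0 := rfl
@[simp] theorem one_e : (1 : HG A).e = 0 := rfl
@[simp] theorem one_u : (1 : HG A).u = 1 := rfl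
@[simp] theorem one_w : (1 : HG A).w = 1 := rfl

@[simp] theorem inv_r1 (g : HG A) : (g⁻¹).r1 = -(↑g.u * g.r1) := rfl
@[simp] theorem inv_r2 (g : HG A) : (g⁻¹).r2 = -(↑g.w * g.r2) + (g.e * ↑g.w) * g.r1 := rfl
@[simp] theorem inv_c1 (g : HG A) : (g⁻¹).c1 = -(↑(g.w⁻¹) * g.c1) := rfl
@[simp] theorem inv_c2 (g : HG A) :
    (g⁻¹).c2 = -(↑(g.u⁻¹) * g.c2) + (g.e * ↑(g.u⁻¹)) * g.c1 := rfl
@[simp] theorem inv_z (g : HG A) : (g⁻¹).z = -g.z - (g.r1 * g.c2 - g.r2 * g.c1) := rfl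
@[simp] theorem inv_e (g : HG A) : (g⁻¹).e = -(↑(g.u⁻¹) * ↑g.w * g.e) := rfl
@[simp] theorem inv_u (g : HG A) : (g⁻¹).u = g.u⁻¹ := rfl
@[simp] theorem inv_w (g : HG A) : (g⁻¹).w = g.w⁻¹ := rfl

protected theorem mul_assoc' (a b c : HG A) : a * b * c = a * (b * c) := by
  have hu : (↑(a.u⁻¹) : A) * ↑a.u = 1 := Units.inv_mul a.u
  have hw : (↑(a.w⁻¹) : A) * ↑a.w = 1 := Units.inv_mul a.w
  ext
  · simp only [mul_r1, mul_u, mul_inv_rev, Units.val_mul]; ring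
  · simp only [mul_r1, mul_r2, mul_u, mul_w, mul_e, mul_inv_rev, Units.val_mul]
    linear_combination (↑b.u⁻¹ * ↑a.w⁻¹ * b.e * c.r1) * hu
  · simp only [mul_c1, mul_w, Units.val_mul]; ring
  · simp only [mul_c1, mul_c2, mul_u, mul_w, mul_e, Units.val_mul]
    linear_combination (↑b.w * ↑a.u * b.e * c.c1) * hw
  · simp only [mul_r1, mul_r2, mul_c1, mul_c2, mul_u, mul_w, mul_e, mul_z, mul_inv_rev,
      Units.val_mul]
    linear_combination (-(↑b.u⁻¹ * c.r1 * b.c2) + ↑a.w⁻¹ * ↑a.w * b.e * ↑b.u⁻¹ * c.r1 * b.c1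
      + ↑a.w⁻¹ * b.e * ↑b.u⁻¹ * c.r1 * a.c1) * hu
      + (↑b.w⁻¹ * c.r2 * b.c1 + b.e * ↑b.u⁻¹ * c.r1 * b.c1) * hw
  · simp only [mul_e, mul_u, mul_w, mul_inv_rev, Units.val_mul]; ring
  · simp only [mul_u, mul_assoc]
  · simp only [mul_w, mul_assoc]

protected theorem one_mul' (a : HG A) : 1 * a = a := by
  ext <;> simp

protected theorem inv_mul' (a : HG A) : a⁻¹ * a = 1 := by
  have hu : (↑(a.u⁻¹) : A) * ↑a.u = 1 := Units.inv_mul a.u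
  have hw : (↑(a.w⁻¹) : A) * ↑a.w = 1 := Units.inv_mul a.w
  ext
  · simp
  · simp only [mul_r2, inv_r2, inv_w, inv_u, inv_e, inv_inv, one_r2]
    linear_combination (-(↑a.w * a.e * a.r1)) * hu
  · simp
  · simp only [mul_c2, inv_c2, inv_w, inv_u, inv_e, one_c2]
    linear_combination (-(↑a.u⁻¹ * a.e * a.c1)) * hw
  · simp only [mul_z, inv_z, inv_c1, inv_c2, inv_w, inv_u, inv_e, inv_inv, one_z]
    linear_combination (a.r1 * a.c2) * hu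
      + (-(a.r2 * a.c1) + ↑a.u * ↑a.u⁻¹ * a.e * a.r1 * a.c1) * hw
  · simp only [mul_e, inv_e, inv_u, inv_w, inv_inv, one_e]
    ring
  · simp
  · simp

instance : Group (HG A) :=
  Group.ofLeftAxioms HG.mul_assoc' HG.one_mul' HG.inv_mul'

end HG

end Pool.Agent.LibLPres
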