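import Pool.Agent.LibLPres.Tor
import Pool.Agent.LibLPres.HG

set_option autoImplicit false
set_option linter.unusedSectionVars false

namespace Pool.Agent.LibLPres

/-- eventual periodicity along the iterates of an endomorphism -/
def Per {F X : Type} [Group F] (τ : F →* F) (f : F → X) (n r : ℕ) : Prop :=
  ∀ g, f (τ^[n + r] g) = f (τ^[n] g)

theorem Per.up {F X : Type} [Group F] {τ : F →* F} {f : F → X} {n r : ℕ} (h : Per τ f n r)
    (d k : ℕ) : Per τ f (n + d) (k * r) := by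
  induction k with
  | zero => intro g; rw [zero_mul, add_zero]
  | succ k ih =>
    intro g
    have e : n + d + (k + 1) * r = (n + r) + (d + k * r) := by ring
    rw [e, Function.iterate_add_apply, h, ← Function.iterate_add_apply]
    have e2 : n + (d + k * r) = n + d + k * r := by ring
    rw [e2]
    exact ih g

section alphas

variable {A : Type} [CommRing A]

/-- action on the middle entry -/
def al2 (x : Aˣ × Aˣ) : Module.End A A where
  toFun v := (x.1 : A) * ↑(x.2⁻¹) * v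
  map_add' v w := by ring
  map_smul' c v := by simp only [smul_eq_mul, RingHom.id_apply]; ring

/-- action on the column -/
def al3 (x : A × Aˣ × Aˣ) : Module.End A (A × A) where
  toFun p := ((x.2.2 : A) * p.1, (x.2.1 : A) * p.2 + x.1 * (x.2.2 : A) * p.1)
  map_add' v w := by
    apply Prod.ext
    · simp only [Prod.fst_add]; ring
    · simp only [Prod.snd_add, Prod.fst_add]; ring
  map_smul' c v := by
    apply Prod.ext
    · simp only [Prod.smul_fst, smul_eq_mul, RingHom.id_apply]; ring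
    · simp only [Prod.smul_fst, Prod.smul_snd, smul_eq_mul, RingHom.id_apply]; ring

/-- action on the row with the corner -/
def al4 (x : A × A × A × Aˣ × Aˣ) : Module.End A (A × A × A) where
  toFun p := (↑(x.2.2.2.1⁻¹) * p.1, ↑(x.2.2.2.2⁻¹) * p.2.1 + x.2.2.1 * ↑(x.2.2.2.1⁻¹) * p.1,
    p.2.2 - ((↑(x.2.2.2.1⁻¹) * p.1) * x.2.1
      - (↑(x.2.2.2.2⁻¹) * p.2.1 + x.2.2.1 * ↑(x.2.2.2.1⁻¹) * p.1) * x.1))
  map_add' v w := by
    apply Prod.ext
    · simp only [Prod.fst_add]; ring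
    · apply Prod.ext
      · simp only [Prod.snd_add, Prod.fst_add]; ring
      · simp only [Prod.snd_add, Prod.fst_add]; ring
  map_smul' c v := by
    apply Prod.ext
    · simp only [Prod.smul_fst, smul_eq_mul, RingHom.id_apply]; ring
    · apply Prod.ext
      · simp only [Prod.smul_fst, Prod.smul_snd, smul_eq_mul, RingHom.id_apply]; ring
      · simp only [Prod.smul_fst, Prod.smul_snd, smul_eq_mul, RingHom.id_apply]; ring

theorem al2_one : al2 ((1, 1) : Aˣ × Aˣ) = 1 := by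
  apply LinearMap.ext
  intro v
  change ((1 : Aˣ) : A) * ↑((1 : Aˣ)⁻¹) * v = v
  simp

theorem al3_one : al3 ((0, 1, 1) : A × Aˣ × Aˣ) = 1 := by
  apply LinearMap.ext
  intro p
  change (((1 : Aˣ) : A) * p.1, ((1 : Aˣ) : A) * p.2 + 0 * ((1 : Aˣ) : A) * p.1) = p
  simp

theorem al4_one : al4 ((0, 0, 0, 1, 1) : A × A × A × Aˣ × Aˣ) = 1 := by
  apply LinearMap.ext
  intro p
  change (↑((1 : Aˣ)⁻¹) * p.1, ↑((1 : Aˣ)⁻¹) * p.2.1 + 0 * ↑((1 : Aˣ)⁻¹) * p.1,
    p.2.2 - ((↑((1 : Aˣ)⁻¹) * p.1) * 0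
      - (↑((1 : Aˣ)⁻¹) * p.2.1 + 0 * ↑((1 : Aˣ)⁻¹) * p.1) * 0)) = p
  simp

end alphas

theorem units_pow_eq_one {k A : Type} [Field k] [Finite k] [CommRing A] [Nontrivial A]
    [Algebra k A] {e : ℕ} (hA : ∀ a : A, a ^ (3 ^ e) ∈ Set.range (algebraMap k A)) (c : Aˣ) :
    c ^ (3 ^ e * (Nat.card k - 1)) = 1 := by
  have := Fintype.ofFinite k
  obtain ⟨x, hx⟩ := hA (c : A)
  have hx0 : x ≠ 0 := by
    intro h
    rw [h, map_zero] at hx
    have : IsUnit ((c : A) ^ 3 ^ e) := c.isUnit.pow _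
    rw [← hx] at this
    exact not_isUnit_zero this
  have h1 : x ^ (Nat.card k - 1) = 1 := by
    rw [Nat.card_eq_fintype_card]
    exact FiniteField.pow_card_sub_one_eq_one x hx0
  apply Units.ext
  rw [Units.val_pow_eq_pow_val, pow_mul, ← hx, ← map_pow, h1, map_one, Units.val_one]

/-- The number of iterates is bounded. -/
theorem orbit_bound {m : ℕ} (τ : FreeGroup (Fin m) →* FreeGroup (Fin m)) (q : ℕ) (hq : 1 < q) :
    ∃ C : ℕ, ∀ (k A : Type) (_ : Field k) (_ : Finite k) (_ : CommRing A) (_ : Nontrivial A)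
      (_ : Algebra k A) (_ : CharP A 3), Nat.card k = q → ∀ e : ℕ,
      (∀ a : A, a ^ (3 ^ e) ∈ Set.range (algebraMap k A)) →
      ∀ Λ : FreeGroup (Fin m) →* HG A, ∃ s : ℕ, s ≤ C * (3 ^ e) ^ 4 ∧
        ∀ n, ∃ n' < s, ∀ g, Λ (τ^[n] g) = Λ (τ^[n'] g) := by
  obtain ⟨i, r, hr, htor⟩ := torus_periodic τ (q - 1) (by omega)
  set N := q ^ (3 * m) with hN
  refine ⟨(i + r) * (1 + N + N.factorial) ^ 3, ?_⟩
  intro k A _ _ _ _ _ _ hk e hA Λ
  set P := 3 ^ e with hP
  have hP1 : 1 ≤ P := Nat.one_le_pow _ _ (by norm_num)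
  have heP : e + 1 ≤ P := by
    rw [hP]; exact Nat.lt_pow_self (by norm_num)
  have hunit : ∀ c : Aˣ, c ^ (3 ^ e * (q - 1)) = 1 := by
    intro c; rw [← hk]; exact units_pow_eq_one hA c
  set n0 := i * (e + 1) with hn0
  set r0 := r * 3 ^ e with hr0
  have hu : Per τ (fun g => (Λ g).u) n0 r0 := fun g =>
    htor e Aˣ inferInstance hunit (MonoidHom.mk' (fun g => (Λ g).u) (fun a b => by
      rw [map_mul]; rfl)) g
  have hw : Per τ (fun g => (Λ g).w) n0 r0 := fun g =>
    htor e Aˣ inferInstance hunit (MonoidHom.mk' (fun g => (Λ g).w) (fun a b => by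
      rw [map_mul]; rfl)) g
  set a := P * N with ha
  set b := P * N.factorial with hb
  -- first layer
  have hper : ∀ (V : Type) (_ : AddCommGroup V) (_ : Module A V) (_ : Module.Free A V)
      (_ : Module.Finite A V), Module.finrank A V ≤ 3 →
      ∀ W : Module.End A (Fin m → V), W ^ (a + b) = W ^ a := by
    intro V _ _ _ _ hV W
    apply end_periodic (k := k) e N _ hA W
    rw [hk, Module.finrank_pi_fintype, Finset.sum_const, Finset.card_univ, Fintype.card_fin, hN,
      smul_eq_mul, mul_comm]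
    exact Nat.pow_le_pow_right (by omega) (Nat.mul_le_mul_right _ hV)
  have step : ∀ (V X : Type) (_ : AddCommGroup V) (_ : Module A V) (_ : Module.Free A V)
      (_ : Module.Finite A V), Module.finrank A V ≤ 3 →
      ∀ (lo : FreeGroup (Fin m) → X) (α : X → Module.End A V) (_ : α (lo 1) = 1)
        (z : FreeGroup (Fin m) → V) (_ : ∀ g h, z (g * h) = z g + α (lo g) (z h))
        (n r : ℕ) (_ : Per τ lo n r), Per τ z (n + a * r) (b * r) := by
    intro V X _ _ _ _ hV lo α h1 z hz n r hlo g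
    have := layer τ lo α h1 z hz n r a b hlo (hper V inferInstance inferInstance inferInstance
      inferInstance hV) g
    rw [← this]
    congr 2
    ring
  have l2 : Per τ (fun g => (Λ g).e) (n0 + a * r0) (b * r0) := by
    refine step A (Aˣ × Aˣ) inferInstance inferInstance inferInstance inferInstance
      (by rw [Module.finrank_self]; norm_num) (fun g => ((Λ g).u, (Λ g).w)) al2 ?_ _ ?_ n0 r0 ?_
    · rw [map_one]; exact al2_one
    · intro g h
      rw [map_mul]; rfl
    · intro g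
      exact Prod.ext (hu g) (hw g)
  set n1 := n0 + a * r0 with hn1
  set r1 := b * r0 with hr1
  have hu1 : Per τ (fun g => (Λ g).u) n1 r1 := hu.up _ _
  have hw1 : Per τ (fun g => (Λ g).w) n1 r1 := hw.up _ _
  have l3 : Per τ (fun g => ((Λ g).c1, (Λ g).c2)) (n1 + a * r1) (b * r1) := by
    refine step (A × A) (A × Aˣ × Aˣ) inferInstance inferInstance inferInstance inferInstance
      (by simp) (fun g => ((Λ g).e, (Λ g).u, (Λ g).w)) al3 ?_ _ ?_ n1 r1 ?_
    · rw [map_one]; exact al3_one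
    · intro g h
      rw [map_mul]
      apply Prod.ext
      · rfl
      · change (Λ g).c2 + ↑(Λ g).u * (Λ h).c2 + (Λ g).e * ↑(Λ g).w * (Λ h).c1
          = (Λ g).c2 + (↑(Λ g).u * (Λ h).c2 + (Λ g).e * ↑(Λ g).w * (Λ h).c1)
        rw [add_assoc]
    · intro g
      exact Prod.ext (l2 g) (Prod.ext (hu1 g) (hw1 g))
  set n2 := n1 + a * r1 with hn2
  set r2 := b * r1 with hr2
  have hu2 : Per τ (fun g => (Λ g).u) n2 r2 := hu1.up _ _
  have hw2 : Per τ (fun g => (Λ g).w) n2 r2 := hw1.up _ _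
  have he2 : Per τ (fun g => (Λ g).e) n2 r2 := l2.up _ _
  have l4 : Per τ (fun g => ((Λ g).r1, (Λ g).r2, (Λ g).z)) (n2 + a * r2) (b * r2) := by
    refine step (A × A × A) (A × A × A × Aˣ × Aˣ) inferInstance inferInstance inferInstance
      inferInstance (by simp) (fun g => ((Λ g).c1, (Λ g).c2, (Λ g).e, (Λ g).u, (Λ g).w)) al4
      ?_ _ ?_ n2 r2 ?_
    · rw [map_one]; exact al4_one
    · intro g h
      rw [map_mul]
      apply Prod.ext
      · rfl
      · apply Prod.ext
        · change (Λ g).r2 + ↑((Λ g).w⁻¹) * (Λ h).r2 + (Λ g).e * ↑((Λ g).u⁻¹) * (Λ h).r1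
            = (Λ g).r2 + (↑((Λ g).w⁻¹) * (Λ h).r2 + (Λ g).e * ↑((Λ g).u⁻¹) * (Λ h).r1)
          rw [add_assoc]
        · change (Λ g).z + (Λ h).z - ((↑((Λ g).u⁻¹) * (Λ h).r1) * (Λ g).c2
              - (↑((Λ g).w⁻¹) * (Λ h).r2 + (Λ g).e * ↑((Λ g).u⁻¹) * (Λ h).r1) * (Λ g).c1)
            = (Λ g).z + ((Λ h).z - ((↑((Λ g).u⁻¹) * (Λ h).r1) * (Λ g).c2
              - (↑((Λ g).w⁻¹) * (Λ h).r2 + (Λ g).e * ↑((Λ g).u⁻¹) * (Λ h).r1) * (Λ g).c1))
          rw [add_sub_assoc]
    · intro g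
      have h1 := l3 g
      have h2 := he2 g
      have h3 := hu2 g
      have h4 := hw2 g
      rw [Prod.mk.injEq] at h1
      exact Prod.ext h1.1 (Prod.ext h1.2 (Prod.ext h2 (Prod.ext h3 h4)))
  set n3 := n2 + a * r2 with hn3
  set r3 := b * r2 with hr3
  have hall : Per τ (fun g => Λ g) n3 r3 := by
    intro g
    have h1 := l4 g
    rw [Prod.mk.injEq, Prod.mk.injEq] at h1
    have h2 := (l3.up (a * r2) b) g
    rw [Prod.mk.injEq] at h2
    exact HG.ext h1.1 h1.2.1 h2.1 h2.2 h1.2.2 ((he2.up (a * r2) b) g) ((hu2.up (a * r2) b) g)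
      ((hw2.up (a * r2) b) g)
  have hb0 : 0 < b := Nat.mul_pos (by omega) (Nat.factorial_pos _)
  have hr00 : 0 < r0 := Nat.mul_pos hr (by positivity)
  have hr10 : 0 < r1 := Nat.mul_pos hb0 hr00
  have hr20 : 0 < r2 := Nat.mul_pos hb0 hr10
  have hr30 : 0 < r3 := Nat.mul_pos hb0 hr20
  refine ⟨n3 + r3, ?_, ?_⟩
  · have hab : 1 + a + b ≤ (1 + N + N.factorial) * P := by
      rw [ha, hb]; nlinarith
    have hs : ∀ n r : ℕ, n + a * r + b * r ≤ (1 + N + N.factorial) * P * (n + r) := by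
      intro n r
      calc n + a * r + b * r ≤ (1 + a + b) * (n + r) := by
            have : (1 + a + b) * (n + r) = (n + a * r + b * r) + (r + a * n + b * n) := by ring
            omega
        _ ≤ _ := Nat.mul_le_mul_right _ hab
    have h0 : n0 + r0 ≤ (i + r) * P := by
      rw [hn0, hr0, add_mul]
      exact Nat.add_le_add_right (Nat.mul_le_mul_left _ heP) _
    set K := (1 + N + N.factorial) * P with hK
    calc n3 + r3 ≤ K * (n2 + r2) := hs n2 r2
      _ ≤ K * (K * (n1 + r1)) := Nat.mul_le_mul_left _ (hs n1 r1)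
      _ ≤ K * (K * (K * (n0 + r0))) := Nat.mul_le_mul_left _ (Nat.mul_le_mul_left _ (hs n0 r0))
      _ ≤ K * (K * (K * ((i + r) * P))) :=
          Nat.mul_le_mul_left _ (Nat.mul_le_mul_left _ (Nat.mul_le_mul_left _ h0))
      _ = (i + r) * (1 + N + N.factorial) ^ 3 * P ^ 4 := by rw [hK]; ring
  · intro n
    by_cases h : n < n3 + r3
    · exact ⟨n, h, fun _ => rfl⟩
    · refine ⟨n3 + (n - n3) % r3, Nat.add_lt_add_left (Nat.mod_lt _ hr30) _, ?_⟩
      intro g
      have h1 : n = n3 + (n - n3) % r3 + ((n - n3) / r3) * r3 := by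
        have := Nat.mod_add_div (n - n3) r3
        rw [mul_comm] at this
        omega
      conv_lhs => rw [h1]
      exact (hall.up ((n - n3) % r3) ((n - n3) / r3)) g

end Pool.Agent.LibLPres
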