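import Pool.Agent.LibLPres.Mu
import Pool.Agent.LibLPres.Orbit
import Pool.Agent.LibLPres.Grp

set_option autoImplicit false
set_option linter.unusedSectionVars false

namespace Pool.Agent.LibLPres

theorem numeric (a b C : ℕ) : ∃ e : ℕ, ∀ s : ℕ, s ≤ C * (3 ^ e) ^ 4 →
    3 ^ (a + s * b) < 2 ^ ((3 ^ e) ^ 5) := by
  refine ⟨2 * (a + C * b) + 1, ?_⟩
  intro s hs
  set K := 2 * (a + C * b) with hK
  set P := 3 ^ (K + 1) with hP
  have hPK : K + 1 < P := Nat.lt_pow_self (by norm_num)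
  have hP1 : 1 ≤ P := by omega
  have hP4 : 1 ≤ P ^ 4 := Nat.one_le_pow _ _ hP1
  have h1 : a + s * b ≤ (a + C * b) * P ^ 4 := by
    have h2 : s * b ≤ (C * P ^ 4) * b := Nat.mul_le_mul_right _ hs
    have h3 : a ≤ a * P ^ 4 := Nat.le_mul_of_pos_right a hP4
    calc a + s * b ≤ a * P ^ 4 + (C * P ^ 4) * b := Nat.add_le_add h3 h2
      _ = _ := by ring
  calc 3 ^ (a + s * b) ≤ 4 ^ (a + s * b) := Nat.pow_le_pow_left (by norm_num) _
    _ = 2 ^ (2 * (a + s * b)) := by rw [show (4 : ℕ) = 2 ^ 2 by norm_num, ← pow_mul]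
    _ ≤ 2 ^ (K * P ^ 4) := by
        apply Nat.pow_le_pow_right (by norm_num)
        rw [hK, mul_assoc]
        exact Nat.mul_le_mul_left _ h1
    _ < 2 ^ (P ^ 5) := by
        apply Nat.pow_lt_pow_right (by norm_num)
        rw [pow_succ P 4, mul_comm (P ^ 4)]
        exact Nat.mul_lt_mul_of_pos_right (by omega) hP4

theorem contra {L : Type} [Group L] (J : L →* Hc 5)
    (hJ : Function.Injective J) (hrow : ∀ x y, ∃ l, J l = rowE x y) (i0 : Fin 5)
    (h0 : ∃ l, (J l).e = 0 ∧ (J l).u = gen false i0 ∧ (J l).w = gen false i0)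
    (h1 : ∃ l, (J l).e = 0 ∧ (J l).u = 1 ∧ (J l).w = 1 ∧ ∃ (n : ℕ) (v : RR 5), IsUnit v ∧
        (J l).c1 = 3 ^ n * v)
    {m : ℕ} (f0 : FreeGroup (Fin m) →* L) (hf0 : Function.Surjective f0)
    (R Q : Set (FreeGroup (Fin m))) (hR : R.Finite) (hQ : Q.Finite)
    (τ : FreeGroup (Fin m) →* FreeGroup (Fin m))
    (hS : f0.ker = Subgroup.normalClosure (R ∪ ⋃ n : ℕ, (⇑τ)^[n] '' Q)) : False := by
  classical
  obtain ⟨ρ, hρ, hΛ⟩ := exists_rho i0 J hJ hrow h0 h1 f0 hf0 _ hS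
  obtain ⟨k, _, _, _, c, hc, hc1, hne⟩ := exists_point i0 ρ hρ
  obtain ⟨C, hC⟩ := orbit_bound τ (Nat.card k) Finite.one_lt_card
  obtain ⟨e, he⟩ := numeric hR.toFinset.card hQ.toFinset.card C
  have hchar := charP_AE k 5 e
  obtain ⟨Λ, hz⟩ := hΛ (AE k 5 e) inferInstance (thE k 5 e hc hc1) (thE_three k 5 e hc hc1)
  obtain ⟨s, hs, hper⟩ := hC k (AE k 5 e) inferInstance inferInstance inferInstance inferInstance
    inferInstance hchar rfl e (fun a => ⟨_, (pow_AE k 5 e a).symm⟩) Λ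
  set T : Finset (AE k 5 e) := hR.toFinset.image (fun w => (Λ w).z)
    ∪ (Finset.range s ×ˢ hQ.toFinset).image (fun p => (Λ (τ^[p.1] p.2)).z) with hT
  have hTcard : T.card ≤ hR.toFinset.card + s * hQ.toFinset.card := by
    rw [hT]
    refine le_trans (Finset.card_union_le _ _) ?_
    refine Nat.add_le_add Finset.card_image_le ?_
    refine le_trans Finset.card_image_le ?_
    rw [Finset.card_product, Finset.card_range]
  have hsub : (fun w => (Λ w).z) '' (R ∪ ⋃ n : ℕ, (⇑τ)^[n] '' Q) ⊆ (T : Set (AE k 5 e)) := by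
    rintro _ ⟨w, hw, rfl⟩
    rw [hT, Finset.coe_union]
    rcases hw with hw | hw
    · left
      rw [Finset.coe_image]
      exact ⟨w, by rw [Set.Finite.coe_toFinset]; exact hw, rfl⟩
    · right
      rw [Set.mem_iUnion] at hw
      obtain ⟨n, x, hx, rfl⟩ := hw
      obtain ⟨n', hn', hn⟩ := hper n
      rw [Finset.coe_image]
      refine ⟨(n', x), ?_, ?_⟩
      · rw [Finset.mem_coe, Finset.mem_product, Finset.mem_range, Set.Finite.mem_toFinset]
        exact ⟨hn', hx⟩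
      · change (Λ (τ^[n'] x)).z = (Λ (τ^[n] x)).z
        rw [hn]
  have h3 : ∀ x : AE k 5 e, 3 • x = 0 := by
    intro x
    rw [nsmul_eq_mul, CharP.cast_eq_zero (AE k 5 e) 3, zero_mul]
  obtain ⟨hfin, hcl⟩ := card_closure_le h3 T
  have hlow := count_lower k 5 e hc hc1 ((xR i0 - 1) * ρ) hne _ hfin
    (fun v => AddSubgroup.closure_mono hsub (hz v))
  have h4 := he s hs
  have h5 : 3 ^ T.card ≤ 3 ^ (hR.toFinset.card + s * hQ.toFinset.card) :=
    Nat.pow_le_pow_right (by norm_num) hTcard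
  omega

end Pool.Agent.LibLPres
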