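import Pool.Agent.LibLPres.Kit

set_option autoImplicit false
set_option linter.unusedSectionVars false

namespace Pool.Agent.LibLPres

open Multiplicative

/-- ordered products over a finite set of indices -/
def lp {D : ℕ} {G : Type} [Group G] (s : Finset (Fin D)) (g : Fin D → G) : G :=
  ((List.finRange D).map (fun i => if i ∈ s then g i else 1)).prod

theorem map_lp {D : ℕ} {G G' : Type} [Group G] [Group G'] (f : G →* G') (s : Finset (Fin D))
    (g : Fin D → G) : f (lp s g) = lp s (fun i => f (g i)) := by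
  rw [lp, lp, map_list_prod, List.map_map]
  congr 1
  apply List.map_congr_left
  intro i _
  simp only [Function.comp_apply]
  split <;> simp

theorem lp_torus {D : ℕ} {G : Type} [Group G] (T : PP D →* G) (s : Finset (Fin D)) (b : Bool) :
    lp s (fun i => T (gen b i)) = T (∏ i ∈ s, gen b i) := by
  classical
  have h : (∏ i ∈ s, gen b i : PP D) = lp s (fun i => gen b i) := by
    rw [lp, ← Fin.prod_univ_def, Finset.prod_ite_mem, Finset.univ_inter]
  rw [h, map_lp]

/-- The defining relations. -/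
structure Rels (D : ℕ) {G : Type} [Group G] (a b c t : G) (p q : Bool × Fin D → G) : Prop where
  pp : ∀ i j, Commute (p i) (p j)
  qq : ∀ i j, Commute (q i) (q j)
  pq : ∀ i j, Commute (p i) (q j)
  a3 : a ^ 3 = 1
  ra : ∀ i, a * ((p (false, i))⁻¹ * a * p (false, i)) * ((p (true, i))⁻¹ * a * p (true, i)) = 1
  ba : ∀ s : Finset (Fin D), Commute a ((lp s (fun i => p (false, i)))⁻¹ * a *
    lp s (fun i => p (false, i)))
  aq : ∀ i, Commute a (q i)
  rb : ∀ i, b * (p (false, i) * b * (p (false, i))⁻¹) * (p (true, i) * b * (p (true, i))⁻¹) = 1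
  bb : ∀ s : Finset (Fin D), Commute b (lp s (fun i => p (false, i)) * b *
    (lp s (fun i => p (false, i)))⁻¹)
  bpq : ∀ i, Commute b (p i * q i)
  rc : ∀ i, c * (q (false, i) * c * (q (false, i))⁻¹) * (q (true, i) * c * (q (true, i))⁻¹) = 1
  bc : ∀ s : Finset (Fin D), Commute c (lp s (fun i => q (false, i)) * c *
    (lp s (fun i => q (false, i)))⁻¹)
  cp : ∀ i, Commute c (p i)
  ac : Commute a c
  za : Commute (b * a * b⁻¹ * a⁻¹) a
  zb : Commute (b * a * b⁻¹ * a⁻¹) b
  zp : ∀ i, Commute (b * a * b⁻¹ * a⁻¹) (p i)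
  yc : Commute (b * c * b⁻¹ * c⁻¹) c
  yb : Commute (b * c * b⁻¹ * c⁻¹) b
  yq : ∀ i, Commute (b * c * b⁻¹ * c⁻¹) (q i)
  zy : Commute (b * a * b⁻¹ * a⁻¹) (b * c * b⁻¹ * c⁻¹)
  ta : t * a * t⁻¹ = a
  tb : t * b * t⁻¹ = b
  tc : t * c * t⁻¹ = c ^ 3
  tp0 : ∀ i, t * p (false, i) * t⁻¹ = p (true, i) * (p (false, i))⁻¹
  tp1 : ∀ i, t * p (true, i) * t⁻¹ = (p (false, i))⁻¹
  tq0 : ∀ i, t * q (false, i) * t⁻¹ = q (true, i) * (q (false, i))⁻¹
  tq1 : ∀ i, t * q (true, i) * t⁻¹ = (q (false, i))⁻¹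

/-- the inverse torus homomorphism -/
noncomputable def invHom {D : ℕ} {G : Type} [Group G] (T : PP D →* G) : PP D →* G :=
  T.comp (invMonoidHom)

theorem invHom_apply {D : ℕ} {G : Type} [Group G] (T : PP D →* G) (u : PP D) :
    invHom T u = (T u)⁻¹ := by
  rw [invHom, MonoidHom.comp_apply, invMonoidHom_apply, map_inv]

theorem commute_torus {D : ℕ} {G : Type} [Group G] (T : PP D →* G) {g : G}
    (h : ∀ i : Bool × Fin D, Commute g (T (gen i.1 i.2))) (u : PP D) : Commute g (T u) := by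
  let S : Subgroup (PP D) := 
    { carrier := {u | Commute g (T u)}
      one_mem' := by
        change Commute g (T 1)
        rw [map_one]; exact Commute.one_right _
      mul_mem' := by
        intro x y hx hy
        change Commute g (T (x * y))
        rw [map_mul]; exact Commute.mul_right hx hy
      inv_mem' := by
        intro x hx
        change Commute g (T x⁻¹)
        rw [map_inv]; exact Commute.inv_right hx }
  exact PP_induction S (fun b i => h (b, i)) u

theorem commute_torus2 {D : ℕ} {G : Type} [Group G] (T T' : PP D →* G)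
    (h : ∀ i j : Bool × Fin D, Commute (T (gen i.1 i.2)) (T' (gen j.1 j.2))) (u v : PP D) :
    Commute (T u) (T' v) :=
  commute_torus T' (fun j => (commute_torus T (fun i => (h i j).symm) u).symm) v

section

variable {D : ℕ} {G : Type} [Group G] {a b c t : G} {p q : Bool × Fin D → G}

theorem ofAdd_three_eq {A : Type} [AddCommGroup A] (r : A) :
    (ofAdd r : Multiplicative A) ^ 3 = ofAdd (3 • r) := rfl

/-- factor through the reduction modulo three -/
theorem exists_mod3 (E : Multiplicative (RR D) →* G)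
    (h : ∀ u, E (ofAdd (cf (upsR D) u)) ^ 3 = 1) :
    ∃ E' : Multiplicative (R3 D) →* G,
      ∀ r : RR D, E' (ofAdd (Ideal.Quotient.mk _ r)) = E (ofAdd r) := by
  have hcube : ∀ r : RR D, E (ofAdd (3 * r)) = 1 := by
    intro r
    have hh : E.comp (mulHom (3 : RR D)) = 1 := by
      apply hom_ext_cf
      intro u
      rw [MonoidHom.comp_apply, mulHom_apply, MonoidHom.one_apply]
      have : (3 : RR D) * cf (upsR D) u = (3 : ℕ) • cf (upsR D) u := by simp
      rw [this, ofAdd_nsmul, map_pow]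
      exact h u
    exact DFunLike.congr_fun hh (ofAdd r)
  let M : Multiplicative (RR D) →* Multiplicative (R3 D) := AddMonoidHom.toMultiplicative
    ((Ideal.Quotient.mk (Ideal.span {(3 : RR D)}) : RR D →+* R3 D) : RR D →+ R3 D)
  have hker : M.ker ≤ E.ker := by
    intro x hx
    rw [MonoidHom.mem_ker] at hx ⊢
    have hx' : Ideal.Quotient.mk (Ideal.span {(3 : RR D)}) (toAdd x) = 0 := hx
    rw [Ideal.Quotient.eq_zero_iff_mem, Ideal.mem_span_singleton'] at hx'
    obtain ⟨r, hr⟩ := hx'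
    have : x = ofAdd (3 * r) := by rw [mul_comm, hr]; rfl
    rw [this]; exact hcube r
  have hsurj : Function.Surjective M := by
    intro y
    obtain ⟨r, hr⟩ := Ideal.Quotient.mk_surjective (toAdd y : R3 D)
    exact ⟨ofAdd r, congrArg ofAdd hr⟩
  refine ⟨M.liftOfSurjective hsurj ⟨E, hker⟩, ?_⟩
  intro r
  exact MonoidHom.liftOfRightInverse_comp_apply _ _ _ ⟨E, hker⟩ (ofAdd r)

namespace Rels

/-- the first torus homomorphism -/
noncomputable def T2 (R : Rels D a b c t p q) : PP D →* G := torHom p R.pp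

/-- the second torus homomorphism -/
noncomputable def T3 (R : Rels D a b c t p q) : PP D →* G := torHom q R.qq

theorem T2_gen (R : Rels D a b c t p q) (i : Bool × Fin D) : R.T2 (gen i.1 i.2) = p i :=
  torHom_gen _ _ _ _

theorem T3_gen (R : Rels D a b c t p q) (i : Bool × Fin D) : R.T3 (gen i.1 i.2) = q i :=
  torHom_gen _ _ _ _

theorem t23 (R : Rels D a b c t p q) (u w : PP D) : Commute (R.T2 u) (R.T3 w) := by
  apply commute_torus2
  intro i j
  rw [T2_gen, T3_gen]; exact R.pq i j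

theorem lp2 (R : Rels D a b c t p q) (s : Finset (Fin D)) :
    lp s (fun i => p (false, i)) = R.T2 (∏ i ∈ s, gen false i) := by
  rw [← lp_torus]
  congr 1
  funext i
  exact (R.T2_gen (false, i)).symm

theorem lp3 (R : Rels D a b c t p q) (s : Finset (Fin D)) :
    lp s (fun i => q (false, i)) = R.T3 (∏ i ∈ s, gen false i) := by
  rw [← lp_torus]
  congr 1
  funext i
  exact (R.T3_gen (false, i)).symm

theorem b23 (R : Rels D a b c t p q) (u : PP D) : Commute b (R.T2 u * R.T3 u) := by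
  let T : PP D →* G := MonoidHom.mk' (fun u => R.T2 u * R.T3 u) (by
    intro u v
    change R.T2 (u * v) * R.T3 (u * v) = (R.T2 u * R.T3 u) * (R.T2 v * R.T3 v)
    rw [map_mul, map_mul]
    calc R.T2 u * R.T2 v * (R.T3 u * R.T3 v) = R.T2 u * (R.T2 v * R.T3 u) * R.T3 v := by group
      _ = R.T2 u * (R.T3 u * R.T2 v) * R.T3 v := by rw [(R.t23 v u).eq]
      _ = _ := by group)
  refine commute_torus T (g := b) ?_ u
  intro i
  change Commute b (R.T2 _ * R.T3 _)
  rw [T2_gen, T3_gen]; exact R.bpq i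

theorem halfRow (R : Rels D a b c t p q) : Half (invHom R.T2) (invHom R.T3) a b where
  comm u v := by
    rw [invHom_apply, invHom_apply]; exact (R.t23 u v).inv_inv
  aT u := by
    rw [invHom_apply]
    exact (commute_torus R.T3 (fun i => by rw [T3_gen]; exact R.aq i) u).inv_right
  bT u := by
    rw [invHom_apply, invHom_apply, ← mul_inv_rev, ← (R.t23 u u).eq]
    exact (R.b23 u).inv_right
  za := R.za
  zb := R.zb
  zT u := by
    rw [invHom_apply]
    exact (commute_torus R.T2 (fun i => by rw [T2_gen]; exact R.zp i) u).inv_right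
  ra i := by
    rw [cj, cj, invHom_apply, invHom_apply, inv_inv, inv_inv]
    have h1 := R.T2_gen (false, i)
    have h2 := R.T2_gen (true, i)
    simp only at h1 h2
    rw [h1, h2]
    exact R.ra i
  ba s := by
    rw [cj, invHom_apply, inv_inv, ← R.lp2]
    exact R.ba s
  rb i := by
    rw [cj, cj, invHom_apply, invHom_apply, inv_inv, inv_inv]
    have h1 := R.T2_gen (false, i)
    have h2 := R.T2_gen (true, i)
    simp only at h1 h2
    have h3 : ∀ u, (R.T3 u)⁻¹ * b * R.T3 u = R.T2 u * b * (R.T2 u)⁻¹ := by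
      intro u
      have h4 := (R.b23 u).eq
      have h5 := (R.t23 u u).eq
      calc (R.T3 u)⁻¹ * b * R.T3 u = (R.T3 u)⁻¹ * (b * (R.T3 u * R.T2 u)) * (R.T2 u)⁻¹ := by group
        _ = (R.T3 u)⁻¹ * (b * (R.T2 u * R.T3 u)) * (R.T2 u)⁻¹ := by rw [h5]
        _ = (R.T3 u)⁻¹ * ((R.T2 u * R.T3 u) * b) * (R.T2 u)⁻¹ := by rw [h4]
        _ = (R.T3 u)⁻¹ * ((R.T3 u * R.T2 u) * b) * (R.T2 u)⁻¹ := by rw [h5]
        _ = _ := by group
    rw [h3, h3, h1, h2]
    exact R.rb i
  bb s := by
    rw [cj, invHom_apply, inv_inv]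
    have h3 : ∀ u, (R.T3 u)⁻¹ * b * R.T3 u = R.T2 u * b * (R.T2 u)⁻¹ := by
      intro u
      have h4 := (R.b23 u).eq
      have h5 := (R.t23 u u).eq
      calc (R.T3 u)⁻¹ * b * R.T3 u = (R.T3 u)⁻¹ * (b * (R.T3 u * R.T2 u)) * (R.T2 u)⁻¹ := by group
        _ = (R.T3 u)⁻¹ * (b * (R.T2 u * R.T3 u)) * (R.T2 u)⁻¹ := by rw [h5]
        _ = (R.T3 u)⁻¹ * ((R.T2 u * R.T3 u) * b) * (R.T2 u)⁻¹ := by rw [h4]
        _ = (R.T3 u)⁻¹ * ((R.T3 u * R.T2 u) * b) * (R.T2 u)⁻¹ := by rw [h5]
        _ = _ := by group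
    rw [h3, ← R.lp2]
    exact R.bb s

theorem cj_b (R : Rels D a b c t p q) (u : PP D) : cj (invHom R.T3) b u = cj R.T2 b u := by
  rw [cj, cj, invHom_apply, inv_inv]
  have h4 := (R.b23 u).eq
  have h5 := (R.t23 u u).eq
  calc (R.T3 u)⁻¹ * b * R.T3 u = (R.T3 u)⁻¹ * (b * (R.T3 u * R.T2 u)) * (R.T2 u)⁻¹ := by group
    _ = (R.T3 u)⁻¹ * (b * (R.T2 u * R.T3 u)) * (R.T2 u)⁻¹ := by rw [h5]
    _ = (R.T3 u)⁻¹ * ((R.T2 u * R.T3 u) * b) * (R.T2 u)⁻¹ := by rw [h4]
    _ = (R.T3 u)⁻¹ * ((R.T3 u * R.T2 u) * b) * (R.T2 u)⁻¹ := by rw [h5]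
    _ = _ := by group

theorem halfCol (R : Rels D a b c t p q) : Half R.T3 R.T2 c b where
  comm u v := (R.t23 v u).symm
  aT u := commute_torus R.T2 (fun i => by rw [T2_gen]; exact R.cp i) u
  bT u := by
    rw [← (R.t23 u u).eq]
    exact R.b23 u
  za := R.yc
  zb := R.yb
  zT u := commute_torus R.T3 (fun i => by rw [T3_gen]; exact R.yq i) u
  ra i := by
    rw [cj, cj]
    have h1 := R.T3_gen (false, i)
    have h2 := R.T3_gen (true, i)
    simp only at h1 h2
    rw [h1, h2]
    exact R.rc i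
  ba s := by
    rw [cj, ← R.lp3]
    exact R.bc s
  rb i := by
    rw [cj, cj]
    have h1 := R.T2_gen (false, i)
    have h2 := R.T2_gen (true, i)
    simp only at h1 h2
    rw [h1, h2]
    exact R.rb i
  bb s := by
    rw [cj, ← R.lp2]
    exact R.bb s

end Rels

end

end Pool.Agent.LibLPres
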