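import Pool.Agent.LibLPres.Ring

set_option autoImplicit false
set_option linter.unusedSectionVars false

namespace Pool.Agent.LibLPres

open MvPolynomial

/-- additive induction on the ring -/
theorem RR_induction {D : ℕ} (S : AddSubgroup (RR D)) (h : ∀ u, cf (upsR D) u ∈ S) (r : RR D) :
    r ∈ S := by
  obtain ⟨z, rfl⟩ := phiF_surjective D r
  induction z using FreeAbelianGroup.induction_on with
  | zero => rw [map_zero]; exact S.zero_mem
  | of u => rw [phiF_of]; exact h u
  | neg u hu => rw [map_neg]; exact S.neg_mem hu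
  | add x y hx hy => rw [map_add]; exact S.add_mem hx hy

/-- Evaluation of the ring at a point. -/
noncomputable def evR {D : ℕ} {A : Type} [CommRing A] (p : Fin D → A)
    (hp : ∀ i, IsUnit (p i)) (hp1 : ∀ i, IsUnit (p i + 1)) : RR D →+* A :=
  IsLocalization.Away.lift (fpoly D)
    (g := MvPolynomial.eval₂Hom (Int.castRingHom A) p) (by
    rw [fpoly, map_prod]
    refine Finset.prod_induction _ IsUnit (fun _ _ => IsUnit.mul) isUnit_one ?_
    intro i _
    rw [map_mul, map_add, map_one, MvPolynomial.eval₂Hom_X']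
    exact (hp i).mul (hp1 i))

theorem evR_algebraMap {D : ℕ} {A : Type} [CommRing A] (p : Fin D → A)
    (hp : ∀ i, IsUnit (p i)) (hp1 : ∀ i, IsUnit (p i + 1)) (q : MvPolynomial (Fin D) ℤ) :
    evR p hp hp1 (algebraMap _ _ q) = MvPolynomial.eval₂Hom (Int.castRingHom A) p q := by
  rw [evR, IsLocalization.Away.lift_eq]

theorem evR_xR {D : ℕ} {A : Type} [CommRing A] (p : Fin D → A)
    (hp : ∀ i, IsUnit (p i)) (hp1 : ∀ i, IsUnit (p i + 1)) (i : Fin D) :
    evR p hp hp1 (xR i) = p i := by
  rw [xR, evR_algebraMap, MvPolynomial.eval₂Hom_X']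

theorem evR_yR {D : ℕ} {A : Type} [CommRing A] (p : Fin D → A)
    (hp : ∀ i, IsUnit (p i)) (hp1 : ∀ i, IsUnit (p i + 1)) (i : Fin D) :
    evR p hp hp1 (yR i) = -1 - p i := by
  rw [yR, map_sub, map_neg, map_one, evR_xR]

theorem RR_hom_ext {D : ℕ} {A : Type} [CommRing A] {f g : RR D →+* A}
    (h : ∀ i, f (xR i) = g (xR i)) : f = g := by
  apply IsLocalization.ringHom_ext (Submonoid.powers (fpoly D))
  apply MvPolynomial.ringHom_ext
  · intro r
    have h1 : (algebraMap (MvPolynomial (Fin D) ℤ) (RR D)) (C r) = ((r : ℤ) : RR D) := by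
      rw [← MvPolynomial.algebraMap_eq]; simp
    rw [RingHom.comp_apply, RingHom.comp_apply, h1, map_intCast, map_intCast]
  · intro i
    exact h i

/-- inverse of the variable -/
noncomputable def xRi {D : ℕ} (i : Fin D) : RR D := cf (upsR D) (gen false i)⁻¹

/-- inverse of the second unit -/
noncomputable def yRi {D : ℕ} (i : Fin D) : RR D := cf (upsR D) (gen true i)⁻¹

theorem xR_mul_xRi {D : ℕ} (i : Fin D) : xR i * xRi i = 1 := by
  have := cf_mul_inv (upsR D) (gen false i)
  rwa [cf_gen_false] at this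

theorem yR_mul_yRi {D : ℕ} (i : Fin D) : yR i * yRi i = 1 := by
  have := cf_mul_inv (upsR D) (gen true i)
  rwa [cf_gen_true] at this

theorem one_add_xR {D : ℕ} (i : Fin D) : xR i + 1 = - yR i := by rw [yR]; ring

/-- the ring automorphism of order three -/
noncomputable def sigR (D : ℕ) : RR D →+* RR D :=
  evR (fun i => yR i * xRi i)
    (fun i => (isUnit_yR i).mul (isUnit_cf _ _))
    (fun i => by
      have h : yR i * xRi i + 1 = - (xRi i) := by
        have := xR_mul_xRi i
        rw [yR]; linear_combination -this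
      rw [h]
      exact (isUnit_cf _ _).neg)

theorem sigR_xR {D : ℕ} (i : Fin D) : sigR D (xR i) = yR i * xRi i := by
  rw [sigR, evR_xR]

theorem sigR_yR {D : ℕ} (i : Fin D) : sigR D (yR i) = xRi i := by
  rw [sigR, evR_yR]
  have := xR_mul_xRi i
  rw [yR]; linear_combination this

/-- the torus automorphism -/
def sigP (D : ℕ) : PP D →* PP D where
  toFun v := fun j => bif j.1 then v (false, j.2) else (v (false, j.2))⁻¹ * (v (true, j.2))⁻¹
  map_one' := by
    funext ⟨b, i⟩; cases b <;> simp
  map_mul' v w := by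
    funext ⟨b, i⟩; cases b
    · simp only [cond_false, Pi.mul_apply, mul_inv_rev]
      rw [mul_comm (w (false, i))⁻¹, mul_comm (w (true, i))⁻¹]
      exact mul_mul_mul_comm _ _ _ _
    · simp

theorem sigP_apply_false {D : ℕ} (v : PP D) (i : Fin D) :
    sigP D v (false, i) = (v (false, i))⁻¹ * (v (true, i))⁻¹ := rfl

theorem sigP_apply_true {D : ℕ} (v : PP D) (i : Fin D) :
    sigP D v (true, i) = v (false, i) := rfl

theorem sigP_cube {D : ℕ} (v : PP D) : sigP D (sigP D (sigP D v)) = v := by
  funext ⟨b, i⟩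
  cases b
  · simp only [sigP_apply_false, sigP_apply_true]
    simp
  · simp only [sigP_apply_false, sigP_apply_true]
    simp

theorem sigP_injective (D : ℕ) : Function.Injective (sigP D) := by
  intro u v h
  rw [← sigP_cube u, ← sigP_cube v, h]

theorem sigP_surjective (D : ℕ) : Function.Surjective (sigP D) :=
  fun v => ⟨_, sigP_cube v⟩

theorem sigP_gen_false {D : ℕ} (i : Fin D) :
    sigP D (gen false i) = gen true i * (gen false i)⁻¹ := by
  funext ⟨b, j⟩
  by_cases h : j = i
  · subst h
    cases b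
    · simp [sigP_apply_false, gen]
    · simp [sigP_apply_true, gen]
  · cases b
    · simp [sigP_apply_false, gen, h]
    · simp [sigP_apply_true, gen, h]

theorem sigP_gen_true {D : ℕ} (i : Fin D) :
    sigP D (gen true i) = (gen false i)⁻¹ := by
  funext ⟨b, j⟩
  by_cases h : j = i
  · subst h
    cases b
    · simp [sigP_apply_false, gen]
    · simp [sigP_apply_true, gen]
  · cases b
    · simp [sigP_apply_false, gen, h]
    · simp [sigP_apply_true, gen, h]

theorem sigR_cf {D : ℕ} (u : PP D) : sigR D (cf (upsR D) u) = cf (upsR D) (sigP D u) := by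
  have h : ((Units.map (sigR D : RR D →* RR D)).comp (upsR D)) = (upsR D).comp (sigP D) := by
    apply torHom_ext
    intro b i
    ext
    cases b
    · change sigR D (cf (upsR D) (gen false i)) = cf (upsR D) (sigP D (gen false i))
      rw [cf_gen_false, sigR_xR, sigP_gen_false, cf_mul, cf_gen_true]; rfl
    · change sigR D (cf (upsR D) (gen true i)) = cf (upsR D) (sigP D (gen true i))
      rw [cf_gen_true, sigR_yR, sigP_gen_true]; rfl
  exact congrArg Units.val (DFunLike.congr_fun h u)

theorem sigR_cube {D : ℕ} (r : RR D) : sigR D (sigR D (sigR D r)) = r := by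
  have h : (sigR D).comp ((sigR D).comp (sigR D)) = RingHom.id (RR D) := by
    apply RR_hom_ext
    intro i
    change sigR D (sigR D (sigR D (xR i))) = xR i
    rw [← cf_gen_false, sigR_cf, sigR_cf, sigR_cf, sigP_cube]
  exact DFunLike.congr_fun h r

theorem sigR_injective (D : ℕ) : Function.Injective (sigR D) := by
  intro u v h
  rw [← sigR_cube u, ← sigR_cube v, h]

theorem sigR_surjective (D : ℕ) : Function.Surjective (sigR D) :=
  fun v => ⟨_, sigR_cube v⟩

/-- the reduction modulo three -/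
abbrev R3 (D : ℕ) : Type := RR D ⧸ (Ideal.span {(3 : RR D)})

/-- the automorphism modulo three -/
noncomputable def sig3 (D : ℕ) : R3 D →+* R3 D :=
  Ideal.Quotient.lift _ ((Ideal.Quotient.mk _).comp (sigR D)) (by
    intro a ha
    rw [Ideal.mem_span_singleton'] at ha
    obtain ⟨b, rfl⟩ := ha
    rw [RingHom.comp_apply, map_mul]
    have : sigR D 3 = 3 := map_ofNat _ 3
    rw [this, map_mul]
    have h3 : Ideal.Quotient.mk (Ideal.span {(3 : RR D)}) 3 = 0 := by
      rw [Ideal.Quotient.eq_zero_iff_mem]; exact Ideal.mem_span_singleton_self _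
    rw [h3, mul_zero])

theorem sig3_mk {D : ℕ} (r : RR D) :
    sig3 D (Ideal.Quotient.mk _ r) = Ideal.Quotient.mk _ (sigR D r) := by
  rw [sig3, Ideal.Quotient.lift_mk]; rfl

theorem sig3_cube {D : ℕ} (r : R3 D) : sig3 D (sig3 D (sig3 D r)) = r := by
  obtain ⟨r, rfl⟩ := Ideal.Quotient.mk_surjective r
  rw [sig3_mk, sig3_mk, sig3_mk, sigR_cube]

theorem sig3_injective (D : ℕ) : Function.Injective (sig3 D) := by
  intro u v h
  rw [← sig3_cube u, ← sig3_cube v, h]

theorem sig3_surjective (D : ℕ) : Function.Surjective (sig3 D) :=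
  fun v => ⟨_, sig3_cube v⟩

theorem sig3_smul {D : ℕ} (a : RR D) (r : R3 D) : sig3 D (a • r) = sigR D a • sig3 D r := by
  obtain ⟨r, rfl⟩ := Ideal.Quotient.mk_surjective r
  have h1 : ∀ b s : RR D, b • (Ideal.Quotient.mk (Ideal.span {(3 : RR D)}) s)
      = Ideal.Quotient.mk (Ideal.span {(3 : RR D)}) (b * s) := fun b s => rfl
  rw [h1, sig3_mk, sig3_mk, h1, map_mul]

theorem two_ne_zero_zmod3 : (1 : ZMod 3) + 1 ≠ 0 := by decide

theorem not_isUnit_three {D : ℕ} : ¬ IsUnit (3 : RR D) := by
  intro h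
  have : Fact (Nat.Prime 3) := ⟨Nat.prime_three⟩
  have h2 : (1 : ZMod 3) + 1 ≠ 0 := two_ne_zero_zmod3
  have := h.map (evR (D := D) (A := ZMod 3) (fun _ => 1) (fun _ => isUnit_one)
    (fun _ => isUnit_iff_ne_zero.mpr h2))
  rw [map_ofNat] at this
  exact not_isUnit_zero this

theorem three_ne_zero' {D : ℕ} : (3 : RR D) ≠ 0 := by
  intro h
  have h1 : ∃ p : Fin D → ℚ, (∀ i, IsUnit (p i)) ∧ (∀ i, IsUnit (p i + 1)) :=
    ⟨fun _ => 1, fun _ => isUnit_one, fun _ => isUnit_iff_ne_zero.mpr (by norm_num)⟩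
  obtain ⟨p, hp, hp1⟩ := h1
  have := congrArg (evR p hp hp1) h
  rw [map_ofNat, map_zero] at this
  norm_num at this

end Pool.Agent.LibLPres
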