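import Pool.Agent.LibLPres.Box
import Pool.Agent.LibLPres.Sigma

set_option autoImplicit false
set_option linter.unusedSectionVars false

namespace Pool.Agent.LibLPres

open Multiplicative

variable {D : ℕ} {G : Type} [Group G]

theorem hom_ext_cf {F F' : Multiplicative (RR D) →* G}
    (h : ∀ u, F (ofAdd (cf (upsR D) u)) = F' (ofAdd (cf (upsR D) u))) : F = F' := by
  let S : AddSubgroup (RR D) :=
    { carrier := {r | F (ofAdd r) = F' (ofAdd r)}
      zero_mem' := by
        change F (ofAdd 0) = F' (ofAdd 0)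
        rw [ofAdd_zero, map_one, map_one]
      add_mem' := by
        intro a b ha hb
        change F (ofAdd (a + b)) = F' (ofAdd (a + b))
        rw [ofAdd_add, map_mul, map_mul]
        exact congrArg₂ _ ha hb
      neg_mem' := by
        intro a ha
        change F (ofAdd (-a)) = F' (ofAdd (-a))
        rw [ofAdd_neg, map_inv, map_inv]
        exact congrArg _ ha }
  ext r
  exact RR_induction S h (toAdd r)

theorem commute_cf {F : Multiplicative (RR D) →* G} {g : G}
    (h : ∀ u, Commute g (F (ofAdd (cf (upsR D) u)))) (r : RR D) : Commute g (F (ofAdd r)) := by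
  let S : AddSubgroup (RR D) :=
    { carrier := {r | Commute g (F (ofAdd r))}
      zero_mem' := by
        change Commute g (F (ofAdd 0))
        rw [ofAdd_zero, map_one]; exact Commute.one_right _
      add_mem' := by
        intro a b ha hb
        change Commute g (F (ofAdd (a + b)))
        rw [ofAdd_add, map_mul]
        exact Commute.mul_right ha hb
      neg_mem' := by
        intro a ha
        change Commute g (F (ofAdd (-a)))
        rw [ofAdd_neg, map_inv]
        exact Commute.inv_right ha }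
  exact RR_induction S h r

theorem commute_cf2 {F F' : Multiplicative (RR D) →* G}
    (h : ∀ u v, Commute (F (ofAdd (cf (upsR D) u))) (F' (ofAdd (cf (upsR D) v)))) (r s : RR D) :
    Commute (F (ofAdd r)) (F' (ofAdd s)) :=
  commute_cf (fun v => (commute_cf (fun u => (h u v).symm) r).symm) s

/-- multiplication by a ring element, as a homomorphism of the multiplicative copy -/
def mulHom {R : Type} [CommRing R] (c : R) : Multiplicative R →* Multiplicative R :=
  AddMonoidHom.toMultiplicative (AddMonoidHom.mulLeft c)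

theorem mulHom_apply {R : Type} [CommRing R] (c r : R) :
    mulHom c (ofAdd r) = ofAdd (c * r) := rfl

/-- conjugation by the torus acts by multiplication -/
theorem conj_hom (T : PP D →* G) (a : G) (F : Multiplicative (RR D) →* G)
    (hF : ∀ u, F (ofAdd (cf (upsR D) u)) = cj T a u) (v : PP D) (r : RR D) :
    T v * F (ofAdd r) * (T v)⁻¹ = F (ofAdd (cf (upsR D) v * r)) := by
  have h : (MulAut.conj (T v)).toMonoidHom.comp F = F.comp (mulHom (cf (upsR D) v)) := by
    apply hom_ext_cf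
    intro u
    rw [MonoidHom.comp_apply, MonoidHom.comp_apply, mulHom_apply, ← cf_mul, hF, hF, cj_mul]
    rfl
  exact DFunLike.congr_fun h (ofAdd r)

section half

variable (T1 T2 : PP D →* G) (a b : G)

/-- Data for one half of the construction. -/
structure Half (T1 T2 : PP D →* G) (a b : G) : Prop where
  comm : ∀ u v, Commute (T1 u) (T2 v)
  aT : ∀ u, Commute a (T2 u)
  bT : ∀ u, Commute b (T1 u * T2 u)
  za : Commute (b * a * b⁻¹ * a⁻¹) a
  zb : Commute (b * a * b⁻¹ * a⁻¹) b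
  zT : ∀ u, Commute (b * a * b⁻¹ * a⁻¹) (T1 u)
  ra : ∀ i : Fin D, a * cj T1 a (gen false i) * cj T1 a (gen true i) = 1
  ba : ∀ s : Finset (Fin D), Commute a (cj T1 a (∏ i ∈ s, gen false i))
  rb : ∀ i : Fin D, b * cj T2 b (gen false i) * cj T2 b (gen true i) = 1
  bb : ∀ s : Finset (Fin D), Commute b (cj T2 b (∏ i ∈ s, gen false i))

/-- Output of one half of the construction. -/
structure HalfOut (T1 T2 : PP D →* G) (a b : G) (Ea Eb Ez : Multiplicative (RR D) →* G) : Prop where
  ea : ∀ u, Ea (ofAdd (cf (upsR D) u)) = cj T1 a u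
  eb : ∀ u, Eb (ofAdd (cf (upsR D) u)) = cj T2 b u
  ez : ∀ u, Ez (ofAdd (cf (upsR D) u)) = cj T2 (b * a * b⁻¹ * a⁻¹) u
  zz : ∀ r s, Commute (Ez (ofAdd r)) (Ez (ofAdd s))
  za : ∀ r s, Commute (Ez (ofAdd r)) (Ea (ofAdd s))
  zb : ∀ r s, Commute (Ez (ofAdd r)) (Eb (ofAdd s))
  aa : ∀ r s, Commute (Ea (ofAdd r)) (Ea (ofAdd s))
  bb : ∀ r s, Commute (Eb (ofAdd r)) (Eb (ofAdd s))
  ab : ∀ s r, Eb (ofAdd s) * Ea (ofAdd r) * (Eb (ofAdd s))⁻¹ = Ez (ofAdd (s * r)) * Ea (ofAdd r)
  t1a : ∀ v r, T1 v * Ea (ofAdd r) * (T1 v)⁻¹ = Ea (ofAdd (cf (upsR D) v * r))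
  t2a : ∀ v r, T2 v * Ea (ofAdd r) * (T2 v)⁻¹ = Ea (ofAdd r)
  t1z : ∀ v r, T1 v * Ez (ofAdd r) * (T1 v)⁻¹ = Ez (ofAdd r)
  t2z : ∀ v r, T2 v * Ez (ofAdd r) * (T2 v)⁻¹ = Ez (ofAdd (cf (upsR D) v * r))
  t1b : ∀ v r, T1 v * Eb (ofAdd r) * (T1 v)⁻¹ = Eb (ofAdd (cf (upsR D) v⁻¹ * r))
  t2b : ∀ v r, T2 v * Eb (ofAdd r) * (T2 v)⁻¹ = Eb (ofAdd (cf (upsR D) v * r))

theorem half_out (h : Half T1 T2 a b) (Ea Eb : Multiplicative (RR D) →* G)
    (hea : ∀ u, Ea (ofAdd (cf (upsR D) u)) = cj T1 a u)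
    (heb : ∀ u, Eb (ofAdd (cf (upsR D) u)) = cj T2 b u) :
    ∃ Ez : Multiplicative (RR D) →* G, HalfOut T1 T2 a b Ea Eb Ez := by
  set z := b * a * b⁻¹ * a⁻¹ with hz
  have hbaz : b * a * b⁻¹ = z * a := by rw [hz]; group
  have fa1 : ∀ u w, T1 u * cj T2 b w * (T1 u)⁻¹ = cj T2 b (u⁻¹ * w) := by
    intro u w
    have h1 : (T1 u * T2 u) * b * (T1 u * T2 u)⁻¹ = b := by
      rw [← (h.bT u).eq]; group
    have h2 : T1 u * b * (T1 u)⁻¹ = T2 u⁻¹ * b * (T2 u⁻¹)⁻¹ := by
      have h3 : T2 u * (T1 u * b * (T1 u)⁻¹) * (T2 u)⁻¹ = b := by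
        calc T2 u * (T1 u * b * (T1 u)⁻¹) * (T2 u)⁻¹
            = (T2 u * T1 u) * b * (T2 u * T1 u)⁻¹ := by group
          _ = b := by rw [← (h.comm u u).eq]; exact h1
      calc T1 u * b * (T1 u)⁻¹ = (T2 u)⁻¹ * (T2 u * (T1 u * b * (T1 u)⁻¹) * (T2 u)⁻¹) * T2 u := by
            group
        _ = (T2 u)⁻¹ * b * T2 u := by rw [h3]
        _ = _ := by rw [map_inv, inv_inv]
    calc T1 u * cj T2 b w * (T1 u)⁻¹ = (T1 u * T2 w) * b * (T1 u * T2 w)⁻¹ := by
          rw [cj]; group
      _ = (T2 w * T1 u) * b * (T2 w * T1 u)⁻¹ := by rw [(h.comm u w).eq]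
      _ = T2 w * (T1 u * b * (T1 u)⁻¹) * (T2 w)⁻¹ := by group
      _ = T2 w * (T2 u⁻¹ * b * (T2 u⁻¹)⁻¹) * (T2 w)⁻¹ := by rw [h2]
      _ = cj T2 b (u⁻¹ * w) := by
          rw [mul_comm u⁻¹ w, cj, map_mul]; group
  have fa2 : ∀ w, cj T2 b w * a * (cj T2 b w)⁻¹ = cj T2 z w * a := by
    intro w
    have h1 : T2 w * a * (T2 w)⁻¹ = a := by rw [← (h.aT w).eq]; group
    calc cj T2 b w * a * (cj T2 b w)⁻¹
        = cj T2 b w * (T2 w * a * (T2 w)⁻¹) * (cj T2 b w)⁻¹ := by rw [h1]
      _ = T2 w * (b * a * b⁻¹) * (T2 w)⁻¹ := by rw [cj]; group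
      _ = T2 w * (z * a) * (T2 w)⁻¹ := by rw [hbaz]
      _ = cj T2 z w * (T2 w * a * (T2 w)⁻¹) := by rw [cj]; group
      _ = cj T2 z w * a := by rw [h1]
  have fa3 : ∀ w, Commute (cj T2 z w) a := by
    intro w
    have h1 : T2 w * a * (T2 w)⁻¹ = a := by rw [← (h.aT w).eq]; group
    have h2 := (Commute.conj_iff (T2 w)).mpr h.za
    rw [h1] at h2
    exact h2
  have fa4 : ∀ w u, Commute (cj T2 z w) (cj T2 b u) := by
    intro w u
    have h1 : ∀ u, Commute z (cj T2 b u) := by
      intro u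
      have h2 := fa1 u⁻¹ 1
      rw [inv_inv, mul_one, cj_one] at h2
      rw [← h2]
      have h3 := h.zT u⁻¹
      exact (h3.mul_right h.zb).mul_right h3.inv_right
    have h4 := (Commute.conj_iff (T2 w)).mpr (h1 (w⁻¹ * u))
    rw [← cj_mul, mul_inv_cancel_left] at h4
    exact h4
  have fa5 : ∀ w w', Commute (cj T2 z w) (cj T2 z w') := by
    intro w w'
    have h1 : cj T2 z w' = cj T2 b w' * a * (cj T2 b w')⁻¹ * a⁻¹ := by rw [fa2]; group
    rw [h1]
    exact (((fa4 w w').mul_right (fa3 w)).mul_right (fa4 w w').inv_right).mul_right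
      (fa3 w).inv_right
  have fa6 : ∀ i u, cj T2 z u * cj T2 z (gen false i * u) * cj T2 z (gen true i * u) = 1 := by
    intro i u
    have h0 := cj_rel T2 b h.rb i u
    have hc1 : ∀ v x, cj T2 b v * (cj T2 z x * a) * (cj T2 b v)⁻¹
        = cj T2 z x * (cj T2 z v * a) := by
      intro v x
      calc cj T2 b v * (cj T2 z x * a) * (cj T2 b v)⁻¹
          = (cj T2 b v * cj T2 z x) * a * (cj T2 b v)⁻¹ := by group
        _ = (cj T2 z x * cj T2 b v) * a * (cj T2 b v)⁻¹ := by rw [(fa4 x v).eq]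
        _ = cj T2 z x * (cj T2 b v * a * (cj T2 b v)⁻¹) := by group
        _ = _ := by rw [fa2]
    have h1 : (cj T2 b u * cj T2 b (gen false i * u) * cj T2 b (gen true i * u)) * a *
        (cj T2 b u * cj T2 b (gen false i * u) * cj T2 b (gen true i * u))⁻¹
        = cj T2 z (gen true i * u) * (cj T2 z (gen false i * u) * (cj T2 z u * a)) := by
      calc (cj T2 b u * cj T2 b (gen false i * u) * cj T2 b (gen true i * u)) * a *
        (cj T2 b u * cj T2 b (gen false i * u) * cj T2 b (gen true i * u))⁻¹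
          = cj T2 b u * (cj T2 b (gen false i * u) * (cj T2 b (gen true i * u) * a *
            (cj T2 b (gen true i * u))⁻¹) * (cj T2 b (gen false i * u))⁻¹) * (cj T2 b u)⁻¹ := by
            group
        _ = cj T2 b u * (cj T2 z (gen true i * u) * (cj T2 z (gen false i * u) * a))
            * (cj T2 b u)⁻¹ := by rw [fa2, hc1]
        _ = (cj T2 b u * cj T2 z (gen true i * u)) * (cj T2 z (gen false i * u) * a)
            * (cj T2 b u)⁻¹ := by group
        _ = (cj T2 z (gen true i * u) * cj T2 b u) * (cj T2 z (gen false i * u) * a)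
            * (cj T2 b u)⁻¹ := by rw [(fa4 _ u).eq]
        _ = cj T2 z (gen true i * u) * (cj T2 b u * (cj T2 z (gen false i * u) * a)
            * (cj T2 b u)⁻¹) := by group
        _ = _ := by rw [hc1]
    rw [h0] at h1
    have h2 : cj T2 z (gen true i * u) * (cj T2 z (gen false i * u) * cj T2 z u) = 1 := by
      have h3 : cj T2 z (gen true i * u) * (cj T2 z (gen false i * u) * cj T2 z u) * a = a := by
        have h4 : (1 : G) * a * (1 : G)⁻¹ = a := by group
        rw [h4] at h1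
        calc _ = cj T2 z (gen true i * u) * (cj T2 z (gen false i * u) * (cj T2 z u * a)) := by group
          _ = a := h1.symm
      exact mul_eq_right.mp h3
    rw [(fa5 u (gen false i * u)).eq, ← (fa5 (gen true i * u) _).mul_right (fa5 _ _)]
    exact h2
  obtain ⟨Ez, hez⟩ := exists_hom (cj T2 z) fa5 fa6
  have t1z : ∀ v r, Commute (T1 v) (Ez (ofAdd r)) := by
    intro v
    apply commute_cf
    intro u
    rw [hez, cj]
    have h1 := (h.zT v).symm
    exact ((h.comm v u).mul_right h1).mul_right (h.comm v u).inv_right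
  have t2a : ∀ v r, Commute (T2 v) (Ea (ofAdd r)) := by
    intro v
    apply commute_cf
    intro u
    rw [hea, cj]
    have h1 := (h.comm u v).symm
    exact (h1.mul_right (h.aT v).symm).mul_right h1.inv_right
  have za : ∀ r s, Commute (Ez (ofAdd r)) (Ea (ofAdd s)) := by
    apply commute_cf2
    intro u v
    rw [hea, cj]
    have h1 := (t1z v (cf (upsR D) u)).symm
    have h2 := fa3 u
    rw [← hez] at h2
    exact (h1.mul_right h2).mul_right h1.inv_right
  have zb : ∀ r s, Commute (Ez (ofAdd r)) (Eb (ofAdd s)) := by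
    apply commute_cf2
    intro u v
    rw [hez, heb]; exact fa4 u v
  have ab : ∀ s r, Eb (ofAdd s) * Ea (ofAdd r) * (Eb (ofAdd s))⁻¹
      = Ez (ofAdd (s * r)) * Ea (ofAdd r) := by
    have key : ∀ v s, Eb (ofAdd s) * Ea (ofAdd (cf (upsR D) v)) * (Eb (ofAdd s))⁻¹
      = Ez (ofAdd (s * cf (upsR D) v)) * Ea (ofAdd (cf (upsR D) v)) := by
      intro v
      let S : AddSubgroup (RR D) :=
        { carrier := {s | Eb (ofAdd s) * Ea (ofAdd (cf (upsR D) v)) * (Eb (ofAdd s))⁻¹
            = Ez (ofAdd (s * cf (upsR D) v)) * Ea (ofAdd (cf (upsR D) v))}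
          zero_mem' := by simp
          add_mem' := by
            intro p q hp hq
            simp only [Set.mem_ofPred_eq] at hp hq ⊢
            rw [ofAdd_add, map_mul, add_mul, ofAdd_add, map_mul]
            calc Eb (ofAdd p) * Eb (ofAdd q) * Ea (ofAdd (cf (upsR D) v)) *
                (Eb (ofAdd p) * Eb (ofAdd q))⁻¹
                = Eb (ofAdd p) * (Eb (ofAdd q) * Ea (ofAdd (cf (upsR D) v)) * (Eb (ofAdd q))⁻¹)
                  * (Eb (ofAdd p))⁻¹ := by group
              _ = (Eb (ofAdd p) * Ez (ofAdd (q * cf (upsR D) v))) * Ea (ofAdd (cf (upsR D) v))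
                  * (Eb (ofAdd p))⁻¹ := by rw [hq]; group
              _ = (Ez (ofAdd (q * cf (upsR D) v)) * Eb (ofAdd p)) * Ea (ofAdd (cf (upsR D) v))
                  * (Eb (ofAdd p))⁻¹ := by rw [(zb _ _).eq]
              _ = Ez (ofAdd (q * cf (upsR D) v)) * (Eb (ofAdd p) * Ea (ofAdd (cf (upsR D) v))
                  * (Eb (ofAdd p))⁻¹) := by group
              _ = (Ez (ofAdd (q * cf (upsR D) v)) * Ez (ofAdd (p * cf (upsR D) v))) *
                  Ea (ofAdd (cf (upsR D) v)) := by rw [hp]; group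
              _ = _ := by rw [← map_mul, mul_comm, map_mul]
          neg_mem' := by
            intro p hp
            simp only [Set.mem_ofPred_eq] at hp ⊢
            rw [ofAdd_neg, map_inv, neg_mul, ofAdd_neg, map_inv, inv_inv]
            have h1 : Ea (ofAdd (cf (upsR D) v)) = (Eb (ofAdd p))⁻¹ *
                (Ez (ofAdd (p * cf (upsR D) v)) * Ea (ofAdd (cf (upsR D) v))) * Eb (ofAdd p) := by
              rw [← hp]; group
            have h2 : (Eb (ofAdd p))⁻¹ * Ez (ofAdd (p * cf (upsR D) v))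
                = Ez (ofAdd (p * cf (upsR D) v)) * (Eb (ofAdd p))⁻¹ := (zb _ _).inv_right.eq.symm
            have h3 : Ea (ofAdd (cf (upsR D) v)) = Ez (ofAdd (p * cf (upsR D) v)) *
                ((Eb (ofAdd p))⁻¹ * Ea (ofAdd (cf (upsR D) v)) * Eb (ofAdd p)) := by
              calc _ = _ := h1
                _ = ((Eb (ofAdd p))⁻¹ * Ez (ofAdd (p * cf (upsR D) v))) *
                  Ea (ofAdd (cf (upsR D) v)) * Eb (ofAdd p) := by group
                _ = _ := by rw [h2]; group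
            exact (eq_inv_mul_iff_mul_eq.mpr h3.symm) }
      intro s
      refine RR_induction S ?_ s
      intro w
      change Eb (ofAdd (cf (upsR D) w)) * Ea (ofAdd (cf (upsR D) v)) * (Eb (ofAdd (cf (upsR D) w)))⁻¹
            = Ez (ofAdd (cf (upsR D) w * cf (upsR D) v)) * Ea (ofAdd (cf (upsR D) v))
      rw [← cf_mul, heb, hea, hez]
      have h1 := fa1 v (w * v)
      rw [mul_comm w v, inv_mul_cancel_left] at h1
      rw [mul_comm w v, ← h1]
      have h2 := (t1z v (cf (upsR D) (v * w))).eq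
      rw [hez] at h2
      have hcv : cj T1 a v = T1 v * a * (T1 v)⁻¹ := rfl
      calc T1 v * cj T2 b (v * w) * (T1 v)⁻¹ * cj T1 a v * (T1 v * cj T2 b (v * w) * (T1 v)⁻¹)⁻¹
          = T1 v * (cj T2 b (v * w) * a * (cj T2 b (v * w))⁻¹) * (T1 v)⁻¹ := by
            rw [hcv]; group
        _ = (T1 v * cj T2 z (v * w)) * a * (T1 v)⁻¹ := by rw [fa2]; group
        _ = _ := by rw [h2, hcv]; group
    intro s r
    let S : AddSubgroup (RR D) :=
      { carrier := {r | Eb (ofAdd s) * Ea (ofAdd r) * (Eb (ofAdd s))⁻¹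
          = Ez (ofAdd (s * r)) * Ea (ofAdd r)}
        zero_mem' := by simp
        add_mem' := by
          intro p q hp hq
          simp only [Set.mem_ofPred_eq] at hp hq ⊢
          rw [ofAdd_add, map_mul, mul_add, ofAdd_add, map_mul]
          calc Eb (ofAdd s) * (Ea (ofAdd p) * Ea (ofAdd q)) * (Eb (ofAdd s))⁻¹
              = (Eb (ofAdd s) * Ea (ofAdd p) * (Eb (ofAdd s))⁻¹) *
                (Eb (ofAdd s) * Ea (ofAdd q) * (Eb (ofAdd s))⁻¹) := by group
            _ = Ez (ofAdd (s * p)) * (Ea (ofAdd p) * Ez (ofAdd (s * q))) * Ea (ofAdd q) := by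
                rw [hp, hq]; group
            _ = Ez (ofAdd (s * p)) * (Ez (ofAdd (s * q)) * Ea (ofAdd p)) * Ea (ofAdd q) := by
                rw [(za _ _).eq]
            _ = _ := by group
        neg_mem' := by
          intro p hp
          simp only [Set.mem_ofPred_eq] at hp ⊢
          rw [ofAdd_neg, map_inv, mul_neg, ofAdd_neg, map_inv]
          calc Eb (ofAdd s) * (Ea (ofAdd p))⁻¹ * (Eb (ofAdd s))⁻¹
              = (Eb (ofAdd s) * Ea (ofAdd p) * (Eb (ofAdd s))⁻¹)⁻¹ := by group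
            _ = (Ez (ofAdd (s * p)) * Ea (ofAdd p))⁻¹ := by rw [hp]
            _ = (Ea (ofAdd p) * Ez (ofAdd (s * p)))⁻¹ := by rw [(za _ _).eq]
            _ = _ := by group }
    exact RR_induction S (fun v => key v s) r
  refine ⟨Ez, ⟨hea, heb, hez, ?_, za, zb, ?_, ?_, ab, ?_, ?_, ?_, ?_, ?_, ?_⟩⟩
  · intro r s
    exact (Commute.all (ofAdd r) (ofAdd s)).map Ez
  · intro r s
    exact (Commute.all (ofAdd r) (ofAdd s)).map Ea
  · intro r s
    exact (Commute.all (ofAdd r) (ofAdd s)).map Eb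
  · intro v r
    exact conj_hom T1 a Ea hea v r
  · intro v r
    rw [(t2a v r).eq]; group
  · intro v r
    rw [(t1z v r).eq]; group
  · intro v r
    exact conj_hom T2 z Ez hez v r
  · intro v r
    have h1 : (MulAut.conj (T1 v)).toMonoidHom.comp Eb = Eb.comp (mulHom (cf (upsR D) v⁻¹)) := by
      apply hom_ext_cf
      intro u
      rw [MonoidHom.comp_apply, MonoidHom.comp_apply, mulHom_apply, ← cf_mul, heb, heb, ← fa1]
      rfl
    exact DFunLike.congr_fun h1 (ofAdd r)
  · intro v r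
    exact conj_hom T2 b Eb heb v r

end half

end Pool.Agent.LibLPres
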