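import Mathlib

set_option autoImplicit false
set_option linter.unusedSectionVars false

namespace Pool.Agent.LibLPres

/-- The unit of `S` attached to an element of the torus, as an element of `S`. -/
def cf {S Q : Type} [CommRing S] [CommGroup Q] (υ : Q →* Sˣ) (u : Q) : S := ((υ u : Sˣ) : S)

section cf
variable {S Q : Type} [CommRing S] [CommGroup Q] (υ : Q →* Sˣ)

@[simp] theorem cf_one : cf υ 1 = 1 := by simp [cf]

theorem cf_mul (u w : Q) : cf υ (u * w) = cf υ u * cf υ w := by simp [cf]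

theorem cf_mul_inv (u : Q) : cf υ u * cf υ u⁻¹ = 1 := by simp [cf]

theorem cf_inv_mul (u : Q) : cf υ u⁻¹ * cf υ u = 1 := by simp [cf]

theorem isUnit_cf (u : Q) : IsUnit (cf υ u) := (υ u).isUnit

end cf

/-- Triangular group: a row part `(r1, r2)`, a column part `(c1, c2)`, the middle entry `e` and the
two torus coordinates `u, w`. -/
@[ext]
structure KG {S Q : Type} [CommRing S] [CommGroup Q] (υ : Q →* Sˣ) (M1 M2 : Type) where
  r1 : M1
  r2 : M1
  c1 : M2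
  c2 : M2
  e : S
  u : Q
  w : Q

namespace KG

variable {S Q : Type} [CommRing S] [CommGroup Q] {υ : Q →* Sˣ} {M1 M2 : Type}
variable [AddCommGroup M1] [Module S M1] [AddCommGroup M2] [Module S M2]

instance : Mul (KG υ M1 M2) where
  mul g h :=
    { r1 := g.r1 + cf υ g.u⁻¹ • h.r1
      r2 := g.r2 + cf υ g.w⁻¹ • h.r2 + (g.e * cf υ g.u⁻¹) • h.r1
      c1 := g.c1 + cf υ g.w • h.c1
      c2 := g.c2 + cf υ g.u • h.c2 + (g.e * cf υ g.w) • h.c1
      e := g.e + cf υ g.u * cf υ g.w⁻¹ * h.e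
      u := g.u * h.u
      w := g.w * h.w }

instance : One (KG υ M1 M2) where
  one := { r1 := 0, r2 := 0, c1 := 0, c2 := 0, e := 0, u := 1, w := 1 }

instance : Inv (KG υ M1 M2) where
  inv g :=
    { r1 := -(cf υ g.u • g.r1)
      r2 := -(cf υ g.w • g.r2) + (g.e * cf υ g.w) • g.r1
      c1 := -(cf υ g.w⁻¹ • g.c1)
      c2 := -(cf υ g.u⁻¹ • g.c2) + (g.e * cf υ g.u⁻¹) • g.c1
      e := -(cf υ g.u⁻¹ * cf υ g.w * g.e)
      u := g.u⁻¹
      w := g.w⁻¹ }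

@[simp] theorem mul_r1 (g h : KG υ M1 M2) : (g * h).r1 = g.r1 + cf υ g.u⁻¹ • h.r1 := rfl
@[simp] theorem mul_r2 (g h : KG υ M1 M2) :
    (g * h).r2 = g.r2 + cf υ g.w⁻¹ • h.r2 + (g.e * cf υ g.u⁻¹) • h.r1 := rfl
@[simp] theorem mul_c1 (g h : KG υ M1 M2) : (g * h).c1 = g.c1 + cf υ g.w • h.c1 := rfl
@[simp] theorem mul_c2 (g h : KG υ M1 M2) :
    (g * h).c2 = g.c2 + cf υ g.u • h.c2 + (g.e * cf υ g.w) • h.c1 := rfl
@[simp] theorem mul_e (g h : KG υ M1 M2) : (g * h).e = g.e + cf υ g.u * cf υ g.w⁻¹ * h.e := rfl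
@[simp] theorem mul_u (g h : KG υ M1 M2) : (g * h).u = g.u * h.u := rfl
@[simp] theorem mul_w (g h : KG υ M1 M2) : (g * h).w = g.w * h.w := rfl

@[simp] theorem one_r1 : (1 : KG υ M1 M2).r1 = 0 := rfl
@[simp] theorem one_r2 : (1 : KG υ M1 M2).r2 = 0 := rfl
@[simp] theorem one_c1 : (1 : KG υ M1 M2).c1 = 0 := rfl
@[simp] theorem one_c2 : (1 : KG υ M1 M2).c2 = 0 := rfl
@[simp] theorem one_e : (1 : KG υ M1 M2).e = 0 := rfl
@[simp] theorem one_u : (1 : KG υ M1 M2).u = 1 := rfl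
@[simp] theorem one_w : (1 : KG υ M1 M2).w = 1 := rfl

@[simp] theorem inv_r1 (g : KG υ M1 M2) : (g⁻¹).r1 = -(cf υ g.u • g.r1) := rfl
@[simp] theorem inv_r2 (g : KG υ M1 M2) :
    (g⁻¹).r2 = -(cf υ g.w • g.r2) + (g.e * cf υ g.w) • g.r1 := rfl
@[simp] theorem inv_c1 (g : KG υ M1 M2) : (g⁻¹).c1 = -(cf υ g.w⁻¹ • g.c1) := rfl
@[simp] theorem inv_c2 (g : KG υ M1 M2) :
    (g⁻¹).c2 = -(cf υ g.u⁻¹ • g.c2) + (g.e * cf υ g.u⁻¹) • g.c1 := rfl
@[simp] theorem inv_e (g : KG υ M1 M2) : (g⁻¹).e = -(cf υ g.u⁻¹ * cf υ g.w * g.e) := rfl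
@[simp] theorem inv_u (g : KG υ M1 M2) : (g⁻¹).u = g.u⁻¹ := rfl
@[simp] theorem inv_w (g : KG υ M1 M2) : (g⁻¹).w = g.w⁻¹ := rfl

protected theorem mul_assoc' (a b c : KG υ M1 M2) : a * b * c = a * (b * c) := by
  have hu := cf_inv_mul υ a.u
  have hw := cf_inv_mul υ a.w
  ext
  · simp only [mul_r1, mul_u, mul_inv_rev, cf_mul]; module
  · simp only [mul_r1, mul_r2, mul_u, mul_w, mul_e, mul_inv_rev, cf_mul]
    linear_combination (norm := module) (cf υ b.u⁻¹ * cf υ a.w⁻¹ * b.e) • (congrArg (· • c.r1) hu)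
  · simp only [mul_c1, mul_w, cf_mul]; module
  · simp only [mul_c1, mul_c2, mul_u, mul_w, mul_e, cf_mul]
    linear_combination (norm := module) (cf υ b.w * cf υ a.u * b.e) • (congrArg (· • c.c1) hw)
  · simp only [mul_e, mul_u, mul_w, mul_inv_rev, cf_mul]; ring
  · simp only [mul_u, mul_assoc]
  · simp only [mul_w, mul_assoc]

protected theorem one_mul' (a : KG υ M1 M2) : 1 * a = a := by
  ext <;> simp

protected theorem inv_mul' (a : KG υ M1 M2) : a⁻¹ * a = 1 := by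
  have hu := cf_inv_mul υ a.u
  have hw := cf_inv_mul υ a.w
  ext
  · simp
  · simp only [mul_r2, inv_r2, inv_w, inv_u, inv_e, inv_inv, one_r2]
    linear_combination (norm := module) (-(cf υ a.w * a.e)) • (congrArg (· • a.r1) hu)
  · simp
  · simp only [mul_c2, inv_c2, inv_w, inv_u, inv_e, one_c2]
    linear_combination (norm := module) (-(cf υ a.u⁻¹ * a.e)) • (congrArg (· • a.c1) hw)
  · simp only [mul_e, inv_e, inv_u, inv_w, inv_inv, one_e]
    ring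
  · simp
  · simp

instance : Group (KG υ M1 M2) :=
  Group.ofLeftAxioms KG.mul_assoc' KG.one_mul' KG.inv_mul'

end KG

end Pool.Agent.LibLPres
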