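import Pool.Agent.LibLPres.Half

set_option autoImplicit false
set_option linter.unusedSectionVars false

namespace Pool.Agent.LibLPres

open Multiplicative

/-- The base group. -/
abbrev Hc (D : ℕ) : Type := KG (upsR D) (R3 D) (RR D)

/-- A family of homomorphisms satisfying the commutation rules of the base group. -/
structure Kit (D : ℕ) (G : Type) [Group G] where
  Ea : Multiplicative (R3 D) →* G
  Ez : Multiplicative (R3 D) →* G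
  Ec : Multiplicative (RR D) →* G
  Ey : Multiplicative (RR D) →* G
  Eb : Multiplicative (RR D) →* G
  T2 : PP D →* G
  T3 : PP D →* G
  az : ∀ r s, Commute (Ea (ofAdd r)) (Ez (ofAdd s))
  cy : ∀ r s, Commute (Ec (ofAdd r)) (Ey (ofAdd s))
  ac : ∀ r s, Commute (Ea (ofAdd r)) (Ec (ofAdd s))
  ay : ∀ r s, Commute (Ea (ofAdd r)) (Ey (ofAdd s))
  zc : ∀ r s, Commute (Ez (ofAdd r)) (Ec (ofAdd s))
  zy : ∀ r s, Commute (Ez (ofAdd r)) (Ey (ofAdd s))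
  t23 : ∀ u w, Commute (T2 u) (T3 w)
  ba : ∀ s r, Eb (ofAdd s) * Ea (ofAdd r) * (Eb (ofAdd s))⁻¹ = Ez (ofAdd (s • r)) * Ea (ofAdd r)
  bz : ∀ s r, Eb (ofAdd s) * Ez (ofAdd r) * (Eb (ofAdd s))⁻¹ = Ez (ofAdd r)
  bc : ∀ s r, Eb (ofAdd s) * Ec (ofAdd r) * (Eb (ofAdd s))⁻¹ = Ey (ofAdd (s * r)) * Ec (ofAdd r)
  bY : ∀ s r, Eb (ofAdd s) * Ey (ofAdd r) * (Eb (ofAdd s))⁻¹ = Ey (ofAdd r)
  t2a : ∀ v r, T2 v * Ea (ofAdd r) * (T2 v)⁻¹ = Ea (ofAdd (cf (upsR D) v⁻¹ • r))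
  t2z : ∀ v r, T2 v * Ez (ofAdd r) * (T2 v)⁻¹ = Ez (ofAdd r)
  t2c : ∀ v r, T2 v * Ec (ofAdd r) * (T2 v)⁻¹ = Ec (ofAdd r)
  t2y : ∀ v r, T2 v * Ey (ofAdd r) * (T2 v)⁻¹ = Ey (ofAdd (cf (upsR D) v * r))
  t2b : ∀ v r, T2 v * Eb (ofAdd r) * (T2 v)⁻¹ = Eb (ofAdd (cf (upsR D) v * r))
  t3a : ∀ v r, T3 v * Ea (ofAdd r) * (T3 v)⁻¹ = Ea (ofAdd r)
  t3z : ∀ v r, T3 v * Ez (ofAdd r) * (T3 v)⁻¹ = Ez (ofAdd (cf (upsR D) v⁻¹ • r))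
  t3c : ∀ v r, T3 v * Ec (ofAdd r) * (T3 v)⁻¹ = Ec (ofAdd (cf (upsR D) v * r))
  t3y : ∀ v r, T3 v * Ey (ofAdd r) * (T3 v)⁻¹ = Ey (ofAdd r)
  t3b : ∀ v r, T3 v * Eb (ofAdd r) * (T3 v)⁻¹ = Eb (ofAdd (cf (upsR D) v⁻¹ * r))

namespace Kit

variable {D : ℕ} {G : Type} [Group G] (K : Kit D G)

/-- row part -/
noncomputable def row (x y : R3 D) : G := K.Ea (ofAdd x) * K.Ez (ofAdd y)

/-- column part -/
noncomputable def col (x y : RR D) : G := K.Ec (ofAdd x) * K.Ey (ofAdd y)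

theorem row_add (x y x' y' : R3 D) : K.row (x + x') (y + y') = K.row x y * K.row x' y' := by
  rw [row, row, row, ofAdd_add, ofAdd_add, map_mul, map_mul]
  calc K.Ea (ofAdd x) * K.Ea (ofAdd x') * (K.Ez (ofAdd y) * K.Ez (ofAdd y'))
      = K.Ea (ofAdd x) * (K.Ea (ofAdd x') * K.Ez (ofAdd y)) * K.Ez (ofAdd y') := by group
    _ = K.Ea (ofAdd x) * (K.Ez (ofAdd y) * K.Ea (ofAdd x')) * K.Ez (ofAdd y') := by
        rw [(K.az _ _).eq]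
    _ = _ := by group

theorem col_add (x y x' y' : RR D) : K.col (x + x') (y + y') = K.col x y * K.col x' y' := by
  rw [col, col, col, ofAdd_add, ofAdd_add, map_mul, map_mul]
  calc K.Ec (ofAdd x) * K.Ec (ofAdd x') * (K.Ey (ofAdd y) * K.Ey (ofAdd y'))
      = K.Ec (ofAdd x) * (K.Ec (ofAdd x') * K.Ey (ofAdd y)) * K.Ey (ofAdd y') := by group
    _ = K.Ec (ofAdd x) * (K.Ey (ofAdd y) * K.Ec (ofAdd x')) * K.Ey (ofAdd y') := by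
        rw [(K.cy _ _).eq]
    _ = _ := by group

theorem row_col (x y : R3 D) (x' y' : RR D) : Commute (K.row x y) (K.col x' y') := by
  rw [row, col]
  exact ((K.ac _ _).mul_right (K.ay _ _)).mul_left ((K.zc _ _).mul_right (K.zy _ _))

theorem b_row (s : RR D) (x y : R3 D) :
    K.Eb (ofAdd s) * K.row x y * (K.Eb (ofAdd s))⁻¹ = K.row x (y + s • x) := by
  rw [row, row]
  calc K.Eb (ofAdd s) * (K.Ea (ofAdd x) * K.Ez (ofAdd y)) * (K.Eb (ofAdd s))⁻¹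
      = (K.Eb (ofAdd s) * K.Ea (ofAdd x) * (K.Eb (ofAdd s))⁻¹) *
        (K.Eb (ofAdd s) * K.Ez (ofAdd y) * (K.Eb (ofAdd s))⁻¹) := by group
    _ = (K.Ez (ofAdd (s • x)) * K.Ea (ofAdd x)) * K.Ez (ofAdd y) := by rw [K.ba, K.bz]
    _ = (K.Ea (ofAdd x) * K.Ez (ofAdd (s • x))) * K.Ez (ofAdd y) := by rw [(K.az _ _).eq]
    _ = _ := by rw [mul_assoc, ← map_mul, ← ofAdd_add, add_comm]

theorem b_col (s : RR D) (x y : RR D) :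
    K.Eb (ofAdd s) * K.col x y * (K.Eb (ofAdd s))⁻¹ = K.col x (y + s * x) := by
  rw [col, col]
  calc K.Eb (ofAdd s) * (K.Ec (ofAdd x) * K.Ey (ofAdd y)) * (K.Eb (ofAdd s))⁻¹
      = (K.Eb (ofAdd s) * K.Ec (ofAdd x) * (K.Eb (ofAdd s))⁻¹) *
        (K.Eb (ofAdd s) * K.Ey (ofAdd y) * (K.Eb (ofAdd s))⁻¹) := by group
    _ = (K.Ey (ofAdd (s * x)) * K.Ec (ofAdd x)) * K.Ey (ofAdd y) := by rw [K.bc, K.bY]
    _ = (K.Ec (ofAdd x) * K.Ey (ofAdd (s * x))) * K.Ey (ofAdd y) := by rw [(K.cy _ _).eq]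
    _ = _ := by rw [mul_assoc, ← map_mul, ← ofAdd_add, add_comm]

theorem t2_row (v : PP D) (x y : R3 D) :
    K.T2 v * K.row x y * (K.T2 v)⁻¹ = K.row (cf (upsR D) v⁻¹ • x) y := by
  rw [row, row]
  calc K.T2 v * (K.Ea (ofAdd x) * K.Ez (ofAdd y)) * (K.T2 v)⁻¹
      = (K.T2 v * K.Ea (ofAdd x) * (K.T2 v)⁻¹) * (K.T2 v * K.Ez (ofAdd y) * (K.T2 v)⁻¹) := by group
    _ = _ := by rw [K.t2a, K.t2z]

theorem t3_row (v : PP D) (x y : R3 D) :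
    K.T3 v * K.row x y * (K.T3 v)⁻¹ = K.row x (cf (upsR D) v⁻¹ • y) := by
  rw [row, row]
  calc K.T3 v * (K.Ea (ofAdd x) * K.Ez (ofAdd y)) * (K.T3 v)⁻¹
      = (K.T3 v * K.Ea (ofAdd x) * (K.T3 v)⁻¹) * (K.T3 v * K.Ez (ofAdd y) * (K.T3 v)⁻¹) := by group
    _ = _ := by rw [K.t3a, K.t3z]

theorem t2_col (v : PP D) (x y : RR D) :
    K.T2 v * K.col x y * (K.T2 v)⁻¹ = K.col x (cf (upsR D) v * y) := by
  rw [col, col]
  calc K.T2 v * (K.Ec (ofAdd x) * K.Ey (ofAdd y)) * (K.T2 v)⁻¹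
      = (K.T2 v * K.Ec (ofAdd x) * (K.T2 v)⁻¹) * (K.T2 v * K.Ey (ofAdd y) * (K.T2 v)⁻¹) := by group
    _ = _ := by rw [K.t2c, K.t2y]

theorem t3_col (v : PP D) (x y : RR D) :
    K.T3 v * K.col x y * (K.T3 v)⁻¹ = K.col (cf (upsR D) v * x) y := by
  rw [col, col]
  calc K.T3 v * (K.Ec (ofAdd x) * K.Ey (ofAdd y)) * (K.T3 v)⁻¹
      = (K.T3 v * K.Ec (ofAdd x) * (K.T3 v)⁻¹) * (K.T3 v * K.Ey (ofAdd y) * (K.T3 v)⁻¹) := by group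
    _ = _ := by rw [K.t3c, K.t3y]

/-- the value of the homomorphism -/
noncomputable def val (h : Hc D) : G :=
  K.row h.r1 h.r2 * K.col h.c1 h.c2 * K.Eb (ofAdd h.e) * (K.T2 h.u * K.T3 h.w)

theorem val_mul (g h : Hc D) : K.val (g * h) = K.val g * K.val h := by
  simp only [val, KG.mul_r1, KG.mul_r2, KG.mul_c1, KG.mul_c2, KG.mul_e, KG.mul_u, KG.mul_w, map_mul]
  have h1 : (K.Eb (ofAdd g.e) * (K.T2 g.u * K.T3 g.w)) * K.row h.r1 h.r2 *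
      (K.Eb (ofAdd g.e) * (K.T2 g.u * K.T3 g.w))⁻¹
      = K.row (cf (upsR D) g.u⁻¹ • h.r1) (cf (upsR D) g.w⁻¹ • h.r2 +
        (g.e * cf (upsR D) g.u⁻¹) • h.r1) := by
    calc _ = K.Eb (ofAdd g.e) * (K.T2 g.u * (K.T3 g.w * K.row h.r1 h.r2 * (K.T3 g.w)⁻¹)
          * (K.T2 g.u)⁻¹) * (K.Eb (ofAdd g.e))⁻¹ := by group
      _ = _ := by rw [K.t3_row, K.t2_row, K.b_row, mul_smul]
  have h2 : (K.Eb (ofAdd g.e) * (K.T2 g.u * K.T3 g.w)) * K.col h.c1 h.c2 *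
      (K.Eb (ofAdd g.e) * (K.T2 g.u * K.T3 g.w))⁻¹
      = K.col (cf (upsR D) g.w * h.c1) (cf (upsR D) g.u * h.c2 +
        (g.e * cf (upsR D) g.w) * h.c1) := by
    calc _ = K.Eb (ofAdd g.e) * (K.T2 g.u * (K.T3 g.w * K.col h.c1 h.c2 * (K.T3 g.w)⁻¹)
          * (K.T2 g.u)⁻¹) * (K.Eb (ofAdd g.e))⁻¹ := by group
      _ = _ := by rw [K.t3_col, K.t2_col, K.b_col, mul_assoc]
  have h3 : (K.T2 g.u * K.T3 g.w) * K.Eb (ofAdd h.e) * (K.T2 g.u * K.T3 g.w)⁻¹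
      = K.Eb (ofAdd (cf (upsR D) g.u * cf (upsR D) g.w⁻¹ * h.e)) := by
    calc _ = K.T2 g.u * (K.T3 g.w * K.Eb (ofAdd h.e) * (K.T3 g.w)⁻¹) * (K.T2 g.u)⁻¹ := by group
      _ = _ := by rw [K.t3b, K.t2b, mul_assoc]
  have h4 : K.T2 g.u * K.T2 h.u * (K.T3 g.w * K.T3 h.w)
      = (K.T2 g.u * K.T3 g.w) * (K.T2 h.u * K.T3 h.w) := by
    calc _ = K.T2 g.u * (K.T2 h.u * K.T3 g.w) * K.T3 h.w := by group
      _ = K.T2 g.u * (K.T3 g.w * K.T2 h.u) * K.T3 h.w := by rw [(K.t23 _ _).eq]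
      _ = _ := by group
  rw [add_assoc g.r2, row_add, ← h1, add_assoc g.c2]
  simp only [smul_eq_mul]
  rw [col_add, ← h2, ofAdd_add, map_mul, ← h3, h4]
  have h5 : K.row g.r1 g.r2 * ((K.Eb (ofAdd g.e) * (K.T2 g.u * K.T3 g.w)) * K.row h.r1 h.r2 *
      (K.Eb (ofAdd g.e) * (K.T2 g.u * K.T3 g.w))⁻¹) * (K.col g.c1 g.c2 *
      ((K.Eb (ofAdd g.e) * (K.T2 g.u * K.T3 g.w)) * K.col h.c1 h.c2 *
      (K.Eb (ofAdd g.e) * (K.T2 g.u * K.T3 g.w))⁻¹))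
      = K.row g.r1 g.r2 * (K.col g.c1 g.c2 * ((K.Eb (ofAdd g.e) * (K.T2 g.u * K.T3 g.w)) *
        K.row h.r1 h.r2 * (K.Eb (ofAdd g.e) * (K.T2 g.u * K.T3 g.w))⁻¹)) *
      ((K.Eb (ofAdd g.e) * (K.T2 g.u * K.T3 g.w)) * K.col h.c1 h.c2 *
      (K.Eb (ofAdd g.e) * (K.T2 g.u * K.T3 g.w))⁻¹) := by
    have h6 := (K.row_col (cf (upsR D) g.u⁻¹ • h.r1) (cf (upsR D) g.w⁻¹ • h.r2 +
        (g.e * cf (upsR D) g.u⁻¹) • h.r1) g.c1 g.c2).eq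
    rw [← h1] at h6
    rw [← h6]
    group
  rw [h5]
  group

/-- The homomorphism from the base group. -/
noncomputable def hom : Hc D →* G := MonoidHom.mk' K.val K.val_mul

theorem hom_apply (h : Hc D) : K.hom h =
  K.row h.r1 h.r2 * K.col h.c1 h.c2 * K.Eb (ofAdd h.e) * (K.T2 h.u * K.T3 h.w) := rfl

end Kit

end Pool.Agent.LibLPres
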