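import Mathlib

set_option autoImplicit false
set_option linter.unusedSectionVars false

namespace Pool.Agent.LibLPres

open Polynomial

/-- Powers of the variable modulo a monic polynomial over a finite field repeat. -/
theorem exists_pow_mod {k : Type} [Field k] [Finite k] {f : k[X]} (hf : f.Monic) {N : ℕ}
    (hN : Nat.card k ^ f.natDegree ≤ N) : ∃ a c : ℕ, a ≤ N ∧ 0 < c ∧ c ≤ N ∧
      f ∣ (X : k[X]) ^ (a + c) - X ^ a := by
  classical
  have hfin : Module.Finite k (AdjoinRoot f) := hf.finite_adjoinRoot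
  have hcard : Nat.card (AdjoinRoot f) = Nat.card k ^ f.natDegree := by
    rw [Module.natCard_eq_pow_finrank (K := k), (AdjoinRoot.powerBasis' hf).finrank]
    rfl
  have hF : Finite (AdjoinRoot f) := Module.finite_of_finite k
  have : ¬ Function.Injective (fun n : Fin (N + 1) => AdjoinRoot.mk f (X ^ (n : ℕ))) := by
    intro h
    have h1 := Nat.card_le_card_of_injective _ h
    rw [Nat.card_fin, hcard] at h1
    omega
  rw [Function.Injective] at this
  push Not at this
  obtain ⟨i, j, hij, hne⟩ := this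
  have hne' : (i : ℕ) ≠ j := fun h => hne (Fin.ext h)
  rcases lt_or_gt_of_ne hne' with h | h
  · refine ⟨i, j - i, by omega, by omega, by omega, ?_⟩
    rw [Nat.add_sub_cancel' h.le]
    exact AdjoinRoot.mk_eq_mk.mp hij.symm
  · refine ⟨j, i - j, by omega, by omega, by omega, ?_⟩
    rw [Nat.add_sub_cancel' h.le]
    exact AdjoinRoot.mk_eq_mk.mp hij

/-- Powers of endomorphisms repeat. -/
theorem end_periodic {k A M : Type} [Field k] [Finite k] [CommRing A] [Nontrivial A]
    [Algebra k A] [CharP A 3] [AddCommGroup M] [Module A M] [Module.Free A M] [Module.Finite A M]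
    (e N : ℕ) (hN : Nat.card k ^ Module.finrank A M ≤ N)
    (hA : ∀ a : A, a ^ (3 ^ e) ∈ Set.range (algebraMap k A)) (W : Module.End A M) :
    W ^ (3 ^ e * N + 3 ^ e * N.factorial) = W ^ (3 ^ e * N) := by
  have h3 : Fact (Nat.Prime 3) := ⟨Nat.prime_three⟩
  have hE : ExpChar A 3 := inferInstance
  set χ := W.charpoly with hχ
  have hm : χ.Monic := W.charpoly_monic
  set χ' := χ.map (iterateFrobenius A 3 e) with hχ'
  have hm' : χ'.Monic := hm.map _
  have hl : χ' ∈ lifts (algebraMap k A) := by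
    rw [lifts_iff_coeff_lifts]
    intro n
    rw [hχ', coeff_map, iterateFrobenius_def]
    exact hA _
  obtain ⟨f, hf1, hf2, hf3⟩ := lifts_and_natDegree_eq_and_monic hl hm'
  have hdeg : f.natDegree = Module.finrank A M := by
    rw [hf2, hχ', hm.natDegree_map, hχ, W.charpoly_natDegree]
  have h0 : aeval (W ^ 3 ^ e) χ' = 0 := by
    rw [← expand_aeval, hχ', ← map_expand, map_iterateFrobenius_expand, map_pow, hχ,
      LinearMap.aeval_self_charpoly, zero_pow (by positivity)]
  rw [← hdeg] at hN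
  obtain ⟨a, c, ha, hc, hcN, g, hg⟩ := exists_pow_mod hf3 hN
  have h1 : (W ^ 3 ^ e) ^ (a + c) = (W ^ 3 ^ e) ^ a := by
    have h2 := congrArg (fun p : k[X] => aeval (W ^ 3 ^ e) (p.map (algebraMap k A))) hg
    simp only [Polynomial.map_sub, Polynomial.map_pow, Polynomial.map_X, Polynomial.map_mul, hf1,
      map_mul, h0, zero_mul, map_sub, map_pow, aeval_X] at h2
    exact sub_eq_zero.mp h2
  -- propagate
  have h3 : ∀ n, a ≤ n → (W ^ 3 ^ e) ^ (n + c) = (W ^ 3 ^ e) ^ n := by
    intro n hn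
    obtain ⟨d, rfl⟩ := Nat.exists_eq_add_of_le hn
    rw [add_right_comm, pow_add, h1, ← pow_add]
  have h4 : ∀ j n, a ≤ n → (W ^ 3 ^ e) ^ (n + c * j) = (W ^ 3 ^ e) ^ n := by
    intro j
    induction j with
    | zero => intro n _; rw [mul_zero, add_zero]
    | succ j ih =>
      intro n hn
      rw [mul_add, mul_one, ← add_assoc, h3 _ (by omega), ih n hn]
  obtain ⟨j, hj⟩ := Nat.dvd_factorial hc hcN
  rw [← mul_add, pow_mul, pow_mul, hj]
  exact h4 j N ha

section deriv

variable {A V : Type} [CommRing A] [AddCommGroup V] [Module A V] {m : ℕ}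

/-- Derivations are determined linearly by the values on generators. -/
theorem exists_lin (α : FreeGroup (Fin m) → Module.End A V) (h1 : α 1 = 1)
    (w : FreeGroup (Fin m)) : ∃ J : (Fin m → V) →ₗ[A] V, ∀ z : FreeGroup (Fin m) → V,
      (∀ g h, z (g * h) = z g + α g (z h)) → z w = J (fun i => z (FreeGroup.of i)) := by
  have hz1 : ∀ z : FreeGroup (Fin m) → V, (∀ g h, z (g * h) = z g + α g (z h)) → z 1 = 0 := by
    intro z hz
    have := hz 1 1
    rw [mul_one, h1, Module.End.one_apply] at this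
    exact (left_eq_add.mp this)
  refine FreeGroup.induction_on w ?_ ?_ ?_ ?_
  · exact ⟨0, fun z hz => by rw [hz1 z hz]; rfl⟩
  · intro i
    exact ⟨LinearMap.proj i, fun z hz => rfl⟩
  · intro i _
    refine ⟨-((α (FreeGroup.of i)⁻¹) ∘ₗ LinearMap.proj i), fun z hz => ?_⟩
    have := hz (FreeGroup.of i)⁻¹ (FreeGroup.of i)
    rw [inv_mul_cancel, hz1 z hz] at this
    rw [LinearMap.neg_apply, LinearMap.comp_apply, LinearMap.proj_apply]
    exact eq_neg_of_add_eq_zero_left this.symm
  · rintro x y ⟨Jx, hx⟩ ⟨Jy, hy⟩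
    refine ⟨Jx + (α x) ∘ₗ Jy, fun z hz => ?_⟩
    rw [hz, LinearMap.add_apply, LinearMap.comp_apply, ← hx z hz, ← hy z hz]

theorem iter_mul' {F : Type} [Group F] (τ : F →* F) (n : ℕ) (g h : F) :
    τ^[n] (g * h) = τ^[n] g * τ^[n] h := iterate_map_mul τ n g h

theorem iter_one' {F : Type} [Group F] (τ : F →* F) (n : ℕ) :
    τ^[n] (1 : F) = 1 := iterate_map_one τ n

/-- One more layer. -/
theorem layer {X : Type} (τ : FreeGroup (Fin m) →* FreeGroup (Fin m))
    (lo : FreeGroup (Fin m) → X) (α : X → Module.End A V) (h1 : α (lo 1) = 1)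
    (z : FreeGroup (Fin m) → V) (hz : ∀ g h, z (g * h) = z g + α (lo g) (z h)) (n0 r0 a b : ℕ)
    (hlo : ∀ g, lo (τ^[n0 + r0] g) = lo (τ^[n0] g))
    (hW : ∀ W : Module.End A (Fin m → V), W ^ (a + b) = W ^ a) (g : FreeGroup (Fin m)) :
    z (τ^[n0 + (a + b) * r0] g) = z (τ^[n0 + a * r0] g) := by
  have hlo' : ∀ k g, lo (τ^[n0 + k * r0] g) = lo (τ^[n0] g) := by
    intro k
    induction k with
    | zero => intro g; rw [zero_mul, add_zero]
    | succ k ih =>
      intro g
      have e : n0 + (k + 1) * r0 = (n0 + r0) + k * r0 := by ring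
      rw [e, Function.iterate_add_apply, hlo, ← Function.iterate_add_apply, ih]
  have h1' : α (lo (τ^[n0] 1)) = 1 := by rw [iter_one', h1]
  choose J hJ using fun w => exists_lin (fun g => α (lo (τ^[n0] g))) h1' w
  have hder : ∀ k, ∀ g h, z (τ^[n0 + k * r0] (g * h)) = z (τ^[n0 + k * r0] g)
      + α (lo (τ^[n0] g)) (z (τ^[n0 + k * r0] h)) := by
    intro k g h
    rw [iter_mul', hz, hlo']
  let W : Module.End A (Fin m → V) := LinearMap.pi (fun i => J (τ^[r0] (FreeGroup.of i)))
  have hstep : ∀ k, (fun i => z (τ^[n0 + (k + 1) * r0] (FreeGroup.of i)))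
      = W (fun i => z (τ^[n0 + k * r0] (FreeGroup.of i))) := by
    intro k
    funext i
    have e : n0 + (k + 1) * r0 = (n0 + k * r0) + r0 := by ring
    rw [e, Function.iterate_add_apply]
    exact hJ (τ^[r0] (FreeGroup.of i)) (fun g => z (τ^[n0 + k * r0] g)) (hder k)
  have hpow : ∀ k, (fun i => z (τ^[n0 + k * r0] (FreeGroup.of i)))
      = (W ^ k) (fun i => z (τ^[n0 + 0 * r0] (FreeGroup.of i))) := by
    intro k
    induction k with
    | zero => rw [pow_zero]; rfl
    | succ k ih => rw [hstep, ih, pow_succ', Module.End.mul_apply]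
  have hend : (fun i => z (τ^[n0 + (a + b) * r0] (FreeGroup.of i)))
      = (fun i => z (τ^[n0 + a * r0] (FreeGroup.of i))) := by
    rw [hpow, hpow a, hW]
  rw [hJ g (fun g => z (τ^[n0 + (a + b) * r0] g)) (hder _),
    hJ g (fun g => z (τ^[n0 + a * r0] g)) (hder _)]
  exact congrArg _ hend

end deriv

end Pool.Agent.LibLPres
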