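import Pool.Agent.LibLPres.FromRels

set_option autoImplicit false
set_option linter.unusedSectionVars false

namespace Pool.Agent.LibLPres

open Multiplicative

section zeta

variable {G : Type} [Group G] {a c z y : G}

theorem zeta_eq (ac : Commute a c) (zy : Commute z y)
    (h : Commute (z * a) (y * c)) : z⁻¹ * c * z * c⁻¹ = y⁻¹ * a * y * a⁻¹ := by
  have h1 : z * a * (y * c) = y * c * (z * a) := h
  have h2 : z * (a * y * c) = z * (y * (z⁻¹ * c * z) * a) := by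
    calc z * (a * y * c) = z * a * (y * c) := by group
      _ = y * c * (z * a) := h1
      _ = y * (z * z⁻¹) * c * (z * a) := by group
      _ = (y * z) * (z⁻¹ * c * z) * a := by group
      _ = (z * y) * (z⁻¹ * c * z) * a := by rw [zy.eq]
      _ = _ := by group
  have h3 : a * y * c = y * (z⁻¹ * c * z) * a := mul_left_cancel h2
  have h4 : y⁻¹ * a * y = (z⁻¹ * c * z) * a * c⁻¹ := by
    calc y⁻¹ * a * y = y⁻¹ * (a * y * c) * c⁻¹ := by group
      _ = y⁻¹ * (y * (z⁻¹ * c * z) * a) * c⁻¹ := by rw [h3]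
      _ = _ := by group
  have h5 : a * c⁻¹ = c⁻¹ * a := ac.inv_right.eq
  calc z⁻¹ * c * z * c⁻¹ = (z⁻¹ * c * z) * (c⁻¹ * a) * a⁻¹ := by group
    _ = (z⁻¹ * c * z) * (a * c⁻¹) * a⁻¹ := by rw [h5]
    _ = ((z⁻¹ * c * z) * a * c⁻¹) * a⁻¹ := by group
    _ = (y⁻¹ * a * y) * a⁻¹ := by rw [h4]

theorem zeta_cube (ac : Commute a c) (za : Commute z a) (yc : Commute y c) (zy : Commute z y)
    (h : Commute (z * a) (y * c)) (hz : z ^ 3 = 1) : Commute (c ^ 3) z := by
  have e := zeta_eq ac zy h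
  set ζ := z⁻¹ * c * z * c⁻¹ with hζ
  have cζ : Commute c ζ := by
    rw [e]
    exact (((yc.symm.inv_right).mul_right ac.symm).mul_right yc.symm).mul_right ac.symm.inv_right
  have zζ : Commute z ζ := by
    rw [e]
    exact (((zy.inv_right).mul_right za).mul_right zy).mul_right za.inv_right
  have h1 : c * z * c⁻¹ = z * ζ := by rw [hζ]; group
  have h2 : (c * z * c⁻¹) ^ 3 = 1 := by
    rw [conj_pow, hz]; group
  have h3 : ζ ^ 3 = 1 := by
    rw [h1, zζ.mul_pow, hz, one_mul] at h2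
    exact h2
  have h4 : c * z = z * (ζ * c) := by
    have : c * z = (c * z * c⁻¹) * c := by group
    rw [this, h1]; group
  have h5 : c ^ 3 * z = z * c ^ 3 := by
    have k1 : c * (z * (ζ * c)) = z * (ζ * ζ * c * c) := by
      calc c * (z * (ζ * c)) = (c * z) * ζ * c := by group
        _ = z * ζ * (c * ζ) * c := by rw [h4]; group
        _ = z * ζ * (ζ * c) * c := by rw [cζ.eq]
        _ = _ := by group
    have k2 : c * (z * (ζ * ζ * c * c)) = z * (ζ ^ 3 * c ^ 3) := by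
      calc c * (z * (ζ * ζ * c * c)) = (c * z) * ζ * ζ * c * c := by group
        _ = z * ζ * (c * ζ) * ζ * c * c := by rw [h4]; group
        _ = z * ζ * (ζ * c) * ζ * c * c := by rw [cζ.eq]
        _ = z * ζ * ζ * (c * ζ) * c * c := by group
        _ = z * ζ * ζ * (ζ * c) * c * c := by rw [cζ.eq]
        _ = _ := by
          have : ζ ^ 3 = ζ * ζ * ζ := by rw [pow_succ, pow_two]
          have h' : c ^ 3 = c * c * c := by rw [pow_succ, pow_two]
          rw [this, h']; group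
    calc c ^ 3 * z = c * (c * (c * z)) := by
          have h' : c ^ 3 = c * c * c := by rw [pow_succ, pow_two]
          rw [h']; group
      _ = z * (ζ ^ 3 * c ^ 3) := by rw [h4, k1, k2]
      _ = z * c ^ 3 := by rw [h3, one_mul]
  exact h5

theorem zeta_one (ac : Commute a c) (zy : Commute z y)
    (h : Commute (z * a) (y * c)) (hcz : Commute c z) : Commute a y := by
  have e := zeta_eq ac zy h
  have h1 : z⁻¹ * c * z * c⁻¹ = 1 := by
    rw [mul_assoc z⁻¹, hcz.eq]; group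
  rw [h1] at e
  have h2 : a * y = y * a := by
    calc a * y = y * (y⁻¹ * a * y * a⁻¹) * a := by group
      _ = y * a := by rw [← e]; group
  exact h2

end zeta

/-- The injective endomorphism of the base group. -/
noncomputable def Psi (D : ℕ) : Hc D →* Hc D :=
  MonoidHom.mk' (fun h => ⟨sig3 D h.r1, sig3 D h.r2, 3 * sigR D h.c1, 3 * sigR D h.c2,
    sigR D h.e, sigP D h.u, sigP D h.w⟩) (by
    intro g h
    ext
    · simp only [KG.mul_r1, map_add, sig3_smul, sigR_cf, map_inv]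
    · simp only [KG.mul_r2, map_add, sig3_smul, map_mul, sigR_cf, map_inv]
    · simp only [KG.mul_c1, map_add, smul_eq_mul, map_mul, sigR_cf]; ring
    · simp only [KG.mul_c2, map_add, smul_eq_mul, map_mul, sigR_cf]; ring
    · simp only [KG.mul_e, map_add, map_mul, sigR_cf, map_inv]
    · simp only [KG.mul_u, map_mul]
    · simp only [KG.mul_w, map_mul])

theorem Psi_apply {D : ℕ} (h : Hc D) : Psi D h = ⟨sig3 D h.r1, sig3 D h.r2, 3 * sigR D h.c1,
    3 * sigR D h.c2, sigR D h.e, sigP D h.u, sigP D h.w⟩ := rfl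

theorem Psi_injective (D : ℕ) : Function.Injective (Psi D) := by
  intro g h hgh
  rw [Psi_apply, Psi_apply, KG.mk.injEq] at hgh
  obtain ⟨h1, h2, h3, h4, h5, h6, h7⟩ := hgh
  apply KG.ext
  · exact sig3_injective D h1
  · exact sig3_injective D h2
  · exact sigR_injective D (mul_left_cancel₀ three_ne_zero' h3)
  · exact sigR_injective D (mul_left_cancel₀ three_ne_zero' h4)
  · exact sigR_injective D h5
  · exact sigP_injective D h6
  · exact sigP_injective D h7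

section

variable {D : ℕ} {G : Type} [Group G] {a b c t : G} {p q : Bool × Fin D → G}

namespace Rels

theorem t_T2 (R : Rels D a b c t p q) (u : PP D) : t * R.T2 u * t⁻¹ = R.T2 (sigP D u) := by
  have h : (MulAut.conj t).toMonoidHom.comp R.T2 = R.T2.comp (sigP D) := by
    apply torHom_ext
    intro b i
    cases b
    · change t * R.T2 (gen false i) * t⁻¹ = R.T2 (sigP D (gen false i))
      rw [sigP_gen_false, map_mul, map_inv, R.T2_gen (false, i), R.T2_gen (true, i)]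
      exact R.tp0 i
    · change t * R.T2 (gen true i) * t⁻¹ = R.T2 (sigP D (gen true i))
      rw [sigP_gen_true, map_inv, R.T2_gen (true, i), R.T2_gen (false, i)]
      exact R.tp1 i
  exact DFunLike.congr_fun h u

theorem t_T3 (R : Rels D a b c t p q) (u : PP D) : t * R.T3 u * t⁻¹ = R.T3 (sigP D u) := by
  have h : (MulAut.conj t).toMonoidHom.comp R.T3 = R.T3.comp (sigP D) := by
    apply torHom_ext
    intro b i
    cases b
    · change t * R.T3 (gen false i) * t⁻¹ = R.T3 (sigP D (gen false i))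
      rw [sigP_gen_false, map_mul, map_inv, R.T3_gen (false, i), R.T3_gen (true, i)]
      exact R.tq0 i
    · change t * R.T3 (gen true i) * t⁻¹ = R.T3 (sigP D (gen true i))
      rw [sigP_gen_true, map_inv, R.T3_gen (true, i), R.T3_gen (false, i)]
      exact R.tq1 i
  exact DFunLike.congr_fun h u

theorem z3 (R : Rels D a b c t p q) : (b * a * b⁻¹ * a⁻¹) ^ 3 = 1 := by
  have h1 : (b * a * b⁻¹) ^ 3 = 1 := by rw [conj_pow, R.a3]; group
  have h2 : b * a * b⁻¹ = (b * a * b⁻¹ * a⁻¹) * a := by group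
  rw [h2, R.za.mul_pow, R.a3, mul_one] at h1
  exact h1

theorem t_z (R : Rels D a b c t p q) : t * (b * a * b⁻¹ * a⁻¹) * t⁻¹ = b * a * b⁻¹ * a⁻¹ := by
  calc t * (b * a * b⁻¹ * a⁻¹) * t⁻¹ = (t * b * t⁻¹) * (t * a * t⁻¹) * (t * b * t⁻¹)⁻¹ *
        (t * a * t⁻¹)⁻¹ := by group
    _ = _ := by rw [R.ta, R.tb]

theorem t_y (R : Rels D a b c t p q) :
    t * (b * c * b⁻¹ * c⁻¹) * t⁻¹ = (b * c * b⁻¹ * c⁻¹) ^ 3 := by
  have h2 : b * c * b⁻¹ = (b * c * b⁻¹ * c⁻¹) * c := by group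
  calc t * (b * c * b⁻¹ * c⁻¹) * t⁻¹ = (t * b * t⁻¹) * (t * c * t⁻¹) * (t * b * t⁻¹)⁻¹ *
        (t * c * t⁻¹)⁻¹ := by group
    _ = (b * c ^ 3 * b⁻¹) * (c ^ 3)⁻¹ := by rw [R.tc, R.tb]
    _ = (b * c * b⁻¹) ^ 3 * (c ^ 3)⁻¹ := by rw [conj_pow]
    _ = ((b * c * b⁻¹ * c⁻¹) * c) ^ 3 * (c ^ 3)⁻¹ := by rw [← h2]
    _ = _ := by rw [R.yc.mul_pow]; group

theorem t_zw (R : Rels D a b c t p q) (w : PP D) :
    t * cj (invHom R.T3) (b * a * b⁻¹ * a⁻¹) w * t⁻¹
      = cj (invHom R.T3) (b * a * b⁻¹ * a⁻¹) (sigP D w) := by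
  rw [cj, cj, invHom_apply, invHom_apply, inv_inv, inv_inv, ← R.t_T3]
  calc t * ((R.T3 w)⁻¹ * (b * a * b⁻¹ * a⁻¹) * R.T3 w) * t⁻¹
      = (t * R.T3 w * t⁻¹)⁻¹ * (t * (b * a * b⁻¹ * a⁻¹) * t⁻¹) * (t * R.T3 w * t⁻¹) := by group
    _ = _ := by rw [R.t_z]

/-- The main consequence of the relations. -/
theorem exists_kit (R : Rels D a b c t p q) : ∃ K : Kit D G,
    (∀ u, K.Ea (ofAdd (Ideal.Quotient.mk _ (cf (upsR D) u))) = cj (invHom R.T2) a u) ∧
    (∀ u, K.Ez (ofAdd (Ideal.Quotient.mk _ (cf (upsR D) u)))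
      = cj (invHom R.T3) (b * a * b⁻¹ * a⁻¹) u) ∧
    (∀ u, K.Eb (ofAdd (cf (upsR D) u)) = cj R.T2 b u) ∧
    (∀ u, K.Ec (ofAdd (cf (upsR D) u)) = cj R.T3 c u) ∧
    (∀ u, K.Ey (ofAdd (cf (upsR D) u)) = cj R.T2 (b * c * b⁻¹ * c⁻¹) u) ∧
    K.T2 = R.T2 ∧ K.T3 = R.T3 := by
  have HR := R.halfRow
  have HC := R.halfCol
  obtain ⟨Ea0, hEa0⟩ := exists_hom_cj (invHom R.T2) a HR.ra HR.ba
  obtain ⟨Eb, hEb⟩ := exists_hom_cj R.T2 b HC.rb HC.bb
  obtain ⟨Ec, hEc⟩ := exists_hom_cj R.T3 c HC.ra HC.ba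
  obtain ⟨Ez0, HO⟩ := half_out (invHom R.T2) (invHom R.T3) a b HR Ea0 Eb hEa0
    (fun u => by rw [hEb, R.cj_b])
  obtain ⟨Ey, HO2⟩ := half_out R.T3 R.T2 c b HC Ec Eb hEc hEb
  have hcube : ∀ (T : PP D →* G) (g : G), g ^ 3 = 1 → ∀ u, cj T g u ^ 3 = 1 := by
    intro T g hg u
    rw [cj, conj_pow, hg]; group
  obtain ⟨Ea, hEa⟩ := exists_mod3 Ea0 (fun u => by rw [hEa0]; exact hcube _ _ R.a3 u)
  obtain ⟨Ez, hEz⟩ := exists_mod3 Ez0 (fun u => by rw [HO.ez]; exact hcube _ _ R.z3 u)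
  have hcf1 : cf (upsR D) 1 = 1 := cf_one _
  -- values at one
  have hEa1 : Ea0 (ofAdd 1) = a := by rw [← hcf1, hEa0, cj_one]
  have hEc1 : Ec (ofAdd 1) = c := by rw [← hcf1, hEc, cj_one]
  -- the key commutation
  have key : ∀ w, Commute (cj (invHom R.T3) (b * a * b⁻¹ * a⁻¹) w * a)
      (cj R.T2 (b * c * b⁻¹ * c⁻¹) w * c) := by
    intro w
    have h1 := HO.ab (cf (upsR D) w) 1
    have h2 := HO2.ab (cf (upsR D) w) 1
    rw [mul_one, hEa1, HO.ez] at h1
    rw [mul_one, hEc1, HO2.ez] at h2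
    rw [← h1, ← h2]
    exact (Commute.conj_iff _).mpr R.ac
  have zwa : ∀ w, Commute (cj (invHom R.T3) (b * a * b⁻¹ * a⁻¹) w) a := by
    intro w
    have := HO.za (cf (upsR D) w) 1
    rwa [HO.ez, hEa1] at this
  have ywc : ∀ w, Commute (cj R.T2 (b * c * b⁻¹ * c⁻¹) w) c := by
    intro w
    have := HO2.za (cf (upsR D) w) 1
    rwa [HO2.ez, hEc1] at this
  have cz : ∀ u, Commute (cj R.T2 c u) (cj R.T2 c u) := fun _ => Commute.refl _
  have t3y : ∀ u, Commute (b * c * b⁻¹ * c⁻¹) (R.T3 u) := HC.zT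
  have t2z : ∀ u, Commute (b * a * b⁻¹ * a⁻¹) (R.T2 u) := by
    intro u
    have := HR.zT u⁻¹
    rwa [invHom_apply, map_inv, inv_inv] at this
  have t3a : ∀ u, Commute a (R.T3 u) := by
    intro u
    have := HR.aT u⁻¹
    rwa [invHom_apply, map_inv, inv_inv] at this
  have t2c : ∀ u, Commute c (R.T2 u) := HC.aT
  -- commutation of conjugates under independent tori
  have four : ∀ (g1 h1 g2 h2 : G), Commute g1 g2 → Commute g1 h2 → Commute h1 g2 → Commute h1 h2 →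
      Commute (g1 * h1 * g1⁻¹) (g2 * h2 * g2⁻¹) := by
    intro g1 h1 g2 h2 k1 k2 k3 k4
    exact (((k1.mul_right k2).mul_right k1.inv_right).mul_left
      ((k3.mul_right k4).mul_right k3.inv_right)).mul_left
      ((k1.mul_right k2).mul_right k1.inv_right).inv_left
  have zy : ∀ u w, Commute (cj (invHom R.T3) (b * a * b⁻¹ * a⁻¹) u)
      (cj R.T2 (b * c * b⁻¹ * c⁻¹) w) := by
    intro u w
    rw [cj, cj, invHom_apply]
    exact four _ _ _ _ (R.t23 w u).symm.inv_left (t3y u).symm.inv_left (t2z w) R.zy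
  have c3z : ∀ w, Commute (c ^ 3) (cj (invHom R.T3) (b * a * b⁻¹ * a⁻¹) w) := by
    intro w
    exact zeta_cube R.ac (zwa w) (ywc w) (zy w w) (key w) (hcube _ _ R.z3 w)
  have czw : ∀ w, Commute c (cj (invHom R.T3) (b * a * b⁻¹ * a⁻¹) w) := by
    intro w
    have h1 := c3z (sigP D w)
    rw [← R.tc, ← R.t_zw] at h1
    exact (Commute.conj_iff _).mp h1
  have ayw : ∀ w, Commute a (cj R.T2 (b * c * b⁻¹ * c⁻¹) w) := by
    intro w
    exact zeta_one R.ac (zy w w) (key w) (czw w)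
  have mk_surj : Function.Surjective (Ideal.Quotient.mk (Ideal.span {(3 : RR D)})) :=
    Ideal.Quotient.mk_surjective
  have hsm : ∀ s r : RR D, s • (Ideal.Quotient.mk (Ideal.span {(3 : RR D)}) r)
      = Ideal.Quotient.mk (Ideal.span {(3 : RR D)}) (s * r) := fun _ _ => rfl
  refine ⟨{
    Ea := Ea
    Ez := Ez
    Ec := Ec
    Ey := Ey
    Eb := Eb
    T2 := R.T2
    T3 := R.T3
    az := ?_
    cy := fun r s => (HO2.za s r).symm
    ac := ?_
    ay := ?_
    zc := ?_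
    zy := ?_
    t23 := R.t23
    ba := ?_
    bz := ?_
    bc := HO2.ab
    bY := ?_
    t2a := ?_
    t2z := ?_
    t2c := ?_
    t2y := HO2.t2z
    t2b := HO2.t2b
    t3a := ?_
    t3z := ?_
    t3c := HO2.t1a
    t3y := HO2.t1z
    t3b := HO2.t1b }, ?_, ?_, ?_, ?_, ?_, rfl, rfl⟩
  · intro r s
    obtain ⟨r, rfl⟩ := mk_surj r
    obtain ⟨s, rfl⟩ := mk_surj s
    rw [hEa, hEz]; exact (HO.za s r).symm
  · intro r s
    obtain ⟨r, rfl⟩ := mk_surj r
    rw [hEa]
    apply commute_cf2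
    intro u v
    rw [hEa0, hEc, cj, cj, invHom_apply]
    exact four _ _ _ _ (R.t23 u v).inv_left (t2c u).symm.inv_left (t3a v) R.ac
  · intro r s
    obtain ⟨r, rfl⟩ := mk_surj r
    rw [hEa]
    apply commute_cf2
    intro u v
    rw [hEa0, HO2.ez]
    have h1 := ayw (u * v)
    have h2 : cj R.T2 (b * c * b⁻¹ * c⁻¹) v
        = invHom R.T2 u * cj R.T2 (b * c * b⁻¹ * c⁻¹) (u * v) * (invHom R.T2 u)⁻¹ := by
      rw [cj_mul, invHom_apply]; group
    rw [h2, cj]
    exact (Commute.conj_iff _).mpr h1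
  · intro r s
    obtain ⟨r, rfl⟩ := mk_surj r
    rw [hEz]
    apply commute_cf2
    intro u v
    rw [HO.ez, hEc]
    have h1 := (czw (v * u)).symm
    have h2 : cj (invHom R.T3) (b * a * b⁻¹ * a⁻¹) u
        = R.T3 v * cj (invHom R.T3) (b * a * b⁻¹ * a⁻¹) (v * u) * (R.T3 v)⁻¹ := by
      rw [cj_mul, invHom_apply]; group
    rw [h2]
    exact (Commute.conj_iff _).mpr h1
  · intro r s
    obtain ⟨r, rfl⟩ := mk_surj r
    rw [hEz]
    apply commute_cf2
    intro u v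
    rw [HO.ez, HO2.ez]
    exact zy u v
  · intro s r
    obtain ⟨r, rfl⟩ := mk_surj r
    rw [hsm, hEa, hEz]; exact HO.ab s r
  · intro s r
    obtain ⟨r, rfl⟩ := mk_surj r
    rw [hEz, ← (HO.zb r s).eq]; group
  · intro s r
    rw [← (HO2.zb r s).eq]; group
  · intro v r
    obtain ⟨r, rfl⟩ := mk_surj r
    rw [hsm, hEa, hEa]
    have := HO.t1a v⁻¹ r
    rwa [invHom_apply, map_inv, inv_inv] at this
  · intro v r
    obtain ⟨r, rfl⟩ := mk_surj r
    rw [hEz]
    have := HO.t1z v⁻¹ r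
    rwa [invHom_apply, map_inv, inv_inv] at this
  · exact HO2.t2a
  · intro v r
    obtain ⟨r, rfl⟩ := mk_surj r
    rw [hEa]
    have := HO.t2a v⁻¹ r
    rwa [invHom_apply, map_inv, inv_inv] at this
  · intro v r
    obtain ⟨r, rfl⟩ := mk_surj r
    rw [hsm, hEz, hEz]
    have := HO.t2z v⁻¹ r
    rwa [invHom_apply, map_inv, inv_inv] at this
  · intro u; rw [hEa, hEa0]
  · intro u; rw [hEz, HO.ez]
  · exact hEb
  · exact hEc
  · exact HO2.ez

end Rels

end

end Pool.Agent.LibLPres
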