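import Pool.Agent.LibLPres.Struct
import Pool.Agent.LibLPres.HG

set_option autoImplicit false
set_option linter.unusedSectionVars false

namespace Pool.Agent.LibLPres

section

variable {D : ℕ} {L : Type} [Group L]

/-- The first coordinate of the derivation. -/
noncomputable def dl1 (x : RR D) (h0 h : Hc D) : RR D :=
  (x - 1) * h.c1 - (cf (upsR D) h.w - 1) * h0.c1

/-- The second coordinate of the derivation. -/
noncomputable def dl2 (x : RR D) (h0 h : Hc D) : RR D :=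
  (x - 1) * h.c2 - ((cf (upsR D) h.u - 1) * h0.c2 + h.e * cf (upsR D) h.w * h0.c1)

theorem dl1_mul (x : RR D) (h0 g h : Hc D) :
    dl1 x h0 (g * h) = dl1 x h0 g + cf (upsR D) g.w * dl1 x h0 h := by
  simp only [dl1, KG.mul_c1, KG.mul_w, cf_mul, smul_eq_mul]; ring

theorem dl2_mul (x : RR D) (h0 g h : Hc D) :
    dl2 x h0 (g * h) = dl2 x h0 g + cf (upsR D) g.u * dl2 x h0 h
      + (g.e * cf (upsR D) g.w) * dl1 x h0 h := by
  have h1 := cf_inv_mul (upsR D) g.w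
  simp only [dl1, dl2, KG.mul_c2, KG.mul_w, KG.mul_u, KG.mul_e, cf_mul, smul_eq_mul]
  linear_combination (-(cf (upsR D) g.u * h.e * cf (upsR D) h.w * h0.c1)) * h1

/-- The derivation is the column of a commutator. -/
theorem comm_col {h0 h : Hc D} {g0 : PP D} (he : h0.e = 0) (hu : h0.u = g0) (hw : h0.w = g0) :
    (h0 * h * (h * h0)⁻¹).e = 0 ∧ (h0 * h * (h * h0)⁻¹).u = 1 ∧ (h0 * h * (h * h0)⁻¹).w = 1 ∧
    (h0 * h * (h * h0)⁻¹).c1 = dl1 (cf (upsR D) g0) h0 h ∧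
    (h0 * h * (h * h0)⁻¹).c2 = dl2 (cf (upsR D) g0) h0 h := by
  have h1 := cf_mul_inv (upsR D) g0
  set k := h0 * h * (h * h0)⁻¹ with hk
  have hkk : k * (h * h0) = h0 * h := by rw [hk]; group
  have eu : k.u = 1 := by
    have h2 : k.u * (h.u * h0.u) = h0.u * h.u := congrArg KG.u hkk
    rw [mul_comm h.u] at h2
    exact mul_eq_right.mp h2
  have ew : k.w = 1 := by
    have h2 : k.w * (h.w * h0.w) = h0.w * h.w := congrArg KG.w hkk
    rw [mul_comm h.w] at h2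
    exact mul_eq_right.mp h2
  have ee : k.e = 0 := by
    have := congrArg KG.e hkk
    simp only [KG.mul_e, eu, ew, he, hu, hw, cf_one, inv_one, mul_zero,
      add_zero, zero_add, one_mul] at this
    linear_combination this + h.e * h1
  have e1 : k.c1 = dl1 (cf (upsR D) g0) h0 h := by
    have := congrArg KG.c1 hkk
    simp only [KG.mul_c1, ew, hw, cf_one, smul_eq_mul, one_mul] at this
    rw [dl1]
    linear_combination this
  have e2 : k.c2 = dl2 (cf (upsR D) g0) h0 h := by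
    have := congrArg KG.c2 hkk
    simp only [KG.mul_c2, KG.mul_c1, ew, eu, ee, he, hu, cf_one, smul_eq_mul, one_mul, zero_mul,
      add_zero] at this
    rw [dl2]
    linear_combination this
  exact ⟨ee, eu, ew, e1, e2⟩

theorem exists_mu (i0 : Fin D) (J : L →* Hc D)
    (h0 : ∃ l, (J l).e = 0 ∧ (J l).u = gen false i0 ∧ (J l).w = gen false i0)
    (h1 : ∃ l, (J l).e = 0 ∧ (J l).u = 1 ∧ (J l).w = 1 ∧ ∃ (n : ℕ) (v : RR D), IsUnit v ∧
        (J l).c1 = 3 ^ n * v) :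
    ∃ (μ : L →* Hc D) (ρ1 ρ2 : RR D), ¬ (3 ∣ ρ1 ∧ 3 ∣ ρ2) ∧
      (∀ l x y, J l = rowE x y → μ l = rowE x y) ∧
      ∃ l, (J l).e = 0 ∧ (J l).u = 1 ∧ (J l).w = 1 ∧
        (μ l).e = 0 ∧ (μ l).u = 1 ∧ (μ l).w = 1 ∧
        (μ l).c1 = (xR i0 - 1) * ρ1 ∧ (μ l).c2 = (xR i0 - 1) * ρ2 := by
  classical
  obtain ⟨l0, he, hu, hw⟩ := h0
  have hex : ∃ k : ℕ, ∃ l, (J l).e = 0 ∧ (J l).u = 1 ∧ (J l).w = 1 ∧
      ¬ (3 ^ (k + 1) ∣ (J l).c1 ∧ 3 ^ (k + 1) ∣ (J l).c2) := by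
    obtain ⟨l, k1, k2, k3, n, v, hv, hc⟩ := h1
    refine ⟨n, l, k1, k2, k3, ?_⟩
    rintro ⟨⟨d, hd⟩, -⟩
    rw [hc, pow_succ, mul_assoc] at hd
    have h3 := mul_left_cancel₀ (pow_ne_zero n (three_ne_zero' (D := D))) hd
    apply not_isUnit_three (D := D)
    rw [h3] at hv
    exact isUnit_of_mul_isUnit_left hv
  set k := Nat.find hex with hk
  obtain ⟨l1, e1, e2, e3, hnd⟩ := Nat.find_spec hex
  rw [← hk] at hnd
  have hmin : ∀ l, (J l).e = 0 → (J l).u = 1 → (J l).w = 1 →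
      3 ^ k ∣ (J l).c1 ∧ 3 ^ k ∣ (J l).c2 := by
    intro l a1 a2 a3
    by_cases h : k = 0
    · rw [h, pow_zero]; exact ⟨one_dvd _, one_dvd _⟩
    · obtain ⟨k', hk'⟩ := Nat.exists_eq_succ_of_ne_zero h
      have := Nat.find_min hex (m := k') (by omega)
      push Not at this
      have h2 := this l a1 a2 a3
      rw [hk']
      exact h2
  have hdl : ∀ l, 3 ^ k ∣ dl1 (xR i0) (J l0) (J l) ∧ 3 ^ k ∣ dl2 (xR i0) (J l0) (J l) := by
    intro l
    obtain ⟨a1, a2, a3, a4, a5⟩ := comm_col (h := J l) he hu hw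
    rw [cf_gen_false] at a4 a5
    rw [← a4, ← a5]
    have hh : J (l0 * l * (l * l0)⁻¹) = J l0 * J l * (J l * J l0)⁻¹ := by
      rw [map_mul, map_inv, map_mul, map_mul]
    rw [← hh]
    apply hmin
    · rw [hh]; exact a1
    · rw [hh]; exact a2
    · rw [hh]; exact a3
  have h31 : ∀ l, ∃ d, dl1 (xR i0) (J l0) (J l) = 3 ^ k * d := fun l => (hdl l).1
  have h32 : ∀ l, ∃ d, dl2 (xR i0) (J l0) (J l) = 3 ^ k * d := fun l => (hdl l).2
  choose D1 hD1 using h31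
  choose D2 hD2 using h32
  have h3ne : (3 : RR D) ^ k ≠ 0 := pow_ne_zero k three_ne_zero'
  let μ : L →* Hc D := MonoidHom.mk' (fun l => ⟨(J l).r1, (J l).r2, D1 l, D2 l, (J l).e, (J l).u,
    (J l).w⟩) (by
      intro a b
      apply KG.ext
      · simp
      · simp
      · apply mul_left_cancel₀ h3ne
        change 3 ^ k * D1 (a * b) = 3 ^ k * (D1 a + cf (upsR D) (J a).w • D1 b)
        rw [← hD1, map_mul, dl1_mul, hD1, hD1, smul_eq_mul]; ring
      · apply mul_left_cancel₀ h3ne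
        change 3 ^ k * D2 (a * b) = 3 ^ k * (D2 a + cf (upsR D) (J a).u • D2 b
          + ((J a).e * cf (upsR D) (J a).w) • D1 b)
        rw [← hD2, map_mul, dl2_mul, hD1, hD2, hD2, smul_eq_mul, smul_eq_mul]; ring
      · simp
      · simp
      · simp)
  have hμ : ∀ l, μ l = ⟨(J l).r1, (J l).r2, D1 l, D2 l, (J l).e, (J l).u, (J l).w⟩ :=
    fun l => rfl
  obtain ⟨⟨ρ1, hρ1⟩, ⟨ρ2, hρ2⟩⟩ := hmin l1 e1 e2 e3
  refine ⟨μ, ρ1, ρ2, ?_, ?_, l1, e1, e2, e3, e1, e2, e3, ?_, ?_⟩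
  · rintro ⟨⟨a, ha⟩, ⟨b, hb⟩⟩
    apply hnd
    constructor
    · exact ⟨a, by rw [hρ1, ha, pow_succ]; ring⟩
    · exact ⟨b, by rw [hρ2, hb, pow_succ]; ring⟩
  · intro l x y hl
    have z1 : D1 l = 0 := by
      apply mul_left_cancel₀ h3ne
      rw [← hD1, hl, dl1]
      simp [rowE]
    have z2 : D2 l = 0 := by
      apply mul_left_cancel₀ h3ne
      rw [← hD2, hl, dl2]
      simp [rowE]
    rw [hμ, z1, z2, hl]; rfl
  · apply mul_left_cancel₀ h3ne
    change 3 ^ k * D1 l1 = _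
    rw [← hD1, dl1, e3, hρ1, cf_one]; ring
  · apply mul_left_cancel₀ h3ne
    change 3 ^ k * D2 l1 = _
    rw [← hD2, dl2, e3, e2, e1, hρ2, cf_one]; ring

end

section lift

variable {A : Type} [CommRing A]

/-- The base group over a ring. -/
abbrev KA (A : Type) [CommRing A] : Type := KG (MonoidHom.id Aˣ) A A

theorem cf_id (u : Aˣ) : cf (MonoidHom.id Aˣ) u = (u : A) := rfl

/-- Forget the corner. -/
def piA (A : Type) [CommRing A] : HG A →* KA A := MonoidHom.mk' (fun h => ⟨h.r1, h.r2, h.c1, h.c2,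
  h.e, h.u, h.w⟩) (by
    intro g h
    rfl)

theorem piA_apply (h : HG A) : piA A h = ⟨h.r1, h.r2, h.c1, h.c2, h.e, h.u, h.w⟩ := rfl

/-- A lift. -/
def liftA (k : KA A) : HG A := ⟨k.r1, k.r2, k.c1, k.c2, 0, k.e, k.u, k.w⟩

theorem piA_liftA (k : KA A) : piA A (liftA k) = k := rfl

/-- Elements which are purely in the corner. -/
theorem corner_of_pi {h : HG A} (hh : piA A h = 1) : h = ⟨0, 0, 0, 0, h.z, 0, 1, 1⟩ := by
  have e1 := congrArg KG.r1 hh
  have e2 := congrArg KG.r2 hh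
  have e3 := congrArg KG.c1 hh
  have e4 := congrArg KG.c2 hh
  have e5 := congrArg KG.e hh
  have e6 := congrArg KG.u hh
  have e7 := congrArg KG.w hh
  exact HG.ext e1 e2 e3 e4 rfl e5 e6 e7

theorem corner_mul (z z' : A) : (⟨0, 0, 0, 0, z, 0, 1, 1⟩ * ⟨0, 0, 0, 0, z', 0, 1, 1⟩ : HG A)
    = ⟨0, 0, 0, 0, z + z', 0, 1, 1⟩ := by
  apply HG.ext <;> simp

theorem corner_inv (z : A) : (⟨0, 0, 0, 0, z, 0, 1, 1⟩ : HG A)⁻¹
    = ⟨0, 0, 0, 0, -z, 0, 1, 1⟩ := by
  apply HG.ext <;> simp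

theorem corner_comm (z : A) (g : HG A) : g * ⟨0, 0, 0, 0, z, 0, 1, 1⟩
    = ⟨0, 0, 0, 0, z, 0, 1, 1⟩ * g := by
  apply HG.ext <;> simp [add_comm]

/-- Values of the corner on a normal closure. -/
theorem z_closure {F : Type} [Group F] (Λ : F →* HG A) (S : Set F)
    (hS : ∀ s ∈ S, piA A (Λ s) = 1) {w : F} (hw : w ∈ Subgroup.normalClosure S) :
    (Λ w).z ∈ AddSubgroup.closure ((fun v => (Λ v).z) '' S) := by
  set C := AddSubgroup.closure ((fun v => (Λ v).z) '' S) with hC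
  let N : Subgroup F :=
    { carrier := {v | piA A (Λ v) = 1 ∧ (Λ v).z ∈ C}
      one_mem' := by
        refine ⟨by simp, ?_⟩
        rw [map_one]; exact C.zero_mem
      mul_mem' := by
        rintro a b ⟨ha1, ha2⟩ ⟨hb1, hb2⟩
        refine ⟨by rw [map_mul, map_mul, ha1, hb1, one_mul], ?_⟩
        rw [map_mul, corner_of_pi ha1, corner_of_pi hb1, corner_mul]
        exact C.add_mem ha2 hb2
      inv_mem' := by
        rintro a ⟨ha1, ha2⟩
        refine ⟨by rw [map_inv, map_inv, ha1, inv_one], ?_⟩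
        rw [map_inv, corner_of_pi ha1, corner_inv]
        exact C.neg_mem ha2 }
  have hN : N.Normal := by
    refine ⟨?_⟩
    rintro a ⟨ha1, ha2⟩ g
    refine ⟨by rw [map_mul, map_mul, map_mul, map_mul, ha1, mul_one, ← map_mul, ← map_mul,
      mul_inv_cancel, map_one, map_one], ?_⟩
    have : Λ (g * a * g⁻¹) = Λ a := by
      rw [map_mul, map_mul, map_inv, corner_of_pi ha1, corner_comm, mul_inv_cancel_right]
    rw [this]; exact ha2
  have hle : Subgroup.normalClosure S ≤ N := by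
    apply Subgroup.normalClosure_le_normal
    intro s hs
    exact ⟨hS s hs, AddSubgroup.subset_closure ⟨s, hs, rfl⟩⟩
  exact (hle hw).2

end lift

section theta

variable {D : ℕ} {A : Type} [CommRing A]

/-- Reduction of the ring modulo three. -/
noncomputable def th3 (θ : RR D →+* A) (h3 : θ 3 = 0) : R3 D →+* A :=
  Ideal.Quotient.lift _ θ (by
    intro a ha
    rw [Ideal.mem_span_singleton'] at ha
    obtain ⟨b, rfl⟩ := ha
    rw [map_mul, h3, mul_zero])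

theorem th3_mk (θ : RR D →+* A) (h3 : θ 3 = 0) (r : RR D) :
    th3 θ h3 (Ideal.Quotient.mk _ r) = θ r := rfl

theorem th3_smul (θ : RR D →+* A) (h3 : θ 3 = 0) (a : RR D) (r : R3 D) :
    th3 θ h3 (a • r) = θ a * th3 θ h3 r := by
  obtain ⟨r, rfl⟩ := Ideal.Quotient.mk_surjective r
  have h1 : ∀ b s : RR D, b • (Ideal.Quotient.mk (Ideal.span {(3 : RR D)}) s)
      = Ideal.Quotient.mk (Ideal.span {(3 : RR D)}) (b * s) := fun b s => rfl
  rw [h1, th3_mk, th3_mk, map_mul]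

/-- The torus over the ring. -/
noncomputable def tA (θ : RR D →+* A) : PP D →* Aˣ := (Units.map (θ : RR D →* A)).comp (upsR D)

theorem tA_val (θ : RR D →+* A) (u : PP D) : ((tA θ u : Aˣ) : A) = θ (cf (upsR D) u) := rfl

theorem cf_tA (θ : RR D →+* A) (u : PP D) :
    cf (MonoidHom.id Aˣ) (tA θ u) = θ (cf (upsR D) u) := rfl

/-- The map of base groups. -/
noncomputable def thK (θ : RR D →+* A) (h3 : θ 3 = 0) : Hc D →* KA A :=
  MonoidHom.mk' (fun h => ⟨th3 θ h3 h.r1, th3 θ h3 h.r2, θ h.c1, θ h.c2, θ h.e, tA θ h.u,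
    tA θ h.w⟩) (by
    intro g h
    apply KG.ext
    · simp only [KG.mul_r1, map_add, th3_smul, ← cf_tA, map_inv, smul_eq_mul]
    · simp only [KG.mul_r2, map_add, th3_smul, map_mul, ← cf_tA, map_inv, smul_eq_mul]
    · simp only [KG.mul_c1, map_add, smul_eq_mul, map_mul, ← cf_tA]
    · simp only [KG.mul_c2, map_add, smul_eq_mul, map_mul, ← cf_tA]
    · simp only [KG.mul_e, map_add, map_mul, ← cf_tA, map_inv]
    · simp only [KG.mul_u, map_mul]
    · simp only [KG.mul_w, map_mul])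

theorem thK_apply (θ : RR D →+* A) (h3 : θ 3 = 0) (h : Hc D) : thK θ h3 h =
    ⟨th3 θ h3 h.r1, th3 θ h3 h.r2, θ h.c1, θ h.c2, θ h.e, tA θ h.u, tA θ h.w⟩ := rfl

end theta

/-- Commutator of a row and an element with trivial torus part. -/
theorem comm_z {A : Type} [CommRing A] {g k : HG A} (h1 : g.c1 = 0) (h2 : g.c2 = 0)
    (hu : g.u = 1) (hw : g.w = 1) (he : g.e = 0) (ku : k.u = 1) (kw : k.w = 1) (ke : k.e = 0)
    (hp : piA A (g * k * (k * g)⁻¹) = 1) :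
    (g * k * (k * g)⁻¹).z = g.r1 * k.c2 - g.r2 * k.c1 := by
  have h := corner_of_pi hp
  set d := g * k * (k * g)⁻¹ with hd
  have h3 : d * (k * g) = g * k := by rw [hd]; group
  rw [h] at h3
  have h4 := congrArg HG.z h3
  simp only [HG.mul_z, HG.mul_r1, HG.mul_r2, h1, h2, hu, hw, he, ku, kw, ke, inv_one,
    Units.val_one, one_mul, mul_zero, zero_mul, add_zero, sub_zero] at h4
  linear_combination h4

/-- The lifting lemma. -/
theorem exists_rho {D : ℕ} {L : Type} [Group L] (i0 : Fin D) (J : L →* Hc D)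
    (hJ : Function.Injective J) (hrow : ∀ x y, ∃ l, J l = rowE x y)
    (h0 : ∃ l, (J l).e = 0 ∧ (J l).u = gen false i0 ∧ (J l).w = gen false i0)
    (h1 : ∃ l, (J l).e = 0 ∧ (J l).u = 1 ∧ (J l).w = 1 ∧ ∃ (n : ℕ) (v : RR D), IsUnit v ∧
        (J l).c1 = 3 ^ n * v)
    {m : ℕ} (f0 : FreeGroup (Fin m) →* L) (hf0 : Function.Surjective f0)
    (S : Set (FreeGroup (Fin m))) (hS : f0.ker = Subgroup.normalClosure S) :
    ∃ ρ : RR D, ¬ 3 ∣ ρ ∧ ∀ (A : Type) (_ : CommRing A) (θ : RR D →+* A), θ 3 = 0 →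
      ∃ Λ : FreeGroup (Fin m) →* HG A, ∀ v : RR D,
        θ (v * ((xR i0 - 1) * ρ)) ∈ AddSubgroup.closure ((fun w => (Λ w).z) '' S) := by
  obtain ⟨μ, ρ1, ρ2, hρ, hμ, l1, e1, e2, e3, m1, m2, m3, m4, m5⟩ := exists_mu i0 J h0 h1
  -- the kernel
  have key : ∀ (A : Type) (_ : CommRing A) (θ : RR D →+* A) (h3 : θ 3 = 0),
      ∃ Λ : FreeGroup (Fin m) →* HG A, (∀ x y : R3 D,
        th3 θ h3 x * θ ((xR i0 - 1) * ρ2) - th3 θ h3 y * θ ((xR i0 - 1) * ρ1) ∈
          AddSubgroup.closure ((fun w => (Λ w).z) '' S)) := by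
    intro A _ θ h3
    let Λ : FreeGroup (Fin m) →* HG A :=
      FreeGroup.lift (fun i => liftA (thK θ h3 (μ (f0 (FreeGroup.of i)))))
    have hΛ : (piA A).comp Λ = (thK θ h3).comp (μ.comp f0) := by
      apply FreeGroup.ext_hom
      intro i
      change piA A (Λ (FreeGroup.of i)) = thK θ h3 (μ (f0 (FreeGroup.of i)))
      rw [FreeGroup.lift_apply_of, piA_liftA]
    have hΛ' : ∀ w, piA A (Λ w) = thK θ h3 (μ (f0 w)) := fun w => DFunLike.congr_fun hΛ w
    refine ⟨Λ, ?_⟩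
    intro x y
    obtain ⟨lr, hlr⟩ := hrow x y
    obtain ⟨wr, rfl⟩ := hf0 lr
    obtain ⟨w1, rfl⟩ := hf0 l1
    have hcomm : wr * w1 * (w1 * wr)⁻¹ ∈ Subgroup.normalClosure S := by
      rw [← hS, MonoidHom.mem_ker, map_mul, map_inv, mul_inv_eq_one]
      apply hJ
      rw [map_mul, map_mul, map_mul, map_mul, hlr]
      apply KG.ext
      · simp [rowE, e2, add_comm]
      · simp [rowE, e1, e3, add_comm]
      · simp [rowE]
      · simp [rowE]
      · simp [rowE]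
      · simp [rowE]
      · simp [rowE]
    have hz := z_closure Λ S (fun s hs => by
      have : f0 s = 1 := by
        rw [← MonoidHom.mem_ker, hS]; exact Subgroup.subset_normalClosure hs
      rw [hΛ', this, map_one, map_one]) hcomm
    have hp : piA A (Λ (wr * w1 * (w1 * wr)⁻¹)) = 1 := by
      have : f0 (wr * w1 * (w1 * wr)⁻¹) = 1 := by
        rw [← MonoidHom.mem_ker, hS]; exact hcomm
      rw [hΛ', this, map_one, map_one]
    have hr := hΛ' wr
    rw [hμ _ _ _ hlr] at hr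
    have hk := hΛ' w1
    have hmm : Λ (wr * w1 * (w1 * wr)⁻¹) = Λ wr * Λ w1 * (Λ w1 * Λ wr)⁻¹ := by
      rw [map_mul, map_inv, map_mul, map_mul]
    rw [hmm] at hz hp
    have r1 := congrArg KG.r1 hr
    have r2 := congrArg KG.r2 hr
    have r3 := congrArg KG.c1 hr
    have r4 := congrArg KG.c2 hr
    have r5 := congrArg KG.e hr
    have r6 := congrArg KG.u hr
    have r7 := congrArg KG.w hr
    have k3 := congrArg KG.c1 hk
    have k4 := congrArg KG.c2 hk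
    have k5 := congrArg KG.e hk
    have k6 := congrArg KG.u hk
    have k7 := congrArg KG.w hk
    simp only [piA_apply, thK_apply, rowE, map_zero, map_one, m1, m2, m3, m4, m5]
      at r1 r2 r3 r4 r5 r6 r7 k3 k4 k5 k6 k7
    rw [comm_z r3 r4 r6 r7 r5 k6 k7 k5 hp, r1, r2, k3, k4] at hz
    exact hz
  by_cases h : (3 : RR D) ∣ ρ1
  · have h2 : ¬ (3 : RR D) ∣ ρ2 := fun h' => hρ ⟨h, h'⟩
    refine ⟨ρ2, h2, ?_⟩
    intro A _ θ h3
    obtain ⟨Λ, hΛ⟩ := key A inferInstance θ h3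
    refine ⟨Λ, fun v => ?_⟩
    have := hΛ (Ideal.Quotient.mk _ v) 0
    rw [map_zero, zero_mul, sub_zero, th3_mk, ← map_mul] at this
    exact this
  · refine ⟨ρ1, h, ?_⟩
    intro A _ θ h3
    obtain ⟨Λ, hΛ⟩ := key A inferInstance θ h3
    refine ⟨Λ, fun v => ?_⟩
    have := hΛ 0 (Ideal.Quotient.mk _ (-v))
    rw [map_zero, zero_mul, zero_sub, th3_mk, ← map_mul, ← map_neg] at this
    have e : -(-v * ((xR i0 - 1) * ρ1)) = v * ((xR i0 - 1) * ρ1) := by ring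
    rw [e] at this
    exact this

end Pool.Agent.LibLPres
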