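import Pool.Agent.LibLPres.PresRels
import Pool.Agent.LibLPres.Asc

set_option autoImplicit false
set_option linter.unusedSectionVars false

namespace Pool.Agent.LibLPres

open Multiplicative

section elements

variable {D : ℕ}

/-- row element -/
noncomputable def rowE (x y : R3 D) : Hc D := ⟨x, y, 0, 0, 0, 1, 1⟩
/-- column element -/
noncomputable def colE (x y : RR D) : Hc D := ⟨0, 0, x, y, 0, 1, 1⟩
/-- middle element -/
noncomputable def eE (s : RR D) : Hc D := ⟨0, 0, 0, 0, s, 1, 1⟩
/-- torus element -/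
noncomputable def tE (u w : PP D) : Hc D := ⟨0, 0, 0, 0, 0, u, w⟩

theorem rowE_mul (x y x' y' : R3 D) : rowE x y * rowE x' y' = rowE (x + x') (y + y') := by
  apply KG.ext <;> simp [rowE]

theorem colE_mul (x y x' y' : RR D) : colE x y * colE x' y' = colE (x + x') (y + y') := by
  apply KG.ext <;> simp [colE]

theorem rowE_zero : (rowE 0 0 : Hc D) = 1 := rfl
theorem colE_zero : (colE 0 0 : Hc D) = 1 := rfl
theorem eE_zero : (eE 0 : Hc D) = 1 := rfl

theorem eE_mul (s s' : RR D) : (eE s * eE s' : Hc D) = eE (s + s') := by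
  apply KG.ext <;> simp [eE]

theorem tE_mul (u w u' w' : PP D) : (tE u w * tE u' w' : Hc D) = tE (u * u') (w * w') := by
  apply KG.ext <;> simp [tE]

theorem rowE_inv (x y : R3 D) : (rowE x y)⁻¹ = rowE (-x) (-y) := by
  apply inv_eq_of_mul_eq_one_right; rw [rowE_mul, add_neg_cancel, add_neg_cancel, rowE_zero]

theorem colE_inv (x y : RR D) : (colE x y)⁻¹ = colE (-x) (-y) := by
  apply inv_eq_of_mul_eq_one_right; rw [colE_mul, add_neg_cancel, add_neg_cancel, colE_zero]

theorem eE_inv (s : RR D) : (eE s : Hc D)⁻¹ = eE (-s) := by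
  apply inv_eq_of_mul_eq_one_right; rw [eE_mul, add_neg_cancel, eE_zero]

theorem tE_inv (u w : PP D) : (tE u w : Hc D)⁻¹ = tE u⁻¹ w⁻¹ := by
  apply inv_eq_of_mul_eq_one_right; rw [tE_mul, mul_inv_cancel, mul_inv_cancel]; rfl

theorem row_col_comm (x y : R3 D) (x' y' : RR D) : Commute (rowE x y) (colE x' y') := by
  change _ * _ = _ * _
  apply KG.ext <;> simp [rowE, colE]

theorem row_row_comm (x y x' y' : R3 D) : Commute (rowE x y) (rowE x' y') := by
  change _ * _ = _ * _
  rw [rowE_mul, rowE_mul, add_comm x, add_comm y]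

theorem col_col_comm (x y x' y' : RR D) : Commute (colE x y) (colE x' y') := by
  change _ * _ = _ * _
  rw [colE_mul, colE_mul, add_comm x, add_comm y]

theorem tE_row (u w : PP D) (x y : R3 D) : tE u w * rowE x y * (tE u w)⁻¹
    = rowE (cf (upsR D) u⁻¹ • x) (cf (upsR D) w⁻¹ • y) := by
  rw [mul_inv_eq_iff_eq_mul]
  apply KG.ext <;> simp [tE, rowE]

theorem tE_col (u w : PP D) (x y : RR D) : tE u w * colE x y * (tE u w)⁻¹
    = colE (cf (upsR D) w * x) (cf (upsR D) u * y) := by
  rw [mul_inv_eq_iff_eq_mul]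
  apply KG.ext <;> simp [tE, colE]

theorem tE_e (u w : PP D) (s : RR D) : tE u w * eE s * (tE u w)⁻¹
    = eE (cf (upsR D) u * cf (upsR D) w⁻¹ * s) := by
  rw [mul_inv_eq_iff_eq_mul]
  apply KG.ext <;> simp [tE, eE]

theorem eE_row (s : RR D) (x y : R3 D) : eE s * rowE x y * (eE s)⁻¹ = rowE x (y + s • x) := by
  rw [mul_inv_eq_iff_eq_mul]
  apply KG.ext <;> simp [eE, rowE]

theorem eE_col (s : RR D) (x y : RR D) : eE s * colE x y * (eE s)⁻¹ = colE x (y + s * x) := by
  rw [mul_inv_eq_iff_eq_mul]
  apply KG.ext <;> simp [eE, colE]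

theorem rowE_split (x y : R3 D) : rowE x y = rowE x 0 * rowE 0 y := by
  rw [rowE_mul, add_zero, zero_add]

theorem colE_split (x y : RR D) : colE x y = colE x 0 * colE 0 y := by
  rw [colE_mul, add_zero, zero_add]

theorem tE_split (u w : PP D) : (tE u w : Hc D) = tE u 1 * tE 1 w := by
  rw [tE_mul, mul_one, one_mul]

theorem R3_forall {p : R3 D → Prop} (h : ∀ r : RR D, p (Ideal.Quotient.mk _ r)) (x : R3 D) :
    p x := by
  obtain ⟨x, rfl⟩ := Ideal.Quotient.mk_surjective x
  exact h x

theorem smul_one_R3 (r : RR D) : (r • (1 : R3 D)) = Ideal.Quotient.mk _ r := by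
  have h1 : r • (1 : R3 D) = Ideal.Quotient.mk _ (r * 1) := rfl
  rw [h1, mul_one]

theorem hc_decomp (h : Hc D) : h = rowE h.r1 h.r2 * colE h.c1 h.c2 * eE h.e * tE h.u h.w := by
  apply KG.ext <;> simp [eE, rowE, colE, tE]

/-- first torus generators -/
noncomputable def hP (i : Bool × Fin D) : Hc D := tE (gen i.1 i.2) 1
/-- second torus generators -/
noncomputable def hQ (i : Bool × Fin D) : Hc D := tE 1 (gen i.1 i.2)

/-- the first torus inclusion -/
noncomputable def torP : PP D →* Hc D := MonoidHom.mk' (fun u => tE u 1) (by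
  intro u v; rw [tE_mul, mul_one])
/-- the second torus inclusion -/
noncomputable def torQ : PP D →* Hc D := MonoidHom.mk' (fun u => tE 1 u) (by
  intro u v; rw [tE_mul, mul_one])

theorem torP_apply (u : PP D) : torP u = tE u 1 := rfl
theorem torQ_apply (u : PP D) : torQ u = tE 1 u := rfl

theorem Hc_gen_aux (S : Subgroup (Hc D)) (hr1 : ∀ x, rowE x 0 ∈ S) (hr2 : ∀ x, rowE 0 x ∈ S)
    (hc1 : ∀ x, colE x 0 ∈ S) (hc2 : ∀ x, colE 0 x ∈ S) (he : ∀ s, eE s ∈ S)
    (h2 : ∀ u, tE u 1 ∈ S) (h3 : ∀ u, tE 1 u ∈ S) (h : Hc D) : h ∈ S := by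
  have e1 : rowE h.r1 h.r2 ∈ S := by
    rw [rowE_split]; exact S.mul_mem (hr1 _) (hr2 _)
  have e2 : colE h.c1 h.c2 ∈ S := by
    rw [colE_split]; exact S.mul_mem (hc1 _) (hc2 _)
  have e3 : tE h.u h.w ∈ S := by
    rw [tE_split]; exact S.mul_mem (h2 _) (h3 _)
  have e4 := S.mul_mem (S.mul_mem (S.mul_mem e1 e2) (he h.e)) e3
  rw [← hc_decomp h] at e4
  exact e4

/-- The base group is generated by the standard generators. -/
theorem Hc_gen (S : Subgroup (Hc D)) (ha : rowE 1 0 ∈ S) (hb : eE 1 ∈ S) (hc : colE 1 0 ∈ S)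
    (hp : ∀ i, hP i ∈ S) (hq : ∀ i, hQ i ∈ S) (h : Hc D) : h ∈ S := by
  have h2 : ∀ u, tE u 1 ∈ S := by
    intro u
    exact PP_induction (S.comap torP) (fun b i => hp (b, i)) u
  have h3 : ∀ u, tE 1 u ∈ S := by
    intro u
    exact PP_induction (S.comap torQ) (fun b i => hq (b, i)) u
  have hconj : ∀ {g x : Hc D}, g ∈ S → x ∈ S → g * x * g⁻¹ ∈ S :=
    fun hg hx => S.mul_mem (S.mul_mem hg hx) (S.inv_mem hg)
  have he : ∀ s : RR D, eE s ∈ S := by
    let A : AddSubgroup (RR D) :=
      { carrier := {s | (eE s : Hc D) ∈ S}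
        zero_mem' := by
          change eE 0 ∈ S
          rw [eE_zero]; exact S.one_mem
        add_mem' := by
          intro x y hx hy
          change eE (x + y) ∈ S
          rw [← eE_mul]; exact S.mul_mem hx hy
        neg_mem' := by
          intro x hx
          change eE (-x) ∈ S
          rw [← eE_inv]; exact S.inv_mem hx }
    intro s
    refine RR_induction A ?_ s
    intro u
    have := hconj (h2 u) hb
    rw [tE_e, inv_one, cf_one, mul_one, mul_one] at this
    exact this
  have hr1 : ∀ s : RR D, rowE (Ideal.Quotient.mk _ s) 0 ∈ S := by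
    let A : AddSubgroup (RR D) :=
      { carrier := {s | (rowE (Ideal.Quotient.mk _ s) 0 : Hc D) ∈ S}
        zero_mem' := by
          change rowE (Ideal.Quotient.mk _ 0) 0 ∈ S
          rw [map_zero]; exact S.one_mem
        add_mem' := by
          intro x y hx hy
          change rowE (Ideal.Quotient.mk _ (x + y)) 0 ∈ S
          rw [map_add, ← add_zero (0 : R3 D), ← rowE_mul]; exact S.mul_mem hx hy
        neg_mem' := by
          intro x hx
          change rowE (Ideal.Quotient.mk _ (-x)) 0 ∈ S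
          rw [map_neg, ← neg_zero, ← rowE_inv]; exact S.inv_mem hx }
    intro s
    refine RR_induction A ?_ s
    intro u
    have := hconj (h2 u⁻¹) ha
    rw [tE_row, inv_inv, smul_zero] at this
    rw [smul_one_R3] at this
    exact this
  have hz : rowE 0 1 ∈ S := by
    have := S.mul_mem (hconj hb ha) (S.inv_mem ha)
    rw [eE_row, rowE_inv, rowE_mul, add_neg_cancel, one_smul, zero_add, neg_zero, add_zero] at this
    exact this
  have hr2 : ∀ s : RR D, rowE 0 (Ideal.Quotient.mk _ s) ∈ S := by
    let A : AddSubgroup (RR D) :=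
      { carrier := {s | (rowE 0 (Ideal.Quotient.mk _ s) : Hc D) ∈ S}
        zero_mem' := by
          change rowE 0 (Ideal.Quotient.mk _ 0) ∈ S
          rw [map_zero]; exact S.one_mem
        add_mem' := by
          intro x y hx hy
          change rowE 0 (Ideal.Quotient.mk _ (x + y)) ∈ S
          rw [map_add, ← add_zero (0 : R3 D), ← rowE_mul]; exact S.mul_mem hx hy
        neg_mem' := by
          intro x hx
          change rowE 0 (Ideal.Quotient.mk _ (-x)) ∈ S
          rw [map_neg, ← neg_zero, ← rowE_inv]; exact S.inv_mem hx }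
    intro s
    refine RR_induction A ?_ s
    intro u
    have := hconj (h3 u⁻¹) hz
    rw [tE_row, inv_inv, smul_zero] at this
    rw [smul_one_R3] at this
    exact this
  have hc1 : ∀ s : RR D, colE s 0 ∈ S := by
    let A : AddSubgroup (RR D) :=
      { carrier := {s | (colE s 0 : Hc D) ∈ S}
        zero_mem' := by
          change colE 0 0 ∈ S
          rw [colE_zero]; exact S.one_mem
        add_mem' := by
          intro x y hx hy
          change colE (x + y) 0 ∈ S
          rw [← add_zero (0 : RR D), ← colE_mul]; exact S.mul_mem hx hy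
        neg_mem' := by
          intro x hx
          change colE (-x) 0 ∈ S
          rw [← neg_zero, ← colE_inv]; exact S.inv_mem hx }
    intro s
    refine RR_induction A ?_ s
    intro u
    have := hconj (h3 u) hc
    rw [tE_col, mul_zero, mul_one] at this
    exact this
  have hy : colE 0 1 ∈ S := by
    have := S.mul_mem (hconj hb hc) (S.inv_mem hc)
    rw [eE_col, colE_inv, colE_mul, add_neg_cancel, one_mul, zero_add, neg_zero, add_zero] at this
    exact this
  have hc2 : ∀ s : RR D, colE 0 s ∈ S := by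
    let A : AddSubgroup (RR D) :=
      { carrier := {s | (colE 0 s : Hc D) ∈ S}
        zero_mem' := by
          change colE 0 0 ∈ S
          rw [colE_zero]; exact S.one_mem
        add_mem' := by
          intro x y hx hy
          change colE 0 (x + y) ∈ S
          rw [← add_zero (0 : RR D), ← colE_mul]; exact S.mul_mem hx hy
        neg_mem' := by
          intro x hx
          change colE 0 (-x) ∈ S
          rw [← neg_zero, ← colE_inv]; exact S.inv_mem hx }
    intro s
    refine RR_induction A ?_ s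
    intro u
    have := hconj (h2 u) hy
    rw [tE_col, mul_zero, mul_one] at this
    exact this
  exact Hc_gen_aux S (R3_forall hr1) (R3_forall hr2) hc1 hc2 he h2 h3 h

theorem Hc_hom_ext {G : Type} [Group G] {f g : Hc D →* G} (ha : f (rowE 1 0) = g (rowE 1 0))
    (hb : f (eE 1) = g (eE 1)) (hc : f (colE 1 0) = g (colE 1 0))
    (hp : ∀ i, f (hP i) = g (hP i)) (hq : ∀ i, f (hQ i) = g (hQ i)) : f = g := by
  ext h
  exact Hc_gen (f.eqLocus g) ha hb hc hp hq h

end elements

end Pool.Agent.LibLPres
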