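import Pool.Agent.LibLPres.PresIso

set_option autoImplicit false
set_option linter.unusedSectionVars false

namespace Pool.Agent.LibLPres

open Multiplicative

section

variable {D : ℕ}

theorem z_eq : (eE 1 * rowE 1 0 * (eE 1)⁻¹ * (rowE 1 0)⁻¹ : Hc D) = rowE 0 1 := by
  rw [eE_row, rowE_inv, rowE_mul, add_neg_cancel, one_smul, zero_add, neg_zero, add_zero]

theorem y_eq : (eE 1 * colE 1 0 * (eE 1)⁻¹ * (colE 1 0)⁻¹ : Hc D) = colE 0 1 := by
  rw [eE_col, colE_inv, colE_mul, add_neg_cancel, one_mul, zero_add, neg_zero, add_zero]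

theorem hP_pq (i j : Bool × Fin D) : Commute (hP i) (hQ j) := by
  change _ * _ = _ * _
  rw [hP, hQ, tE_mul, tE_mul, mul_one, one_mul, one_mul, mul_one]

theorem tor_conj_row (u w : PP D) (x y : R3 D) : (tE u w)⁻¹ * rowE x y * tE u w
    = rowE (cf (upsR D) u • x) (cf (upsR D) w • y) := by
  have := tE_row u⁻¹ w⁻¹ x y
  rw [← tE_inv, inv_inv, inv_inv, inv_inv] at this
  exact this

theorem R3_rel (i : Fin D) : (1 : R3 D) + Ideal.Quotient.mk _ (xR i) + Ideal.Quotient.mk _ (yR i)
    = 0 := by
  have h : (1 : RR D) + xR i + yR i = 0 := by rw [yR]; ring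
  rw [← map_one (Ideal.Quotient.mk (Ideal.span {(3 : RR D)})), ← map_add, ← map_add, h, map_zero]

theorem lp_hP (s : Finset (Fin D)) : lp s (fun i => hP (false, i)) = tE (∏ i ∈ s, gen false i) 1 :=
  lp_torus torP s false

theorem lp_hQ (s : Finset (Fin D)) : lp s (fun i => hQ (false, i)) = tE 1 (∏ i ∈ s, gen false i) :=
  lp_torus torQ s false

theorem e_e_comm (s s' : RR D) : Commute (eE s : Hc D) (eE s') := by
  change _ * _ = _ * _
  rw [eE_mul, eE_mul, add_comm]

theorem conj_comm_iff {G : Type} [Group G] {g x : G} (h : g * x * g⁻¹ = x) : Commute x g := by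
  have : g * x = x * g := by
    calc g * x = (g * x * g⁻¹) * g := by group
      _ = x * g := by rw [h]
  exact this.symm

theorem Psi_row (x y : R3 D) : Psi D (rowE x y) = rowE (sig3 D x) (sig3 D y) := by
  rw [Psi_apply]
  apply KG.ext <;> simp [rowE]

theorem Psi_col (x y : RR D) : Psi D (colE x y) = colE (3 * sigR D x) (3 * sigR D y) := by
  rw [Psi_apply]
  apply KG.ext <;> simp [colE]

theorem Psi_e (s : RR D) : Psi D (eE s) = eE (sigR D s) := by
  rw [Psi_apply]
  apply KG.ext <;> simp [eE]

theorem Psi_t (u w : PP D) : Psi D (tE u w) = tE (sigP D u) (sigP D w) := by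
  rw [Psi_apply]
  apply KG.ext <;> simp [tE]

/-- The finitely presented group. -/
abbrev EE (D : ℕ) : Type :=
  HNNExtension (Hc D) ⊤ (Psi D).range (ascEquiv (Psi D) (Psi_injective D))

theorem ee_conj (h : Hc D) : (HNNExtension.t : EE D) * HNNExtension.of h * (HNNExtension.t)⁻¹
    = HNNExtension.of (Psi D h) := by
  have := hnn_conj (ascEquiv (Psi D) (Psi_injective D)) h
  rw [endo_ascEquiv] at this
  exact this

/-- relations inside the base group, mapped by an arbitrary homomorphism -/
theorem rels_base {G : Type} [Group G] (f : Hc D →* G) (t : G)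
    (ht : ∀ h, t * f h * t⁻¹ = f (Psi D h)) :
    Rels D (f (rowE 1 0)) (f (eE 1)) (f (colE 1 0)) t (fun i => f (hP i)) (fun i => f (hQ i)) := by
  have hcm : ∀ {x y : Hc D}, Commute x y → Commute (f x) (f y) := fun h => h.map f
  constructor
  · intro i j
    apply hcm
    change _ * _ = _ * _
    rw [hP, hP, tE_mul, tE_mul, mul_comm (gen i.1 i.2)]
  · intro i j
    apply hcm
    change _ * _ = _ * _
    rw [hQ, hQ, tE_mul, tE_mul, mul_comm (gen i.1 i.2)]
  · intro i j
    exact hcm (hP_pq i j)
  · rw [← map_pow]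
    have : (rowE 1 0 : Hc D) ^ 3 = 1 := by
      rw [pow_succ, pow_two, rowE_mul, rowE_mul, ← rowE_zero]
      have h3 : (1 : R3 D) + 1 + 1 = 0 := by
        have h : (1 : RR D) + 1 + 1 = 3 := by norm_num
        rw [← map_one (Ideal.Quotient.mk (Ideal.span {(3 : RR D)})), ← map_add, ← map_add, h,
          Ideal.Quotient.eq_zero_iff_mem]
        exact Ideal.mem_span_singleton_self _
      rw [h3, add_zero, add_zero]
    rw [this, map_one]
  · intro i
    simp only [← map_inv, ← map_mul]
    have : (rowE 1 0 * ((hP (false, i))⁻¹ * rowE 1 0 * hP (false, i)) *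
        ((hP (true, i))⁻¹ * rowE 1 0 * hP (true, i)) : Hc D) = 1 := by
      rw [hP, hP, tor_conj_row, tor_conj_row, rowE_mul, rowE_mul]
      simp only [smul_zero, add_zero]
      rw [cf_gen_false, cf_gen_true, smul_one_R3, smul_one_R3, R3_rel, rowE_zero]
    rw [this, map_one]
  · intro s
    have h1 : lp s (fun i => f (hP (false, i))) = f (tE (∏ i ∈ s, gen false i) 1) := by
      rw [← lp_hP, map_lp]
    rw [h1, ← map_inv, ← map_mul, ← map_mul]
    apply hcm
    rw [tor_conj_row]
    exact row_row_comm _ _ _ _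
  · intro i
    apply hcm
    apply conj_comm_iff
    rw [hQ, tE_row, inv_one, cf_one, one_smul, smul_zero]
  · intro i
    simp only [← map_inv, ← map_mul]
    have : (eE 1 * (hP (false, i) * eE 1 * (hP (false, i))⁻¹) *
        (hP (true, i) * eE 1 * (hP (true, i))⁻¹) : Hc D) = 1 := by
      rw [hP, hP, tE_e, tE_e, eE_mul, eE_mul, inv_one, cf_one, cf_gen_false, cf_gen_true, ← eE_zero]
      congr 1
      rw [yR]; ring
    rw [this, map_one]
  · intro s
    have h1 : lp s (fun i => f (hP (false, i))) = f (tE (∏ i ∈ s, gen false i) 1) := by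
      rw [← lp_hP, map_lp]
    rw [h1, ← map_inv, ← map_mul, ← map_mul]
    apply hcm
    rw [tE_e]
    exact e_e_comm _ _
  · intro i
    rw [← map_mul]
    apply hcm
    apply conj_comm_iff
    rw [hP, hQ, tE_mul, one_mul, mul_one, tE_e, cf_mul_inv, one_mul]
  · intro i
    simp only [← map_inv, ← map_mul]
    have : (colE 1 0 * (hQ (false, i) * colE 1 0 * (hQ (false, i))⁻¹) *
        (hQ (true, i) * colE 1 0 * (hQ (true, i))⁻¹) : Hc D) = 1 := by
      rw [hQ, hQ, tE_col, tE_col, colE_mul, colE_mul, cf_gen_false, cf_gen_true, ← colE_zero]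
      congr 1
      · rw [yR]; ring
      · ring
    rw [this, map_one]
  · intro s
    have h1 : lp s (fun i => f (hQ (false, i))) = f (tE 1 (∏ i ∈ s, gen false i)) := by
      rw [← lp_hQ, map_lp]
    rw [h1, ← map_inv, ← map_mul, ← map_mul]
    apply hcm
    rw [tE_col]
    exact col_col_comm _ _ _ _
  · intro i
    apply hcm
    apply conj_comm_iff
    rw [hP, tE_col, cf_one, one_mul, mul_zero]
  · exact hcm (row_col_comm _ _ _ _)
  · simp only [← map_inv, ← map_mul]
    apply hcm; rw [z_eq]; exact row_row_comm _ _ _ _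
  · simp only [← map_inv, ← map_mul]
    apply hcm; rw [z_eq]
    apply conj_comm_iff
    rw [eE_row, smul_zero, add_zero]
  · intro i
    simp only [← map_inv, ← map_mul]
    apply hcm; rw [z_eq]
    apply conj_comm_iff
    rw [hP, tE_row, inv_one, cf_one, one_smul, smul_zero]
  · simp only [← map_inv, ← map_mul]
    apply hcm; rw [y_eq]; exact col_col_comm _ _ _ _
  · simp only [← map_inv, ← map_mul]
    apply hcm; rw [y_eq]
    apply conj_comm_iff
    rw [eE_col, mul_zero, add_zero]
  · intro i
    simp only [← map_inv, ← map_mul]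
    apply hcm; rw [y_eq]
    apply conj_comm_iff
    rw [hQ, tE_col, cf_one, one_mul, mul_zero]
  · simp only [← map_inv, ← map_mul]
    apply hcm; rw [y_eq, z_eq]; exact row_col_comm _ _ _ _
  · rw [ht, Psi_row, map_one, map_zero]
  · rw [ht, Psi_e, map_one]
  · rw [ht, Psi_col, map_one, map_zero, ← map_pow]
    congr 1
    rw [pow_succ, pow_two, colE_mul, colE_mul]
    congr 1
    · norm_num
    · ring
  · intro i
    rw [ht, ← map_inv, ← map_mul, hP, hP, Psi_t, sigP_gen_false, map_one, tE_inv, tE_mul,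
      inv_one, mul_one]
  · intro i
    rw [ht, ← map_inv, hP, hP, Psi_t, sigP_gen_true, map_one, tE_inv, inv_one]
  · intro i
    rw [ht, ← map_inv, ← map_mul, hQ, hQ, Psi_t, sigP_gen_false, map_one, tE_inv, tE_mul,
      inv_one, mul_one]
  · intro i
    rw [ht, ← map_inv, hQ, hQ, Psi_t, sigP_gen_true, map_one, tE_inv, inv_one]

/-- values of the generators in the HNN extension -/
noncomputable def gval {G : Type} [Group G] (f : Hc D →* G) (t : G) : Gn D → G
  | Sum.inl 0 => f (rowE 1 0)
  | Sum.inl 1 => f (eE 1)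
  | Sum.inl 2 => f (colE 1 0)
  | Sum.inl 3 => t
  | Sum.inr (Sum.inl i) => f (hP i)
  | Sum.inr (Sum.inr i) => f (hQ i)

theorem gval_rels {G : Type} [Group G] (f : Hc D →* G) (t : G)
    (ht : ∀ h, t * f h * t⁻¹ = f (Psi D h)) :
    ∀ r ∈ rels D, FreeGroup.lift (gval f t) r = 1 := by
  apply of_rels
  simp only [ga, gb, gc, gt, gp, gq, FreeGroup.lift_apply_of]
  exact rels_base f t ht

/-- the homomorphism from the presented group -/
noncomputable def ThetaP (D : ℕ) : PresentedGroup (rels D) →* EE D :=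
  PresentedGroup.toGroup (gval_rels HNNExtension.of HNNExtension.t ee_conj)

/-- generators in the presented group -/
noncomputable abbrev pg (D : ℕ) (x : FreeGroup (Gn D)) : PresentedGroup (rels D) :=
  PresentedGroup.mk (rels D) x

theorem rels_pg (D : ℕ) : Rels D (pg D (ga D)) (pg D (gb D)) (pg D (gc D)) (pg D (gt D))
    (fun i => pg D (gp D i)) (fun i => pg D (gq D i)) := by
  apply rels_of (PresentedGroup.mk (rels D))
  intro r hr
  exact (QuotientGroup.eq_one_iff r).mpr (Subgroup.subset_normalClosure hr)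

theorem exists_XiP (D : ℕ) : ∃ f : Hc D →* PresentedGroup (rels D),
    f (rowE 1 0) = pg D (ga D) ∧ f (eE 1) = pg D (gb D) ∧ f (colE 1 0) = pg D (gc D) ∧
    (∀ i, f (hP i) = pg D (gp D i)) ∧ (∀ i, f (hQ i) = pg D (gq D i)) ∧
    (∀ h, pg D (gt D) * f h * (pg D (gt D))⁻¹ = f (Psi D h)) := by
  obtain ⟨K, hEa, -, hEb, hEc, -, hT2, hT3⟩ := (rels_pg D).exists_kit
  have hcf1 : cf (upsR D) 1 = 1 := cf_one _
  have vrow : ∀ x y, K.hom (rowE x y) = K.row x y := by
    intro x y
    rw [Kit.hom_apply]
    simp [rowE, Kit.col]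
  have vcol : ∀ x y, K.hom (colE x y) = K.col x y := by
    intro x y
    rw [Kit.hom_apply]
    simp [colE, Kit.row]
  have ve : ∀ s, K.hom (eE s) = K.Eb (ofAdd s) := by
    intro s
    rw [Kit.hom_apply]
    simp [eE, Kit.row, Kit.col]
  have vt : ∀ u w, K.hom (tE u w) = K.T2 u * K.T3 w := by
    intro u w
    rw [Kit.hom_apply]
    simp [tE, Kit.row, Kit.col]
  have h1 : K.hom (rowE 1 0) = pg D (ga D) := by
    have h := hEa 1
    rw [hcf1, map_one, cj_one] at h
    rw [vrow, Kit.row, h, ofAdd_zero, map_one, mul_one]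
  have h2 : K.hom (eE 1) = pg D (gb D) := by
    have h := hEb 1
    rw [hcf1, cj_one] at h
    rw [ve, h]
  have h3 : K.hom (colE 1 0) = pg D (gc D) := by
    have h := hEc 1
    rw [hcf1, cj_one] at h
    rw [vcol, Kit.col, h, ofAdd_zero, map_one, mul_one]
  have h4 : ∀ i, K.hom (hP i) = pg D (gp D i) := by
    intro i
    rw [hP, vt, map_one, mul_one, hT2, Rels.T2_gen]
  have h5 : ∀ i, K.hom (hQ i) = pg D (gq D i) := by
    intro i
    rw [hQ, vt, map_one, one_mul, hT3, Rels.T3_gen]
  refine ⟨K.hom, h1, h2, h3, h4, h5, ?_⟩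
  have R := rels_pg D
  have heq : (MulAut.conj (pg D (gt D))).toMonoidHom.comp K.hom = K.hom.comp (Psi D) := by
    apply Hc_hom_ext
    · change pg D (gt D) * K.hom (rowE 1 0) * (pg D (gt D))⁻¹ = K.hom (Psi D (rowE 1 0))
      rw [Psi_row, map_one, map_zero, h1]; exact R.ta
    · change pg D (gt D) * K.hom (eE 1) * (pg D (gt D))⁻¹ = K.hom (Psi D (eE 1))
      rw [Psi_e, map_one, h2]; exact R.tb
    · change pg D (gt D) * K.hom (colE 1 0) * (pg D (gt D))⁻¹ = K.hom (Psi D (colE 1 0))
      have e : Psi D (colE 1 0) = (colE 1 0) ^ 3 := by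
        rw [Psi_col, map_one, map_zero, pow_succ, pow_two, colE_mul, colE_mul]
        congr 1
        · norm_num
        · ring
      rw [e, map_pow, h3]; exact R.tc
    · rintro ⟨b, i⟩
      change pg D (gt D) * K.hom (hP (b, i)) * (pg D (gt D))⁻¹ = K.hom (Psi D (hP (b, i)))
      cases b
      · have e : Psi D (hP (false, i)) = hP (true, i) * (hP (false, i))⁻¹ := by
          rw [hP, hP, Psi_t, sigP_gen_false, map_one, tE_inv, tE_mul, inv_one, mul_one]
        rw [e, map_mul, map_inv, h4, h4]; exact R.tp0 i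
      · have e : Psi D (hP (true, i)) = (hP (false, i))⁻¹ := by
          rw [hP, hP, Psi_t, sigP_gen_true, map_one, tE_inv, inv_one]
        rw [e, map_inv, h4, h4]; exact R.tp1 i
    · rintro ⟨b, i⟩
      change pg D (gt D) * K.hom (hQ (b, i)) * (pg D (gt D))⁻¹ = K.hom (Psi D (hQ (b, i)))
      cases b
      · have e : Psi D (hQ (false, i)) = hQ (true, i) * (hQ (false, i))⁻¹ := by
          rw [hQ, hQ, Psi_t, sigP_gen_false, map_one, tE_inv, tE_mul, inv_one, mul_one]
        rw [e, map_mul, map_inv, h5, h5]; exact R.tq0 i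
      · have e : Psi D (hQ (true, i)) = (hQ (false, i))⁻¹ := by
          rw [hQ, hQ, Psi_t, sigP_gen_true, map_one, tE_inv, inv_one]
        rw [e, map_inv, h5, h5]; exact R.tq1 i
  intro h
  exact DFunLike.congr_fun heq h

/-- The group is finitely presented. -/
theorem ee_presented (D : ℕ) : Nonempty (EE D ≃* PresentedGroup (rels D)) := by
  obtain ⟨f, h1, h2, h3, h4, h5, h6⟩ := exists_XiP D
  let Xi : EE D →* PresentedGroup (rels D) := HNNExtension.lift f (pg D (gt D)) (by
    intro a
    have := h6 (a : Hc D)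
    have e : ((ascEquiv (Psi D) (Psi_injective D)) a : Hc D) = Psi D (a : Hc D) := rfl
    rw [e, ← this]; group)
  refine ⟨MonoidHom.toMulEquiv Xi (ThetaP D) ?_ ?_⟩
  · apply HNNExtension.hom_ext
    · apply Hc_hom_ext
      · change ThetaP D (Xi (HNNExtension.of (rowE 1 0))) = HNNExtension.of (rowE 1 0)
        rw [HNNExtension.lift_of, h1]
        exact PresentedGroup.toGroup.of _
      · change ThetaP D (Xi (HNNExtension.of (eE 1))) = HNNExtension.of (eE 1)
        rw [HNNExtension.lift_of, h2]
        exact PresentedGroup.toGroup.of _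
      · change ThetaP D (Xi (HNNExtension.of (colE 1 0))) = HNNExtension.of (colE 1 0)
        rw [HNNExtension.lift_of, h3]
        exact PresentedGroup.toGroup.of _
      · intro i
        change ThetaP D (Xi (HNNExtension.of (hP i))) = HNNExtension.of (hP i)
        rw [HNNExtension.lift_of, h4]
        exact PresentedGroup.toGroup.of _
      · intro i
        change ThetaP D (Xi (HNNExtension.of (hQ i))) = HNNExtension.of (hQ i)
        rw [HNNExtension.lift_of, h5]
        exact PresentedGroup.toGroup.of _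
    · change ThetaP D (Xi HNNExtension.t) = HNNExtension.t
      rw [HNNExtension.lift_t]
      exact PresentedGroup.toGroup.of _
  · apply PresentedGroup.ext
    intro x
    have e : ThetaP D (PresentedGroup.of x) = gval HNNExtension.of HNNExtension.t x :=
      PresentedGroup.toGroup.of _
    change Xi (ThetaP D (PresentedGroup.of x)) = PresentedGroup.of x
    rw [e]
    rcases x with k | i | i
    · fin_cases k
      · change Xi (HNNExtension.of (rowE 1 0)) = _
        rw [HNNExtension.lift_of, h1]; rfl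
      · change Xi (HNNExtension.of (eE 1)) = _
        rw [HNNExtension.lift_of, h2]; rfl
      · change Xi (HNNExtension.of (colE 1 0)) = _
        rw [HNNExtension.lift_of, h3]; rfl
      · change Xi HNNExtension.t = _
        rw [HNNExtension.lift_t]; rfl
    · change Xi (HNNExtension.of (hP i)) = _
      rw [HNNExtension.lift_of, h4]; rfl
    · change Xi (HNNExtension.of (hQ i)) = _
      rw [HNNExtension.lift_of, h5]; rfl

end

end Pool.Agent.LibLPres
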