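import Pool.Agent.LibLPres.MkKit

set_option autoImplicit false
set_option linter.unusedSectionVars false

namespace Pool.Agent.LibLPres

/-- the generators of the presentation -/
abbrev Gn (D : ℕ) : Type := Fin 4 ⊕ ((Bool × Fin D) ⊕ (Bool × Fin D))

/-- the commutator word -/
def cw {G : Type} [Group G] (x y : G) : G := x * y * x⁻¹ * y⁻¹

theorem cw_eq_one {G : Type} [Group G] {x y : G} : cw x y = 1 ↔ Commute x y := by
  rw [cw, mul_inv_eq_one, mul_inv_eq_iff_eq_mul]
  exact Iff.rfl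

theorem map_cw {G H : Type} [Group G] [Group H] (f : G →* H) (x y : G) :
    f (cw x y) = cw (f x) (f y) := by
  simp [cw]

section words

variable {G : Type} [Group G]

/-- words without index -/
def w0 (a b c t : G) : Fin 10 → G
  | 0 => a ^ 3
  | 1 => cw a c
  | 2 => cw (cw b a) a
  | 3 => cw (cw b a) b
  | 4 => cw (cw b c) c
  | 5 => cw (cw b c) b
  | 6 => cw (cw b a) (cw b c)
  | 7 => t * a * t⁻¹ * a⁻¹
  | 8 => t * b * t⁻¹ * b⁻¹
  | 9 => t * c * t⁻¹ * (c ^ 3)⁻¹

/-- words with one torus index -/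
def w1 (a b c : G) (p q : G) : Fin 5 → G
  | 0 => cw a q
  | 1 => cw b (p * q)
  | 2 => cw c p
  | 3 => cw (cw b a) p
  | 4 => cw (cw b c) q

/-- words with one index -/
def w2 (a b c t : G) (p0 p1 q0 q1 : G) : Fin 7 → G
  | 0 => a * (p0⁻¹ * a * p0) * (p1⁻¹ * a * p1)
  | 1 => b * (p0 * b * p0⁻¹) * (p1 * b * p1⁻¹)
  | 2 => c * (q0 * c * q0⁻¹) * (q1 * c * q1⁻¹)
  | 3 => t * p0 * t⁻¹ * (p1 * p0⁻¹)⁻¹
  | 4 => t * p1 * t⁻¹ * p0
  | 5 => t * q0 * t⁻¹ * (q1 * q0⁻¹)⁻¹
  | 6 => t * q1 * t⁻¹ * q0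

/-- words with a subset -/
def w3 (a b c : G) (lp lq : G) : Fin 3 → G
  | 0 => cw a (lp⁻¹ * a * lp)
  | 1 => cw b (lp * b * lp⁻¹)
  | 2 => cw c (lq * c * lq⁻¹)

end words

section rels

variable (D : ℕ)

/-- generator -/
def ga : FreeGroup (Gn D) := FreeGroup.of (Sum.inl 0)
/-- generator -/
def gb : FreeGroup (Gn D) := FreeGroup.of (Sum.inl 1)
/-- generator -/
def gc : FreeGroup (Gn D) := FreeGroup.of (Sum.inl 2)
/-- generator -/
def gt : FreeGroup (Gn D) := FreeGroup.of (Sum.inl 3)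
/-- generator -/
def gp (i : Bool × Fin D) : FreeGroup (Gn D) := FreeGroup.of (Sum.inr (Sum.inl i))
/-- generator -/
def gq (i : Bool × Fin D) : FreeGroup (Gn D) := FreeGroup.of (Sum.inr (Sum.inr i))

/-- The finite set of relators. -/
def rels : Set (FreeGroup (Gn D)) :=
  Set.range (w0 (ga D) (gb D) (gc D) (gt D)) ∪
  Set.range (fun x : Fin 5 × (Bool × Fin D) => w1 (ga D) (gb D) (gc D) (gp D x.2) (gq D x.2) x.1) ∪
  Set.range (fun x : Fin 7 × Fin D => w2 (ga D) (gb D) (gc D) (gt D) (gp D (false, x.2))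
    (gp D (true, x.2)) (gq D (false, x.2)) (gq D (true, x.2)) x.1) ∪
  Set.range (fun x : Fin 3 × Finset (Fin D) => w3 (ga D) (gb D) (gc D)
    (lp x.2 (fun i => gp D (false, i))) (lp x.2 (fun i => gq D (false, i))) x.1) ∪
  Set.range (fun x : (Bool × Fin D) × (Bool × Fin D) => cw (gp D x.1) (gp D x.2)) ∪
  Set.range (fun x : (Bool × Fin D) × (Bool × Fin D) => cw (gq D x.1) (gq D x.2)) ∪
  Set.range (fun x : (Bool × Fin D) × (Bool × Fin D) => cw (gp D x.1) (gq D x.2))

theorem rels_finite : (rels D).Finite := by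
  unfold rels
  refine Set.Finite.union (Set.Finite.union (Set.Finite.union (Set.Finite.union
    (Set.Finite.union (Set.Finite.union ?_ ?_) ?_) ?_) ?_) ?_) ?_
  all_goals exact Set.finite_range _

variable {D}

theorem rels_of {G : Type} [Group G] (F : FreeGroup (Gn D) →* G) (h : ∀ r ∈ rels D, F r = 1) :
    Rels D (F (ga D)) (F (gb D)) (F (gc D)) (F (gt D)) (fun i => F (gp D i))
      (fun i => F (gq D i)) := by
  have h0 : ∀ k, F (w0 (ga D) (gb D) (gc D) (gt D) k) = 1 := fun k =>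
    h _ (Or.inl (Or.inl (Or.inl (Or.inl (Or.inl (Or.inl ⟨k, rfl⟩))))))
  have h1 : ∀ i k, F (w1 (ga D) (gb D) (gc D) (gp D i) (gq D i) k) = 1 := fun i k =>
    h _ (Or.inl (Or.inl (Or.inl (Or.inl (Or.inl (Or.inr ⟨(k, i), rfl⟩))))))
  have h2 : ∀ i k, F (w2 (ga D) (gb D) (gc D) (gt D) (gp D (false, i))
    (gp D (true, i)) (gq D (false, i)) (gq D (true, i)) k) = 1 := fun i k =>
    h _ (Or.inl (Or.inl (Or.inl (Or.inl (Or.inr ⟨(k, i), rfl⟩)))))
  have h3 : ∀ s k, F (w3 (ga D) (gb D) (gc D)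
    (lp s (fun i => gp D (false, i))) (lp s (fun i => gq D (false, i))) k) = 1 := fun s k =>
    h _ (Or.inl (Or.inl (Or.inl (Or.inr ⟨(k, s), rfl⟩))))
  have h4 : ∀ i j, F (cw (gp D i) (gp D j)) = 1 := fun i j =>
    h _ (Or.inl (Or.inl (Or.inr ⟨(i, j), rfl⟩)))
  have h5 : ∀ i j, F (cw (gq D i) (gq D j)) = 1 := fun i j =>
    h _ (Or.inl (Or.inr ⟨(i, j), rfl⟩))
  have h6 : ∀ i j, F (cw (gp D i) (gq D j)) = 1 := fun i j =>
    h _ (Or.inr ⟨(i, j), rfl⟩)
  have hc : ∀ x y : FreeGroup (Gn D), F (cw x y) = 1 → Commute (F x) (F y) := by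
    intro x y hxy
    rw [map_cw, cw_eq_one] at hxy
    exact hxy
  constructor
  · exact fun i j => hc _ _ (h4 i j)
  · exact fun i j => hc _ _ (h5 i j)
  · exact fun i j => hc _ _ (h6 i j)
  · have := h0 0
    simpa [w0] using this
  · intro i
    have := h2 i 0
    simpa [w2] using this
  · intro s
    have := hc _ _ (h3 s 0)
    simpa [map_lp] using this
  · exact fun i => hc _ _ (h1 i 0)
  · intro i
    have := h2 i 1
    simpa [w2] using this
  · intro s
    have := hc _ _ (h3 s 1)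
    simpa [map_lp] using this
  · intro i
    have := hc _ _ (h1 i 1)
    simpa using this
  · intro i
    have := h2 i 2
    simpa [w2] using this
  · intro s
    have := hc _ _ (h3 s 2)
    simpa [map_lp] using this
  · exact fun i => hc _ _ (h1 i 2)
  · exact hc _ _ (h0 1)
  · have := hc _ _ (h0 2)
    simpa [cw] using this
  · have := hc _ _ (h0 3)
    simpa [cw] using this
  · intro i
    have := hc _ _ (h1 i 3)
    simpa [cw] using this
  · have := hc _ _ (h0 4)
    simpa [cw] using this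
  · have := hc _ _ (h0 5)
    simpa [cw] using this
  · intro i
    have := hc _ _ (h1 i 4)
    simpa [cw] using this
  · have := hc _ _ (h0 6)
    simpa [cw] using this
  · have := h0 7
    simp only [w0, map_mul, map_inv] at this
    exact mul_inv_eq_one.mp this
  · have := h0 8
    simp only [w0, map_mul, map_inv] at this
    exact mul_inv_eq_one.mp this
  · have := h0 9
    simp only [w0, map_mul, map_inv, map_pow] at this
    exact mul_inv_eq_one.mp this
  · intro i
    have := h2 i 3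
    simp only [w2, map_mul, map_inv] at this
    exact mul_inv_eq_one.mp this
  · intro i
    have := h2 i 4
    simp only [w2, map_mul, map_inv] at this
    exact mul_eq_one_iff_eq_inv.mp this
  · intro i
    have := h2 i 5
    simp only [w2, map_mul, map_inv] at this
    exact mul_inv_eq_one.mp this
  · intro i
    have := h2 i 6
    simp only [w2, map_mul, map_inv] at this
    exact mul_eq_one_iff_eq_inv.mp this

theorem of_rels {G : Type} [Group G] (F : FreeGroup (Gn D) →* G)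
    (R : Rels D (F (ga D)) (F (gb D)) (F (gc D)) (F (gt D)) (fun i => F (gp D i))
      (fun i => F (gq D i))) : ∀ r ∈ rels D, F r = 1 := by
  rintro r ((((((⟨k, rfl⟩ | ⟨⟨k, i⟩, rfl⟩) | ⟨⟨k, i⟩, rfl⟩) | ⟨⟨k, s⟩, rfl⟩) | ⟨⟨i, j⟩, rfl⟩) |
    ⟨⟨i, j⟩, rfl⟩) | ⟨⟨i, j⟩, rfl⟩)
  · fin_cases k
    · change F (ga D ^ 3) = 1
      rw [map_pow]; exact R.a3
    · change F (cw _ _) = 1
      rw [map_cw, cw_eq_one]; exact R.ac
    · change F (cw (cw _ _) _) = 1
      rw [map_cw, map_cw, cw_eq_one]; exact R.za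
    · change F (cw (cw _ _) _) = 1
      rw [map_cw, map_cw, cw_eq_one]; exact R.zb
    · change F (cw (cw _ _) _) = 1
      rw [map_cw, map_cw, cw_eq_one]; exact R.yc
    · change F (cw (cw _ _) _) = 1
      rw [map_cw, map_cw, cw_eq_one]; exact R.yb
    · change F (cw (cw _ _) (cw _ _)) = 1
      rw [map_cw, map_cw, map_cw, cw_eq_one]; exact R.zy
    · change F (gt D * ga D * (gt D)⁻¹ * (ga D)⁻¹) = 1
      simp only [map_mul, map_inv]
      exact mul_inv_eq_one.mpr R.ta
    · change F (gt D * gb D * (gt D)⁻¹ * (gb D)⁻¹) = 1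
      simp only [map_mul, map_inv]
      exact mul_inv_eq_one.mpr R.tb
    · change F (gt D * gc D * (gt D)⁻¹ * (gc D ^ 3)⁻¹) = 1
      simp only [map_mul, map_inv, map_pow]
      exact mul_inv_eq_one.mpr R.tc
  · fin_cases k
    · change F (cw _ _) = 1
      rw [map_cw, cw_eq_one]; exact R.aq i
    · change F (cw _ _) = 1
      rw [map_cw, cw_eq_one, map_mul]; exact R.bpq i
    · change F (cw _ _) = 1
      rw [map_cw, cw_eq_one]; exact R.cp i
    · change F (cw (cw _ _) _) = 1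
      rw [map_cw, map_cw, cw_eq_one]; exact R.zp i
    · change F (cw (cw _ _) _) = 1
      rw [map_cw, map_cw, cw_eq_one]; exact R.yq i
  · fin_cases k
    · change F (_ * (_⁻¹ * _ * _) * (_⁻¹ * _ * _)) = 1
      simp only [map_mul, map_inv]; exact R.ra i
    · change F (_ * (_ * _ * _⁻¹) * (_ * _ * _⁻¹)) = 1
      simp only [map_mul, map_inv]; exact R.rb i
    · change F (_ * (_ * _ * _⁻¹) * (_ * _ * _⁻¹)) = 1
      simp only [map_mul, map_inv]; exact R.rc i
    · change F (_ * _ * _⁻¹ * (_ * _⁻¹)⁻¹) = 1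
      simp only [map_mul, map_inv]; exact mul_inv_eq_one.mpr (R.tp0 i)
    · change F (_ * _ * _⁻¹ * _) = 1
      simp only [map_mul, map_inv]; exact mul_eq_one_iff_eq_inv.mpr (R.tp1 i)
    · change F (_ * _ * _⁻¹ * (_ * _⁻¹)⁻¹) = 1
      simp only [map_mul, map_inv]; exact mul_inv_eq_one.mpr (R.tq0 i)
    · change F (_ * _ * _⁻¹ * _) = 1
      simp only [map_mul, map_inv]; exact mul_eq_one_iff_eq_inv.mpr (R.tq1 i)
  · fin_cases k
    · change F (cw _ (_⁻¹ * _ * _)) = 1
      rw [map_cw, cw_eq_one]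
      simp only [map_mul, map_inv, map_lp]; exact R.ba s
    · change F (cw _ (_ * _ * _⁻¹)) = 1
      rw [map_cw, cw_eq_one]
      simp only [map_mul, map_inv, map_lp]; exact R.bb s
    · change F (cw _ (_ * _ * _⁻¹)) = 1
      rw [map_cw, cw_eq_one]
      simp only [map_mul, map_inv, map_lp]; exact R.bc s
  · rw [map_cw, cw_eq_one]; exact R.pp i j
  · rw [map_cw, cw_eq_one]; exact R.qq i j
  · rw [map_cw, cw_eq_one]; exact R.pq i j

end rels

end Pool.Agent.LibLPres
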