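import Pool.Agent.LibLPres.KG

set_option autoImplicit false
set_option linter.unusedSectionVars false

namespace Pool.Agent.LibLPres

open MvPolynomial

/-- The polynomial whose inversion gives the ring. -/
noncomputable def fpoly (D : ℕ) : MvPolynomial (Fin D) ℤ := ∏ i, (X i * (X i + 1))

/-- The ring `ℤ[x_i, 1/x_i, 1/(1+x_i)]`. -/
abbrev RR (D : ℕ) : Type := Localization.Away (fpoly D)

theorem fpoly_ne_zero (D : ℕ) : fpoly D ≠ 0 := by
  rw [fpoly, Finset.prod_ne_zero_iff]
  intro i _
  refine mul_ne_zero (X_ne_zero i) ?_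
  intro h
  have := congrArg (MvPolynomial.eval (fun _ => (0 : ℤ))) h
  simp at this

instance (D : ℕ) : IsDomain (RR D) := by
  apply IsLocalization.isDomain_localization
  rw [Submonoid.powers_le]
  exact mem_nonZeroDivisors_of_ne_zero (fpoly_ne_zero D)

/-- the torus -/
abbrev PP (D : ℕ) : Type := Bool × Fin D → Multiplicative ℤ

/-- the generators of the torus -/
def gen {D : ℕ} (b : Bool) (i : Fin D) : PP D := Pi.mulSingle (b, i) (Multiplicative.ofAdd 1)

/-- the variables -/
noncomputable def xR {D : ℕ} (i : Fin D) : RR D := algebraMap (MvPolynomial (Fin D) ℤ) (RR D) (X i)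

/-- the second family of units -/
noncomputable def yR {D : ℕ} (i : Fin D) : RR D := -1 - xR i

theorem isUnit_fR (D : ℕ) : IsUnit (algebraMap (MvPolynomial (Fin D) ℤ) (RR D) (fpoly D)) :=
  IsLocalization.Away.algebraMap_isUnit _

theorem algebraMap_fpoly (D : ℕ) : algebraMap (MvPolynomial (Fin D) ℤ) (RR D) (fpoly D)
    = ∏ i : Fin D, (xR i * (xR i + 1)) :=
  (map_prod (algebraMap (MvPolynomial (Fin D) ℤ) (RR D)) (fun i => X i * (X i + 1))
    Finset.univ).trans (by simp [xR])

theorem isUnit_xR {D : ℕ} (i : Fin D) : IsUnit (xR i) := by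
  apply IsLocalization.Away.isUnit_of_dvd (x := fpoly D)
  exact Dvd.dvd.trans (Dvd.intro _ rfl) (Finset.dvd_prod_of_mem _ (Finset.mem_univ i))

theorem isUnit_yR {D : ℕ} (i : Fin D) : IsUnit (yR i) := by
  have h : IsUnit (algebraMap (MvPolynomial (Fin D) ℤ) (RR D) (X i + 1)) := by
    apply IsLocalization.Away.isUnit_of_dvd (x := fpoly D)
    exact Dvd.dvd.trans (Dvd.intro_left _ rfl) (Finset.dvd_prod_of_mem _ (Finset.mem_univ i))
  have h2 : yR i = -(algebraMap (MvPolynomial (Fin D) ℤ) (RR D) (X i + 1)) := by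
    rw [yR, xR, map_add, map_one]; ring
  rw [h2]; exact h.neg

/-- the value of a generator -/
noncomputable def vR {D : ℕ} : Bool × Fin D → (RR D)ˣ
  | (false, i) => (isUnit_xR i).unit
  | (true, i) => (isUnit_yR i).unit

theorem torHom_comm {ι : Type} {G : Type} [Group G] (g : ι → G)
    (hg : ∀ i j, Commute (g i) (g j)) :
    Pairwise fun i j => ∀ (x y : Multiplicative ℤ),
      Commute (((zpowersHom G) (g i)) x) (((zpowersHom G) (g j)) y) := by
  intro i j _ x y
  simp only [zpowersHom_apply]
  exact ((hg i j).zpow_zpow _ _)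

/-- Homomorphisms from the torus to a group, from commuting elements. -/
noncomputable def torHom {D : ℕ} {G : Type} [Group G] (g : Bool × Fin D → G)
    (hg : ∀ i j, Commute (g i) (g j)) : PP D →* G :=
  MonoidHom.noncommPiCoprod (fun i => zpowersHom G (g i)) (torHom_comm g hg)

theorem torHom_gen {D : ℕ} {G : Type} [Group G] (g : Bool × Fin D → G)
    (hg : ∀ i j, Commute (g i) (g j)) (b : Bool) (i : Fin D) :
    torHom g hg (gen b i) = g (b, i) := by
  rw [torHom, gen, MonoidHom.noncommPiCoprod_mulSingle]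
  simp

theorem mulSingle_eq_zpow {D : ℕ} (b : Bool) (i : Fin D) (x : Multiplicative ℤ) :
    (Pi.mulSingle (b, i) x : PP D) = gen b i ^ (Multiplicative.toAdd x) := by
  rw [gen, ← Pi.mulSingle_zpow]
  congr 1
  rw [← ofAdd_zsmul]; simp

theorem torHom_ext {D : ℕ} {G : Type} [Group G] {f g : PP D →* G}
    (h : ∀ b i, f (gen b i) = g (gen b i)) : f = g := by
  apply MonoidHom.pi_ext
  rintro ⟨b, i⟩ x
  rw [mulSingle_eq_zpow, map_zpow, map_zpow, h]

/-- A subgroup of the torus containing the generators is everything. -/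
theorem PP_induction {D : ℕ} (S : Subgroup (PP D)) (h : ∀ b i, gen b i ∈ S) (u : PP D) : u ∈ S := by
  have h1 : u = ∏ i : Bool × Fin D, (Pi.mulSingle i (u i) : PP D) := by
    rw [Finset.univ_prod_mulSingle]
  rw [h1]
  apply Subgroup.prod_mem
  rintro ⟨b, i⟩ _
  rw [mulSingle_eq_zpow]
  exact Subgroup.zpow_mem _ (h b i) _

/-- The structural homomorphism from the torus to the units of the ring. -/
noncomputable def upsR (D : ℕ) : PP D →* (RR D)ˣ :=
  torHom vR (fun _ _ => Commute.all _ _)

theorem cf_gen_false {D : ℕ} (i : Fin D) : cf (upsR D) (gen false i) = xR i := by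
  rw [cf, upsR, torHom_gen]; rfl

theorem cf_gen_true {D : ℕ} (i : Fin D) : cf (upsR D) (gen true i) = yR i := by
  rw [cf, upsR, torHom_gen]; rfl

/-- The group ring maps to the ring. -/
noncomputable def phiF (D : ℕ) : FreeAbelianGroup (PP D) →+* RR D :=
  FreeAbelianGroup.liftMonoid ((Units.coeHom _).comp (upsR D))

theorem phiF_of {D : ℕ} (u : PP D) : phiF D (FreeAbelianGroup.of u) = cf (upsR D) u := by
  rw [phiF, FreeAbelianGroup.liftMonoid_coe, FreeAbelianGroup.lift_apply_of]; rfl

/-- the relators in the group ring -/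
noncomputable def relF {D : ℕ} (i : Fin D) : FreeAbelianGroup (PP D) :=
  1 + FreeAbelianGroup.of (gen false i) + FreeAbelianGroup.of (gen true i)

/-- the ideal of the group ring -/
noncomputable def idF (D : ℕ) : Ideal (FreeAbelianGroup (PP D)) := Ideal.span (Set.range relF)

theorem mk_relF {D : ℕ} (i : Fin D) :
    Ideal.Quotient.mk (idF D) (1 + FreeAbelianGroup.of (gen false i)
      + FreeAbelianGroup.of (gen true i)) = 0 := by
  rw [Ideal.Quotient.eq_zero_iff_mem]
  exact Ideal.subset_span ⟨i, rfl⟩

theorem isUnit_of {D : ℕ} (u : PP D) :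
    IsUnit (FreeAbelianGroup.of u : FreeAbelianGroup (PP D)) := by
  refine IsUnit.of_mul_eq_one (FreeAbelianGroup.of u⁻¹) ?_
  rw [FreeAbelianGroup.of_mul_of, mul_inv_cancel, FreeAbelianGroup.of_one]

/-- The ring maps to the quotient of the group ring. -/
noncomputable def psiR (D : ℕ) : RR D →+* (FreeAbelianGroup (PP D) ⧸ idF D) :=
  IsLocalization.Away.lift (fpoly D)
    (g := MvPolynomial.eval₂Hom (Int.castRingHom _)
      (fun i => Ideal.Quotient.mk (idF D) (FreeAbelianGroup.of (gen false i)))) (by
    rw [fpoly, map_prod]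
    refine Finset.prod_induction _ IsUnit (fun _ _ => IsUnit.mul) isUnit_one ?_
    intro i _
    rw [map_mul, map_add, map_one, MvPolynomial.eval₂Hom_X']
    apply IsUnit.mul
    · exact (isUnit_of _).map (Ideal.Quotient.mk (idF D))
    · have h := mk_relF i
      rw [map_add, map_add, map_one] at h
      have h2 : Ideal.Quotient.mk (idF D) (FreeAbelianGroup.of (gen false i)) + 1
          = -(Ideal.Quotient.mk (idF D) (FreeAbelianGroup.of (gen true i))) := by
        linear_combination h
      rw [h2]
      exact ((isUnit_of _).map (Ideal.Quotient.mk (idF D))).neg)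

theorem psiR_xR {D : ℕ} (i : Fin D) :
    psiR D (xR i) = Ideal.Quotient.mk (idF D) (FreeAbelianGroup.of (gen false i)) := by
  rw [psiR, xR, IsLocalization.Away.lift_eq, MvPolynomial.eval₂Hom_X']

theorem psiR_yR {D : ℕ} (i : Fin D) :
    psiR D (yR i) = Ideal.Quotient.mk (idF D) (FreeAbelianGroup.of (gen true i)) := by
  have h := mk_relF i
  rw [map_add, map_add, map_one] at h
  rw [yR, map_sub, map_neg, map_one, psiR_xR]
  linear_combination -h

theorem psiR_cf {D : ℕ} (u : PP D) :
    psiR D (cf (upsR D) u) = Ideal.Quotient.mk (idF D) (FreeAbelianGroup.of u) := by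
  have h : ((Units.map (psiR D : RR D →* _)).comp (upsR D))
      = (Units.map ((Ideal.Quotient.mk (idF D)) :
          FreeAbelianGroup (PP D) →* (FreeAbelianGroup (PP D) ⧸ idF D))).comp
        ((Units.map (FreeAbelianGroup.ofMulHom :
          PP D →* FreeAbelianGroup (PP D))).comp (toUnits (G := PP D)).toMonoidHom) := by
    apply torHom_ext
    intro b i
    ext
    cases b
    · change psiR D (cf (upsR D) (gen false i)) = Ideal.Quotient.mk (idF D) (FreeAbelianGroup.of _)
      rw [cf_gen_false, psiR_xR]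
      rfl
    · change psiR D (cf (upsR D) (gen true i)) = Ideal.Quotient.mk (idF D) (FreeAbelianGroup.of _)
      rw [cf_gen_true, psiR_yR]
      rfl
  exact congrArg Units.val (DFunLike.congr_fun h u)

theorem psiR_phiF {D : ℕ} (z : FreeAbelianGroup (PP D)) :
    psiR D (phiF D z) = Ideal.Quotient.mk (idF D) z := by
  have h : ((psiR D).comp (phiF D)).toAddMonoidHom = (Ideal.Quotient.mk (idF D)).toAddMonoidHom := by
    apply FreeAbelianGroup.lift_ext
    intro u
    change psiR D (phiF D (FreeAbelianGroup.of u)) = Ideal.Quotient.mk (idF D) (FreeAbelianGroup.of u)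
    rw [phiF_of, psiR_cf]
  exact DFunLike.congr_fun h z

theorem phiF_ker {D : ℕ} {z : FreeAbelianGroup (PP D)} (hz : phiF D z = 0) : z ∈ idF D := by
  rw [← Ideal.Quotient.eq_zero_iff_mem, ← psiR_phiF, hz, map_zero]

theorem phiF_surjective (D : ℕ) : Function.Surjective (phiF D) := by
  intro r
  have hpoly : ∀ p : MvPolynomial (Fin D) ℤ,
      algebraMap (MvPolynomial (Fin D) ℤ) (RR D) p ∈ (phiF D).range := by
    intro p
    induction p using MvPolynomial.induction_on with
    | C a => 
      rw [← MvPolynomial.algebraMap_eq]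
      have : algebraMap (MvPolynomial (Fin D) ℤ) (RR D) (algebraMap ℤ (MvPolynomial (Fin D) ℤ) a)
          = ((a : ℤ) : RR D) := by simp
      rw [this]
      exact intCast_mem _ _
    | add p q hp hq => rw [map_add]; exact add_mem hp hq
    | mul_X p i hp =>
      rw [map_mul]
      refine mul_mem hp ?_
      refine ⟨FreeAbelianGroup.of (gen false i), ?_⟩
      rw [phiF_of, cf_gen_false]; rfl
  obtain ⟨n, p, hp⟩ := IsLocalization.Away.surj (fpoly D) r
  obtain ⟨z, hz⟩ := hpoly p
  -- the inverse of `f` is in the range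
  have hinv : ∃ y ∈ (phiF D).range,
      algebraMap (MvPolynomial (Fin D) ℤ) (RR D) (fpoly D) * y = 1 := by
    refine ⟨∏ i : Fin D, -(cf (upsR D) (gen false i)⁻¹ * cf (upsR D) (gen true i)⁻¹), ?_, ?_⟩
    · apply prod_mem
      intro i _
      apply neg_mem
      apply mul_mem
      · exact ⟨_, phiF_of _⟩
      · exact ⟨_, phiF_of _⟩
    · rw [algebraMap_fpoly, ← Finset.prod_mul_distrib]
      apply Finset.prod_eq_one
      intro i _
      have h1 := cf_mul_inv (upsR D) (gen false i)
      have h2 := cf_mul_inv (upsR D) (gen true i)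
      rw [cf_gen_false] at h1
      rw [cf_gen_true, yR] at h2
      linear_combination (-(-1 - xR i) * cf (upsR D) (gen true i)⁻¹ * -1) * h1 + h2
  obtain ⟨y, hy, hfy⟩ := hinv
  have hmem : r ∈ (phiF D).range := by
    have : r = algebraMap _ _ p * y ^ n := by
      rw [← hp, mul_assoc, ← mul_pow, hfy, one_pow, mul_one]
    rw [this]
    exact mul_mem (hpoly p) (pow_mem hy n)
  exact hmem

/-- Additive homomorphisms out of the ring, for a family of commuting elements of a group. -/
theorem exists_hom {D : ℕ} {G : Type} [Group G] (e : PP D → G)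
    (hc : ∀ u v, Commute (e u) (e v))
    (hr : ∀ i u, e u * e (gen false i * u) * e (gen true i * u) = 1) :
    ∃ E : Multiplicative (RR D) →* G, ∀ u, E (Multiplicative.ofAdd (cf (upsR D) u)) = e u := by
  classical
  -- the commutative closure
  have hcomm : ∀ x ∈ Set.range e, ∀ y ∈ Set.range e, x * y = y * x := by
    rintro _ ⟨u, rfl⟩ _ ⟨v, rfl⟩
    exact hc u v
  let _inst : CommGroup (Subgroup.closure (Set.range e)) :=
    { (inferInstance : Group (Subgroup.closure (Set.range e))) with
      mul_comm := (Subgroup.isMulCommutative_closure hcomm).is_comm.comm }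
  let e' : PP D → Additive (Subgroup.closure (Set.range e)) := fun u =>
    Additive.ofMul ⟨e u, Subgroup.subset_closure ⟨u, rfl⟩⟩
  let E1 : FreeAbelianGroup (PP D) →+ Additive (Subgroup.closure (Set.range e)) :=
    FreeAbelianGroup.lift e'
  have hE1 : ∀ u, E1 (FreeAbelianGroup.of u) = e' u := fun u => FreeAbelianGroup.lift_apply_of _ _
  have hrel : ∀ i z, E1 (z * relF i) = 0 := by
    intro i z
    induction z using FreeAbelianGroup.induction_on with
    | zero => rw [zero_mul, map_zero]
    | of u =>
      rw [relF, mul_add, mul_add, mul_one, FreeAbelianGroup.of_mul_of, FreeAbelianGroup.of_mul_of,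
        map_add, map_add, hE1, hE1, hE1, mul_comm u, mul_comm u]
      apply Additive.toMul.injective
      apply Subtype.ext
      exact hr i u
    | neg u h => rw [neg_mul, map_neg, h, neg_zero]
    | add x y hx hy => rw [add_mul, map_add, hx, hy, add_zero]
  have hker : (phiF D).toAddMonoidHom.ker ≤ E1.ker := by
    intro z hz
    have hz' : z ∈ idF D := phiF_ker hz
    rw [idF, Ideal.mem_span_range_iff_exists_fun] at hz'
    obtain ⟨c, rfl⟩ := hz'
    rw [AddMonoidHom.mem_ker, map_sum]
    exact Finset.sum_eq_zero (fun i _ => hrel i _)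
  let E2 : RR D →+ Additive (Subgroup.closure (Set.range e)) :=
    (phiF D).toAddMonoidHom.liftOfSurjective (phiF_surjective D) ⟨E1, hker⟩
  have hE2 : ∀ z, E2 (phiF D z) = E1 z := fun z =>
    AddMonoidHom.liftOfRightInverse_comp_apply _ _ _ _ z
  refine ⟨(Subgroup.subtype _).comp (AddMonoidHom.toMultiplicativeLeft E2), ?_⟩
  intro u
  rw [← phiF_of]
  change ((Additive.toMul (E2 (phiF D (FreeAbelianGroup.of u))) :
    Subgroup.closure (Set.range e)) : G) = e u
  rw [hE2, hE1]
  rfl

end Pool.Agent.LibLPres
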