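import Pool.Agent.LibLPres.PresIso2

set_option autoImplicit false
set_option linter.unusedSectionVars false

namespace Pool.Agent.LibLPres

open scoped commutatorElement

/-- The free group of rank two is not solvable. -/
theorem not_solvable_free : ¬ Group.IsSolvable (FreeGroup (Fin 2)) := by
  intro h
  apply Equiv.Perm.not_isSolvable_fin_5
  let σ : Equiv.Perm (Fin 5) := finRotate 5
  let f : FreeGroup (Fin 2) →* Equiv.Perm (Fin 5) :=
    FreeGroup.lift ![σ, Equiv.swap 0 (σ 0)]
  have hsurj : Function.Surjective f := by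
    rw [← MonoidHom.range_eq_top, eq_top_iff]
    have h1 : Equiv.Perm.IsCycle σ := isCycle_finRotate
    have h2 : σ.support = Finset.univ := support_finRotate
    rw [← Equiv.Perm.closure_cycle_adjacent_swap h1 h2 0, Subgroup.closure_le]
    rintro x (rfl | hx)
    · exact ⟨FreeGroup.of 0, by simp [f]⟩
    · rw [Set.mem_singleton_iff] at hx
      subst hx
      exact ⟨FreeGroup.of 1, by simp [f]⟩
  exact Group.isSolvable_of_surjective hsurj

section base

variable {D : ℕ}

/-- projection to the torus -/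
noncomputable def prT (D : ℕ) : Hc D →* PP D × PP D :=
  MonoidHom.mk' (fun h => (h.u, h.w)) (fun _ _ => rfl)

theorem hc_derived : derivedSeries (Hc D) 3 = ⊥ := by
  have h1 : derivedSeries (Hc D) 1 ≤ (prT D).ker := by
    rw [derivedSeries_succ, Subgroup.commutator_le]
    intro x _ y _
    rw [MonoidHom.mem_ker, map_commutatorElement]
    exact commutatorElement_eq_one_iff_commute.mpr (Commute.all _ _)
  have h2 : ∀ x ∈ derivedSeries (Hc D) 2, x.e = 0 ∧ x.u = 1 ∧ x.w = 1 := by
    let S : Subgroup (Hc D) :=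
      { carrier := {x | x.e = 0 ∧ x.u = 1 ∧ x.w = 1}
        one_mem' := ⟨rfl, rfl, rfl⟩
        mul_mem' := by
          rintro x y ⟨hx1, hx2, hx3⟩ ⟨hy1, hy2, hy3⟩
          refine ⟨?_, ?_, ?_⟩
          · rw [KG.mul_e, hx1, hy1]; simp
          · rw [KG.mul_u, hx2, hy2, one_mul]
          · rw [KG.mul_w, hx3, hy3, one_mul]
        inv_mem' := by
          rintro x ⟨hx1, hx2, hx3⟩
          refine ⟨?_, ?_, ?_⟩
          · rw [KG.inv_e, hx1]; simp
          · rw [KG.inv_u, hx2, inv_one]
          · rw [KG.inv_w, hx3, inv_one] }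
    have : derivedSeries (Hc D) 2 ≤ S := by
      rw [derivedSeries_succ, Subgroup.commutator_le]
      intro x hx y hy
      have hx' := h1 hx
      have hy' := h1 hy
      rw [MonoidHom.mem_ker] at hx' hy'
      have hxu : x.u = 1 := congrArg Prod.fst hx'
      have hxw : x.w = 1 := congrArg Prod.snd hx'
      have hyu : y.u = 1 := congrArg Prod.fst hy'
      have hyw : y.w = 1 := congrArg Prod.snd hy'
      refine ⟨?_, ?_, ?_⟩
      · rw [commutatorElement_def]
        simp only [KG.mul_e, KG.inv_e, KG.mul_u, KG.mul_w, KG.inv_u, KG.inv_w, hxu, hxw, hyu, hyw,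
          inv_one, cf_one, mul_one, one_mul]
        ring
      · rw [commutatorElement_def]
        simp [hxu, hyu]
      · rw [commutatorElement_def]
        simp [hxw, hyw]
    exact this
  rw [eq_bot_iff, derivedSeries_succ, Subgroup.commutator_le]
  intro x hx y hy
  obtain ⟨hx1, hx2, hx3⟩ := h2 x hx
  obtain ⟨hy1, hy2, hy3⟩ := h2 y hy
  rw [Subgroup.mem_bot, commutatorElement_eq_one_iff_commute]
  change x * y = y * x
  apply KG.ext
  · simp only [KG.mul_r1, hx2, hy2, inv_one, cf_one, one_smul]; exact add_comm _ _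
  · simp only [KG.mul_r2, hx1, hx2, hx3, hy1, hy2, hy3, inv_one, cf_one, one_smul, zero_mul,
      zero_smul, add_zero]; exact add_comm _ _
  · simp only [KG.mul_c1, hx3, hy3, cf_one, one_smul]; exact add_comm _ _
  · simp only [KG.mul_c2, hx1, hx2, hx3, hy1, hy2, hy3, cf_one, one_smul, zero_mul,
      zero_smul, add_zero]; exact add_comm _ _
  · simp only [KG.mul_e, hx1, hx2, hx3, hy1, hy2, hy3, inv_one, cf_one, mul_zero]
  · simp only [KG.mul_u, hx2, hy2]
  · simp only [KG.mul_w, hx3, hy3]

end base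

namespace Asc

variable {G H : Type} [Group G] [Group H] {ι : H →* G} {t : G} {Ψ : H →* H}
  {χ : G →* Multiplicative ℤ}

theorem iter_hom (Ψ : H →* H) (n : ℕ) : ∃ f : H →* H, ∀ h, f h = Ψ^[n] h := by
  induction n with
  | zero => exact ⟨MonoidHom.id H, fun _ => rfl⟩
  | succ n ih =>
    obtain ⟨f, hf⟩ := ih
    exact ⟨f.comp Ψ, fun h => by rw [Function.iterate_succ_apply, MonoidHom.comp_apply, hf]⟩

theorem raise (A : Asc ι t Ψ χ) (n k : ℕ) (h : H) :
    (t ^ n)⁻¹ * ι h * t ^ n = (t ^ (n + k))⁻¹ * ι (Ψ^[k] h) * t ^ (n + k) := by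
  rw [← A.conj_pow k h, add_comm n k, pow_add]
  group

theorem ker_form (A : Asc ι t Ψ χ) {g : G} (hg : χ g = 1) :
    ∃ (n : ℕ) (h : H), g = (t ^ n)⁻¹ * ι h * t ^ n := by
  obtain ⟨a, b, h, rfl⟩ := A.nf g
  rw [A.chi_nf] at hg
  have h1 : (b : ℤ) - a = 0 := hg
  have h2 : b = a := by omega
  subst h2
  exact ⟨b, h, rfl⟩

theorem derived_form (A : Asc ι t Ψ χ) (j : ℕ) : ∀ g ∈ derivedSeries G (j + 1),
    ∃ (n : ℕ), ∃ h ∈ derivedSeries H j, g = (t ^ n)⁻¹ * ι h * t ^ n := by
  have hmono : ∀ (j k : ℕ) (h : H), h ∈ derivedSeries H j → Ψ^[k] h ∈ derivedSeries H j := by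
    intro j k h hh
    obtain ⟨f, hf⟩ := iter_hom Ψ k
    rw [← hf]
    exact map_derivedSeries_le_derivedSeries f j ⟨h, hh, rfl⟩
  have hS : ∀ j : ℕ, ∃ S : Subgroup G, ∀ g, g ∈ S ↔
      ∃ (n : ℕ), ∃ h ∈ derivedSeries H j, g = (t ^ n)⁻¹ * ι h * t ^ n := by
    intro j
    refine ⟨{
      carrier := {g | ∃ (n : ℕ), ∃ h ∈ derivedSeries H j, g = (t ^ n)⁻¹ * ι h * t ^ n}
      one_mem' := ⟨0, 1, Subgroup.one_mem _, by simp⟩
      mul_mem' := ?_
      inv_mem' := ?_ }, fun g => Iff.rfl⟩
    · rintro x y ⟨n, h, hh, rfl⟩ ⟨m, k, hk, rfl⟩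
      refine ⟨n + m, Ψ^[m] h * Ψ^[n] k, Subgroup.mul_mem _ (hmono _ _ _ hh) (hmono _ _ _ hk), ?_⟩
      rw [A.raise n m h, A.raise m n k, add_comm m n, map_mul]
      group
    · rintro x ⟨n, h, hh, rfl⟩
      refine ⟨n, h⁻¹, Subgroup.inv_mem _ hh, ?_⟩
      rw [map_inv]; group
  induction j with
  | zero =>
    intro g hg
    have hχ : χ g = 1 := by
      have : derivedSeries G 1 ≤ χ.ker := by
        rw [derivedSeries_succ, Subgroup.commutator_le]
        intro x _ y _
        rw [MonoidHom.mem_ker, map_commutatorElement]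
        exact commutatorElement_eq_one_iff_commute.mpr (Commute.all _ _)
      exact this hg
    obtain ⟨n, h, rfl⟩ := A.ker_form hχ
    exact ⟨n, h, by rw [derivedSeries_zero]; exact Subgroup.mem_top _, rfl⟩
  | succ j ih =>
    obtain ⟨S, hS⟩ := hS (j + 1)
    have : derivedSeries G (j + 1 + 1) ≤ S := by
      rw [derivedSeries_succ, Subgroup.commutator_le]
      intro x hx y hy
      obtain ⟨n, h, hh, rfl⟩ := ih x hx
      obtain ⟨m, k, hk, rfl⟩ := ih y hy
      rw [hS]
      refine ⟨n + m, ⁅Ψ^[m] h, Ψ^[n] k⁆, ?_, ?_⟩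
      · rw [derivedSeries_succ]
        exact Subgroup.commutator_mem_commutator (hmono _ _ _ hh) (hmono _ _ _ hk)
      · rw [A.raise n m h, A.raise m n k, add_comm m n, map_commutatorElement]
        rw [commutatorElement_def, commutatorElement_def]
        group
    intro g hg
    exact (hS g).mp (this hg)

theorem solvable (A : Asc ι t Ψ χ) (j : ℕ) (hj : derivedSeries H j = ⊥) : Group.IsSolvable G := by
  refine ⟨⟨j + 1, ?_⟩⟩
  rw [eq_bot_iff]
  intro g hg
  obtain ⟨n, h, hh, rfl⟩ := A.derived_form j g hg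
  rw [hj, Subgroup.mem_bot] at hh
  subst hh
  rw [Subgroup.mem_bot, map_one]
  group

end Asc

theorem asc_ee (D : ℕ) : Asc (HNNExtension.of : Hc D →* EE D) HNNExtension.t (Psi D)
    (hgt (ascEquiv (Psi D) (Psi_injective D))) := by
  have := asc_hnn (ascEquiv (Psi D) (Psi_injective D))
  rw [endo_ascEquiv] at this
  exact this

theorem ee_no_free (D : ℕ) : ¬ ∃ f : FreeGroup (Fin 2) →* EE D, Function.Injective f := by
  rintro ⟨f, hf⟩
  have h1 : Group.IsSolvable (EE D) := (asc_ee D).solvable 3 hc_derived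
  exact not_solvable_free (Group.isSolvable_of_isSolvable_injective hf)

theorem ee_indicable (D : ℕ) : ∃ f : EE D →* Multiplicative ℤ, Function.Surjective f := by
  refine ⟨hgt _, ?_⟩
  intro n
  refine ⟨HNNExtension.t ^ (Multiplicative.toAdd n), ?_⟩
  rw [map_zpow, (asc_ee D).chi_t, ← ofAdd_zsmul]
  simp

/-- The first Betti number is one. -/
theorem ee_betti {D : ℕ} (i0 : Fin D) (ν : EE D →* Multiplicative ℤ) (h : Hc D) :
    ν (HNNExtension.of h) = 1 := by
  have R := rels_base (HNNExtension.of : Hc D →* EE D) HNNExtension.t ee_conj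
  have hm : ∀ x y : EE D, Multiplicative.toAdd (ν (x * y))
      = Multiplicative.toAdd (ν x) + Multiplicative.toAdd (ν y) := by
    intro x y; rw [map_mul, toAdd_mul]
  have hi : ∀ x : EE D, Multiplicative.toAdd (ν x⁻¹) = -Multiplicative.toAdd (ν x) := by
    intro x; rw [map_inv, toAdd_inv]
  have hp : ∀ (x : EE D) (n : ℕ), Multiplicative.toAdd (ν (x ^ n))
      = n * Multiplicative.toAdd (ν x) := by
    intro x n; rw [map_pow, toAdd_pow]; simp
  have h1 : Multiplicative.toAdd (ν (1 : EE D)) = 0 := by rw [map_one]; rfl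
  have hz : ∀ x : EE D, Multiplicative.toAdd (ν x) = 0 → ν x = 1 := fun x hx => hx
  have hf : ν.comp (HNNExtension.of : Hc D →* EE D) = 1 := by
    apply Hc_hom_ext
    · change ν (HNNExtension.of (rowE 1 0)) = 1
      apply hz
      have := congrArg (fun x => Multiplicative.toAdd (ν x)) R.a3
      simp only [hp, h1] at this
      push_cast at this
      omega
    · change ν (HNNExtension.of (eE 1)) = 1
      apply hz
      have := congrArg (fun x => Multiplicative.toAdd (ν x)) (R.rb i0)
      simp only [hm, hi, h1] at this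
      omega
    · change ν (HNNExtension.of (colE 1 0)) = 1
      apply hz
      have := congrArg (fun x => Multiplicative.toAdd (ν x)) R.tc
      simp only [hm, hi, hp] at this
      push_cast at this
      omega
    · have h2 : ∀ i, Multiplicative.toAdd (ν (HNNExtension.of (hP (false, i)))) = 0 := by
        intro i
        have e1 := congrArg (fun x => Multiplicative.toAdd (ν x)) (R.tp0 i)
        have e2 := congrArg (fun x => Multiplicative.toAdd (ν x)) (R.tp1 i)
        simp only [hm, hi] at e1 e2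
        omega
      rintro ⟨b, i⟩
      cases b
      · exact hz _ (h2 i)
      · apply hz
        have e2 := congrArg (fun x => Multiplicative.toAdd (ν x)) (R.tp1 i)
        simp only [hm, hi] at e2
        have e3 := h2 i
        change Multiplicative.toAdd (ν (HNNExtension.of (hP (true, i)))) = 0
        omega
    · have h2 : ∀ i, Multiplicative.toAdd (ν (HNNExtension.of (hQ (false, i)))) = 0 := by
        intro i
        have e1 := congrArg (fun x => Multiplicative.toAdd (ν x)) (R.tq0 i)
        have e2 := congrArg (fun x => Multiplicative.toAdd (ν x)) (R.tq1 i)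
        simp only [hm, hi] at e1 e2
        omega
      rintro ⟨b, i⟩
      cases b
      · exact hz _ (h2 i)
      · apply hz
        have e2 := congrArg (fun x => Multiplicative.toAdd (ν x)) (R.tq1 i)
        simp only [hm, hi] at e2
        have e3 := h2 i
        change Multiplicative.toAdd (ν (HNNExtension.of (hQ (true, i)))) = 0
        omega
  exact DFunLike.congr_fun hf h

end Pool.Agent.LibLPres
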