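import Pool.Agent.LibLPres.Base

set_option autoImplicit false
set_option linter.unusedSectionVars false

namespace Pool.Agent.LibLPres

section

variable {D : ℕ} {L : Type} [Group L]

/-- A finitely generated group mapping to the kernel can be conjugated into the base. -/
theorem exists_conj_into {G H : Type} [Group G] [Group H] {ι : H →* G} {t : G} {Ψ : H →* H}
    {χ : G →* Multiplicative ℤ} (A : Asc ι t Ψ χ) {m : ℕ} (F : FreeGroup (Fin m) →* G)
    (hF : ∀ w, χ (F w) = 1) : ∃ N : ℕ, ∀ w, ∃ h, t ^ N * F w * (t ^ N)⁻¹ = ι h := by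
  have h1 : ∀ i : Fin m, ∃ (n : ℕ) (h : H), F (FreeGroup.of i) = (t ^ n)⁻¹ * ι h * t ^ n :=
    fun i => A.ker_form (hF _)
  choose n h hn using h1
  refine ⟨Finset.univ.sup n, ?_⟩
  intro w
  refine FreeGroup.induction_on w ⟨1, by simp⟩ ?_ ?_ ?_
  · intro i
    have hle : n i ≤ Finset.univ.sup n := Finset.le_sup (Finset.mem_univ i)
    obtain ⟨k, hk⟩ := Nat.exists_eq_add_of_le hle
    refine ⟨Ψ^[k] (h i), ?_⟩
    rw [hn i, hk, ← A.conj_pow, add_comm, pow_add]
    group
  · intro i hi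
    obtain ⟨x, hx⟩ := hi
    refine ⟨x⁻¹, ?_⟩
    rw [map_inv, map_inv, ← hx]; group
  · intro x y hx hy
    obtain ⟨a, ha⟩ := hx
    obtain ⟨b, hb⟩ := hy
    refine ⟨a * b, ?_⟩
    rw [map_mul, map_mul, ← ha, ← hb]; group

theorem height_rel {G H : Type} [Group G] [Group H] {ι : H →* G} {t : G} {Ψ : H →* H}
    {χ : G →* Multiplicative ℤ} (A : Asc ι t Ψ χ) (ν : G →* Multiplicative ℤ)
    (hν : ∀ h, ν (ι h) = 1) (g : G) :
    Multiplicative.toAdd (ν g) = Multiplicative.toAdd (ν t) * Multiplicative.toAdd (χ g) := by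
  obtain ⟨a, b, h, hg, hc⟩ := A.nf_chi g
  have h1 : ν g = (ν t ^ a)⁻¹ * ν t ^ b := by
    rw [hg, MonoidHom.map_mul, MonoidHom.map_mul, MonoidHom.map_inv, MonoidHom.map_pow,
      MonoidHom.map_pow, hν, mul_one]
  rw [hc, h1, toAdd_mul, toAdd_inv, toAdd_pow, toAdd_pow]
  simp only [nsmul_eq_mul]
  ring

/-- The structural consequences of a second ascending decomposition. -/
theorem exists_J (i0 : Fin D) {j : L →* EE D} {t' : EE D} {Ψ' : L →* L}
    {ν : EE D →* Multiplicative ℤ} (A' : Asc j t' Ψ' ν) {m : ℕ} (f0 : FreeGroup (Fin m) →* L)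
    (hf0 : Function.Surjective f0) : ∃ J : L →* Hc D, Function.Injective J ∧
      (∀ x y, ∃ l, J l = rowE x y) ∧
      (∃ l, (J l).e = 0 ∧ (J l).u = gen false i0 ∧ (J l).w = gen false i0) ∧
      (∃ l, (J l).e = 0 ∧ (J l).u = 1 ∧ (J l).w = 1 ∧ ∃ (n : ℕ) (v : RR D), IsUnit v ∧
        (J l).c1 = 3 ^ n * v) := by
  have A := asc_ee D
  set χ := hgt (ascEquiv (Psi D) (Psi_injective D)) with hχ
  have hν : ∀ h : Hc D, ν (HNNExtension.of h) = 1 := ee_betti i0 ν
  have hrel := height_rel A ν hν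
  -- step 1
  have hs := hrel t'
  rw [A'.chi_t] at hs
  have hs' : Multiplicative.toAdd (ν HNNExtension.t) * Multiplicative.toAdd (χ t') = 1 := hs.symm
  have hT0 : Multiplicative.toAdd (ν HNNExtension.t) ≠ 0 := by
    intro h; rw [h, zero_mul] at hs'; exact absurd hs' (by norm_num)
  have hsgn : Multiplicative.toAdd (χ t') = 1 ∨ Multiplicative.toAdd (χ t') = -1 := by
    have hu : IsUnit (Multiplicative.toAdd (χ t')) := IsUnit.of_mul_eq_one_right _ hs'
    exact Int.isUnit_iff.mp hu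
  have hχj : ∀ l, χ (j l) = 1 := by
    intro l
    have h := hrel (j l)
    rw [A'.chi_of] at h
    have h2 : Multiplicative.toAdd (ν HNNExtension.t) * Multiplicative.toAdd (χ (j l)) = 0 := h.symm
    rcases mul_eq_zero.mp h2 with h3 | h3
    · exact absurd h3 hT0
    · exact h3
  -- step 2
  obtain ⟨N, hN⟩ := exists_conj_into A (j.comp f0) (fun w => hχj _)
  have A1 := A'.conjugate (HNNExtension.t ^ N)
  set t1 : EE D := HNNExtension.t ^ N * t' * (HNNExtension.t ^ N)⁻¹ with ht1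
  have hJ : ∀ l, ∃ h : Hc D, HNNExtension.t ^ N * j l * (HNNExtension.t ^ N)⁻¹
      = HNNExtension.of h := by
    intro l
    obtain ⟨w, rfl⟩ := hf0 l
    exact hN w
  choose J0 hJ0 using hJ
  let J : L →* Hc D := MonoidHom.mk' J0 (by
    intro x y
    apply A.inj
    rw [map_mul, ← hJ0, ← hJ0, ← hJ0, map_mul]; group)
  have hJι : ∀ l, HNNExtension.of (J l) = ((MulAut.conj (HNNExtension.t ^ N)).toMonoidHom.comp j) l
      := fun l => (hJ0 l).symm
  have hJinj : Function.Injective J := by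
    intro x y hxy
    apply A1.inj
    rw [← hJι, ← hJι, hxy]
  have hχt1 : Multiplicative.toAdd (χ t1) = Multiplicative.toAdd (χ t') := by
    have h1 : χ t1 = χ t' := by
      rw [ht1, MonoidHom.map_mul, MonoidHom.map_mul, MonoidHom.map_inv,
        mul_comm (χ (HNNExtension.t ^ N)), mul_inv_cancel_right]
    rw [h1]
  -- step 3 : everything is conjugated into the subgroup
  have hS : ∀ n : ℕ, ∃ S : Subgroup (Hc D), ∀ x, x ∈ S ↔
      ∃ l, t1 ^ n * HNNExtension.of x * (t1 ^ n)⁻¹ = HNNExtension.of (J l) := by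
    intro n
    refine ⟨{
      carrier := {x | ∃ l, t1 ^ n * HNNExtension.of x * (t1 ^ n)⁻¹ = HNNExtension.of (J l)}
      one_mem' := ⟨1, by simp⟩
      mul_mem' := ?_
      inv_mem' := ?_ }, fun x => Iff.rfl⟩
    · rintro x y ⟨k, hk⟩ ⟨l, hl⟩
      refine ⟨k * l, ?_⟩
      rw [map_mul, map_mul, map_mul, ← hk, ← hl]; group
    · rintro x ⟨k, hk⟩
      refine ⟨k⁻¹, ?_⟩
      rw [map_inv, map_inv, map_inv, ← hk]; group
  have hmono : ∀ (n k : ℕ) (x : Hc D),
      (∃ l, t1 ^ n * HNNExtension.of x * (t1 ^ n)⁻¹ = HNNExtension.of (J l)) →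
      ∃ l, t1 ^ (n + k) * HNNExtension.of x * (t1 ^ (n + k))⁻¹ = HNNExtension.of (J l) := by
    rintro n k x ⟨l, hl⟩
    refine ⟨Ψ'^[k] l, ?_⟩
    rw [hJι, ← A1.conj_pow, ← hJι, ← hl, add_comm n k, pow_add]; group
  have hex : ∀ x : Hc D, ∃ n : ℕ, ∃ l, t1 ^ n * HNNExtension.of x * (t1 ^ n)⁻¹
      = HNNExtension.of (J l) := by
    intro x
    obtain ⟨n, l, hl⟩ := A1.ker_form (hν x)
    refine ⟨n, l, ?_⟩
    rw [hJι, hl]; group
  have hunif : ∃ n0 : ℕ, ∀ n, n0 ≤ n → ∀ x : Hc D, ∃ l,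
      t1 ^ n * HNNExtension.of x * (t1 ^ n)⁻¹ = HNNExtension.of (J l) := by
    choose nn hnn using fun k : Gn D => hex (gval (MonoidHom.id (Hc D)) 1 k)
    refine ⟨Finset.univ.sup nn, ?_⟩
    intro n hn x
    obtain ⟨S, hS⟩ := hS n
    rw [← hS]
    have hk : ∀ k : Gn D, gval (MonoidHom.id (Hc D)) 1 k ∈ S := by
      intro k
      rw [hS]
      have hle : nn k ≤ n := le_trans (Finset.le_sup (f := nn) (Finset.mem_univ k)) hn
      obtain ⟨d, rfl⟩ := Nat.exists_eq_add_of_le hle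
      exact hmono _ _ _ (hnn k)
    exact Hc_gen S (hk (Sum.inl 0)) (hk (Sum.inl 1)) (hk (Sum.inl 2))
      (fun i => hk (Sum.inr (Sum.inl i))) (fun i => hk (Sum.inr (Sum.inr i))) x
  obtain ⟨n0, hn0⟩ := hunif
  set n := n0 + 1 with hn
  have hn1 := hn0 n (by omega)
  -- the element `t1 ^ n`
  obtain ⟨a, b, h, hg, hab⟩ := A.nf_chi (t1 ^ n)
  have hab' : (b : ℤ) - a = n * Multiplicative.toAdd (χ t') := by
    rw [← hab, map_pow, toAdd_pow, hχt1]; simp
  have hform : ∀ x y : Hc D, t1 ^ n * HNNExtension.of x * (t1 ^ n)⁻¹ = HNNExtension.of y →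
      (Psi D)^[a] y = h * (Psi D)^[b] x * h⁻¹ := by
    intro x y hxy
    rw [hg] at hxy
    exact A.conj_form hxy
  -- the column element
  obtain ⟨lc, hlc⟩ := hn1 (colE 1 0)
  have hc := hform _ _ hlc
  have hPc : (Psi D)^[b] (colE 1 0 : Hc D) = colE (3 ^ b) 0 := by
    rw [Psi_iter]
    apply KG.ext <;> simp [colE, Function.iterate_fixed]
  rw [hPc, conj_col_form, Psi_iter] at hc
  have hc1 : 3 ^ a * (sigR D)^[a] (J lc).c1 = cf (upsR D) h.w * 3 ^ b := congrArg KG.c1 hc
  have hce : (sigR D)^[a] (J lc).e = 0 := congrArg KG.e hc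
  have hcu : (sigP D)^[a] (J lc).u = 1 := congrArg KG.u hc
  have hcw : (sigP D)^[a] (J lc).w = 1 := congrArg KG.w hc
  have hiter0 : (sigR D)^[a] 0 = 0 := Function.iterate_fixed (map_zero _) a
  have hiter1 : (sigP D)^[a] 1 = 1 := Function.iterate_fixed (map_one _) a
  have h3ne : (3 : RR D) ≠ 0 := three_ne_zero'
  -- the sign
  have hsign : Multiplicative.toAdd (χ t') = 1 := by
    rcases hsgn with h1 | h1
    · exact h1
    · exfalso
      rw [h1] at hab'
      have hab2 : a = b + n := by omega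
      rw [hab2, pow_add, mul_comm (cf (upsR D) h.w), mul_assoc] at hc1
      have h2 := mul_left_cancel₀ (pow_ne_zero b h3ne) hc1
      rw [hn, pow_succ] at h2
      apply not_isUnit_three (D := D)
      have h4 : IsUnit (3 ^ n0 * 3 * (sigR D)^[b + n] (J lc).c1) := by
        rw [hn, h2]; exact isUnit_cf _ _
      exact isUnit_of_mul_isUnit_right (isUnit_of_mul_isUnit_left h4)
  rw [hsign, mul_one] at hab'
  have hab2 : b = a + n := by omega
  refine ⟨J, hJinj, ?_, ?_, ?_⟩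
  · -- rows
    intro x y
    -- conjugate back
    have hback : ∃ x' y', HNNExtension.of (rowE x' y') = (t1 ^ n)⁻¹ * HNNExtension.of (rowE x y)
        * (t1 ^ n) := by
      obtain ⟨a', b', h', hg', -⟩ := A.nf_chi (t1 ^ n)⁻¹
      have e1 := A.conj_eq a' b' h' (rowE x y)
      rw [← hg', inv_inv] at e1
      have e2 : (Psi D)^[b'] (rowE x y) = rowE ((sig3 D)^[b'] x) ((sig3 D)^[b'] y) := by
        rw [Psi_iter]
        apply KG.ext <;> simp [rowE, Function.iterate_fixed]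
      obtain ⟨x1, y1, e3⟩ := conj_row_form h' ((sig3 D)^[b'] x) ((sig3 D)^[b'] y)
      obtain ⟨x2, hx2⟩ := sig3_iter_surj a' x1
      obtain ⟨y2, hy2⟩ := sig3_iter_surj a' y1
      have e4 : (Psi D)^[a'] (rowE x2 y2) = rowE x1 y1 := by
        rw [Psi_iter, ← hx2, ← hy2]
        apply KG.ext <;> simp [rowE, Function.iterate_fixed]
      refine ⟨x2, y2, ?_⟩
      rw [e1, e2, e3, ← e4, A.unconj]
    obtain ⟨x', y', hxy⟩ := hback
    obtain ⟨l, hl⟩ := hn1 (rowE x' y')
    refine ⟨l, ?_⟩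
    apply A.inj
    rw [← hl, hxy]; group
  · obtain ⟨u, hu⟩ := sigP_iter_surj b ((sigP D)^[a] (gen false i0 : PP D))
    obtain ⟨l, hl⟩ := hn1 (tE u u)
    have hf := hform _ _ hl
    have e2 : (Psi D)^[b] (tE u u) = tE ((sigP D)^[b] u) ((sigP D)^[b] u) := by
      rw [Psi_iter]
      apply KG.ext <;> simp [tE, Function.iterate_fixed]
    rw [e2, hu] at hf
    obtain ⟨k1, k2, k3⟩ := conj_tor_form h ((sigP D)^[a] (gen false i0 : PP D))
    rw [← hf, Psi_iter] at k1 k2 k3
    refine ⟨l, ?_, ?_, ?_⟩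
    · apply sigR_iter_inj a
      rw [hiter0]; exact k1
    · exact sigP_iter_inj a k2
    · exact sigP_iter_inj a k3
  · refine ⟨lc, ?_, ?_, ?_, n, ?_⟩
    · apply sigR_iter_inj a
      rw [hiter0]; exact hce
    · apply sigP_iter_inj a
      rw [hiter1]; exact hcu
    · apply sigP_iter_inj a
      rw [hiter1]; exact hcw
    · rw [hab2, pow_add, mul_comm (cf (upsR D) h.w), mul_assoc] at hc1
      have h2 := mul_left_cancel₀ (pow_ne_zero a h3ne) hc1
      -- find the preimage of the unit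
      obtain ⟨w', hw'⟩ := sigP_iter_surj a h.w
      refine ⟨cf (upsR D) w', isUnit_cf _ _, ?_⟩
      apply sigR_iter_inj a
      rw [h2]
      have e1 : ∀ (k : ℕ) (r s : RR D), (sigR D)^[k] (r * s) = (sigR D)^[k] r * (sigR D)^[k] s := by
        intro k r s
        exact iterate_map_mul (sigR D) k r s
      have e2 : ∀ (k : ℕ), (sigR D)^[k] (3 ^ n) = 3 ^ n := by
        intro k
        apply Function.iterate_fixed
        rw [map_pow, map_ofNat]
      have e3 : ∀ (k : ℕ) (w : PP D), (sigR D)^[k] (cf (upsR D) w)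
          = cf (upsR D) ((sigP D)^[k] w) := by
        intro k
        induction k with
        | zero => intro w; rfl
        | succ k ih => intro w; rw [Function.iterate_succ_apply, sigR_cf, ih,
            Function.iterate_succ_apply]
      rw [e1, e2, e3, hw']

end

end Pool.Agent.LibLPres
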