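import Pool.Agent.LibLPres.Lin

set_option autoImplicit false
set_option linter.unusedSectionVars false

namespace Pool.Agent.LibLPres

/-- Periodicity modulo powers of three. -/
theorem tl_ring {S : Type} [Ring S] (E : S) (q i r : ℕ)
    (h : ((3 * q : ℕ) : S) ∣ E ^ i * (E ^ r - 1)) (e : ℕ) :
    ((3 ^ (e + 1) * q : ℕ) : S) ∣ E ^ (i * (e + 1)) * (E ^ (r * 3 ^ e) - 1) := by
  induction e with
  | zero => simpa using h
  | succ e ih =>
    obtain ⟨y, hy⟩ := h
    obtain ⟨z, hz⟩ := ih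
    have hg : ∃ g : Polynomial ℤ, (Polynomial.X ^ (r * 3 ^ e) - 1 : Polynomial ℤ)
        = (Polynomial.X ^ r - 1) * g := by
      obtain ⟨g, hg⟩ := sub_one_dvd_pow_sub_one (Polynomial.X ^ r : Polynomial ℤ) (3 ^ e)
      exact ⟨g, by rw [pow_mul]; exact hg⟩
    obtain ⟨g, hg⟩ := hg
    have key : (Polynomial.X ^ (i * (e + 1 + 1)) * (Polynomial.X ^ (r * 3 ^ (e + 1)) - 1)
        : Polynomial ℤ) = (Polynomial.X ^ (i * (e + 1)) * (Polynomial.X ^ (r * 3 ^ e) - 1))
          * (3 * (Polynomial.X ^ (r * 3 ^ e) * Polynomial.X ^ i))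
        + (Polynomial.X ^ (i * (e + 1)) * (Polynomial.X ^ (r * 3 ^ e) - 1))
          * ((Polynomial.X ^ i * (Polynomial.X ^ r - 1)) * (g * (Polynomial.X ^ (r * 3 ^ e) - 1)))
        := by
      have e1 : (Polynomial.X ^ (r * 3 ^ (e + 1)) : Polynomial ℤ)
          = (Polynomial.X ^ (r * 3 ^ e)) ^ 3 := by
        rw [← pow_mul]; congr 1; rw [pow_succ]; ring
      rw [e1]
      have e2 : (Polynomial.X ^ i * (Polynomial.X ^ r - 1) *
          (g * (Polynomial.X ^ (r * 3 ^ e) - 1)) : Polynomial ℤ)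
          = Polynomial.X ^ i * (((Polynomial.X ^ r - 1) * g)
            * (Polynomial.X ^ (r * 3 ^ e) - 1)) := by ring
      rw [e2, ← hg]
      ring
    have key2 := congrArg (Polynomial.aeval E) key
    simp only [map_mul, map_add, map_sub, map_pow, map_one, Polynomial.aeval_X, hz, hy,
      map_ofNat] at key2
    rw [key2]
    have c3 : ∀ s : S, (3 : S) * s = s * 3 := fun s => (Nat.cast_commute 3 s).eq
    have cn : ∀ (n : ℕ) (s : S), (n : S) * s = s * n := fun n s => (Nat.cast_commute n s).eq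
    have e3 : ((3 ^ (e + 1 + 1) * q : ℕ) : S) = ((3 ^ (e + 1) * q : ℕ) : S) * ((3 : ℕ) : S) := by
      rw [← Nat.cast_mul]; congr 1; rw [pow_succ]; ring
    have hd : ∀ s : S, ((3 : ℕ) : S) ∣ z * (((3 : ℕ) : S) * s) := by
      intro s
      refine ⟨z * s, ?_⟩
      rw [← mul_assoc z, ← cn 3 z, mul_assoc]
    apply dvd_add
    · rw [e3, mul_assoc]
      apply mul_dvd_mul_left
      exact hd _
    · rw [e3, mul_assoc]
      apply mul_dvd_mul_left
      have e4 : ((3 * q : ℕ) : S) * y * ((Polynomial.aeval E) g * (E ^ (r * 3 ^ e) - 1))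
          = ((3 : ℕ) : S) * ((q : S) * (y * ((Polynomial.aeval E) g * (E ^ (r * 3 ^ e) - 1)))) := by
        rw [Nat.cast_mul]; simp only [mul_assoc]
      rw [e4]
      exact hd _

section torus

variable {m : ℕ}

/-- abelianization of the free group -/
def ab (m : ℕ) : FreeGroup (Fin m) →* Multiplicative (Fin m → ℤ) :=
  FreeGroup.lift (fun i => Multiplicative.ofAdd (Pi.single i 1))

/-- evaluation of exponent vectors -/
def evm {C : Type} [CommGroup C] (c : Fin m → C) : Multiplicative (Fin m → ℤ) →* C where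
  toFun v := ∏ j, c j ^ (Multiplicative.toAdd v j)
  map_one' := by simp
  map_mul' v w := by
    rw [← Finset.prod_mul_distrib]
    apply Finset.prod_congr rfl
    intro j _
    rw [toAdd_mul, Pi.add_apply, zpow_add]

theorem evm_apply {C : Type} [CommGroup C] (c : Fin m → C) (v : Multiplicative (Fin m → ℤ)) :
    evm c v = ∏ j, c j ^ (Multiplicative.toAdd v j) := rfl

theorem evm_ab {C : Type} [CommGroup C] (u : FreeGroup (Fin m) →* C) (g : FreeGroup (Fin m)) :
    evm (fun i => u (FreeGroup.of i)) (ab m g) = u g := by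
  have : (evm (fun i => u (FreeGroup.of i))).comp (ab m) = u := by
    apply FreeGroup.ext_hom
    intro i
    rw [MonoidHom.comp_apply, ab, FreeGroup.lift_apply_of, evm_apply, Finset.prod_eq_single i]
    · simp
    · intro j _ hj
      simp [hj]
    · intro h; exact absurd (Finset.mem_univ i) h
  exact DFunLike.congr_fun this g

/-- the exponent matrix -/
def emat (τ : FreeGroup (Fin m) →* FreeGroup (Fin m)) : Matrix (Fin m) (Fin m) ℤ :=
  Matrix.of (fun i j => Multiplicative.toAdd (ab m (τ (FreeGroup.of i))) j)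

theorem ab_tau (τ : FreeGroup (Fin m) →* FreeGroup (Fin m)) (g : FreeGroup (Fin m)) :
    Multiplicative.toAdd (ab m (τ g)) = Matrix.vecMul (Multiplicative.toAdd (ab m g)) (emat τ) := by
  have h1 := evm_ab ((ab m).comp τ) g
  rw [MonoidHom.comp_apply] at h1
  rw [← h1, evm_apply]
  funext j
  rw [toAdd_prod, Finset.sum_apply, Matrix.vecMul, dotProduct]
  apply Finset.sum_congr rfl
  intro i _
  rw [toAdd_zpow, Pi.smul_apply, smul_eq_mul]
  rfl

theorem ab_tau_iter (τ : FreeGroup (Fin m) →* FreeGroup (Fin m)) (n : ℕ)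
    (g : FreeGroup (Fin m)) : Multiplicative.toAdd (ab m (τ^[n] g))
      = Matrix.vecMul (Multiplicative.toAdd (ab m g)) (emat τ ^ n) := by
  induction n with
  | zero => rw [pow_zero, Matrix.vecMul_one]; rfl
  | succ n ih =>
    rw [Function.iterate_succ_apply', ab_tau, ih, Matrix.vecMul_vecMul, pow_succ]

theorem exists_mat_period (E : Matrix (Fin m) (Fin m) ℤ) (N : ℕ) (hN : 0 < N) :
    ∃ i r : ℕ, 0 < r ∧ ((N : ℕ) : Matrix (Fin m) (Fin m) ℤ) ∣ E ^ i * (E ^ r - 1) := by
  have : NeZero N := ⟨hN.ne'⟩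
  set φ : Matrix (Fin m) (Fin m) ℤ →+* Matrix (Fin m) (Fin m) (ZMod N) :=
    (Int.castRingHom (ZMod N)).mapMatrix with hφ
  have hni : ¬ Function.Injective (fun n : ℕ => φ E ^ n) := not_injective_infinite_finite _
  rw [Function.Injective] at hni
  push Not at hni
  obtain ⟨a, b, hab, hne⟩ := hni
  have key : ∀ i j : ℕ, i < j → φ E ^ i = φ E ^ j → ∃ i r : ℕ, 0 < r ∧
      ((N : ℕ) : Matrix (Fin m) (Fin m) ℤ) ∣ E ^ i * (E ^ r - 1) := by
    intro i j hij h
    refine ⟨i, j - i, by omega, ?_⟩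
    have h0 : φ (E ^ i * (E ^ (j - i) - 1)) = 0 := by
      rw [mul_sub, mul_one, ← pow_add, Nat.add_sub_cancel' hij.le, map_sub, map_pow, map_pow, h,
        sub_self]
    set Z := E ^ i * (E ^ (j - i) - 1) with hZ
    have h1 : ∀ s t, (N : ℤ) ∣ Z s t := by
      intro s t
      have h2 := congrFun (congrFun h0 s) t
      rw [hφ] at h2
      have h3 : ((Z s t : ℤ) : ZMod N) = 0 := h2
      exact (ZMod.intCast_zmod_eq_zero_iff_dvd _ _).mp h3
    choose Y hY using h1
    refine ⟨Matrix.of Y, ?_⟩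
    rw [← nsmul_eq_mul]
    ext s t
    rw [Matrix.smul_apply, Matrix.of_apply, hY]
    simp
  rcases lt_or_gt_of_ne hne with h | h
  · exact key a b h hab
  · exact key b a h hab.symm

/-- The torus layer. -/
theorem torus_periodic (τ : FreeGroup (Fin m) →* FreeGroup (Fin m)) (q : ℕ) (hq : 0 < q) :
    ∃ i r : ℕ, 0 < r ∧ ∀ (e : ℕ) (C : Type) (_ : CommGroup C),
      (∀ c : C, c ^ (3 ^ e * q) = 1) → ∀ (u : FreeGroup (Fin m) →* C) (g : FreeGroup (Fin m)),
        u (τ^[i * (e + 1) + r * 3 ^ e] g) = u (τ^[i * (e + 1)] g) := by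
  obtain ⟨i, r, hr, h⟩ := exists_mat_period (emat τ) (3 * q) (by omega)
  refine ⟨i, r, hr, ?_⟩
  intro e C _ hC u g
  obtain ⟨Y, hY⟩ := tl_ring (emat τ) q i r h e
  rw [mul_sub, mul_one, ← pow_add, sub_eq_iff_eq_add] at hY
  rw [← evm_ab u (τ^[i * (e + 1) + r * 3 ^ e] g), ← evm_ab u (τ^[i * (e + 1)] g)]
  have h1 : ab m (τ^[i * (e + 1) + r * 3 ^ e] g)
      = (Multiplicative.ofAdd (Matrix.vecMul (Multiplicative.toAdd (ab m g)) Y))
          ^ (3 ^ (e + 1) * q) * ab m (τ^[i * (e + 1)] g) := by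
    apply Multiplicative.toAdd.injective
    rw [ab_tau_iter, hY, toAdd_mul, ab_tau_iter, toAdd_pow, toAdd_ofAdd, Matrix.vecMul_add,
      ← nsmul_eq_mul, Matrix.vecMul_smul]
  rw [h1, map_mul, map_pow]
  have h2 : ∀ c : C, c ^ (3 ^ (e + 1) * q) = 1 := by
    intro c
    have : 3 ^ (e + 1) * q = (3 ^ e * q) * 3 := by rw [pow_succ]; ring
    rw [this, pow_mul, hC, one_pow]
  rw [h2, one_mul]

end torus

end Pool.Agent.LibLPres
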